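import Pool.Agent.Lib.BV.Assemble
import Pool.Agent.Lib.SW.Main

/-!
# Weak Bombieri-Vinogradov theorem (level x^(1/20))

PROOF SKETCH. riesz_ap at 2x with exponent A' = 2A + 1 (note floor((2x)^(1/20)) >= floor(x^(1/20)),
sums of nonnegative E over the smaller range). For 1 <= y <= x and 0 < h <= x:
psiAP is monotone in y and int_u^v psiAP = RSap v - RSap u, so
psiAP y <= (RSap (y+h) - RSap y)/h <= y/φ + h/(2φ) + 2E/h, and from below, for y - h >= 1,
psiAP y >= (RSap y - RSap (y-h))/h >= y/φ - h/(2φ) - 2E/h; for y < 1 + h: psiAP >= 0 >= y/φ - (1+h)/φ.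
So |psiAP y q a - y/φ(q)| <= (1+h)/φ(q) + 2E/h, h = x/(log x)^(A+1), sum over q with
sum_inv_totient. thetaAP: psiAP_sub_thetaAP; times x^(1/20) it is small.
RSap difference without integrals: RSap v - RSap u = sum_{n<=u} Λ(n)(v-u) + sum_{u<n<=v} Λ(n)(v-n),
which lies between (v-u) psiAP u and (v-u) psiAP v.
-/

namespace Pool.Agent.Lib.BV

open Pool.Agent.Lib.SW

/-- The progression set grows. -/
lemma filt_subset {u v : ℝ} (huv : u ≤ v) (q a : ℕ) :
    (Finset.Icc 1 ⌊u⌋₊).filter (fun n => n ≡ a [MOD q]) ⊆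
      (Finset.Icc 1 ⌊v⌋₊).filter (fun n => n ≡ a [MOD q]) := by
  apply Finset.filter_subset_filter
  exact Finset.Icc_subset_Icc_right (Nat.floor_mono huv)

lemma RSap_sub_ge {u v : ℝ} (hu : 0 ≤ u) (huv : u ≤ v) (q a : ℕ) :
    (v - u) * psiAP u q a ≤ RSap v q a - RSap u q a := by
  have h1 : ∑ n ∈ (Finset.Icc 1 ⌊u⌋₊).filter (fun n => n ≡ a [MOD q]),
      ArithmeticFunction.vonMangoldt n * (v - n) ≤ RSap v q a := by
    unfold RSap
    apply Finset.sum_le_sum_of_subset_of_nonneg (filt_subset huv q a)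
    intro n hn _
    simp only [Finset.mem_filter, Finset.mem_Icc] at hn
    have hnv : (n:ℝ) ≤ v := (Nat.le_floor_iff (hu.trans huv)).1 hn.1.2
    exact mul_nonneg ArithmeticFunction.vonMangoldt_nonneg (by linarith)
  have h2 : (v - u) * psiAP u q a + RSap u q a =
      ∑ n ∈ (Finset.Icc 1 ⌊u⌋₊).filter (fun n => n ≡ a [MOD q]),
      ArithmeticFunction.vonMangoldt n * (v - n) := by
    unfold RSap psiAP
    rw [Finset.mul_sum, ← Finset.sum_add_distrib]
    refine Finset.sum_congr rfl fun n _ => ?_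
    ring
  linarith

lemma RSap_sub_le_psi {u v : ℝ} (_hu : 0 ≤ u) (huv : u ≤ v) (q a : ℕ) :
    RSap v q a - RSap u q a ≤ (v - u) * psiAP v q a := by
  have h1 : ∑ n ∈ (Finset.Icc 1 ⌊v⌋₊).filter (fun n => n ≡ a [MOD q]),
      ArithmeticFunction.vonMangoldt n * (u - n) ≤ RSap u q a := by
    unfold RSap
    rw [← Finset.sum_sdiff (filt_subset huv q a)]
    have : ∑ n ∈ (Finset.Icc 1 ⌊v⌋₊).filter (fun n => n ≡ a [MOD q]) \
        (Finset.Icc 1 ⌊u⌋₊).filter (fun n => n ≡ a [MOD q]),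
        ArithmeticFunction.vonMangoldt n * (u - n) ≤ 0 := by
      apply Finset.sum_nonpos
      intro n hn
      simp only [Finset.mem_sdiff, Finset.mem_filter, Finset.mem_Icc] at hn
      have hnu : ¬ n ≤ ⌊u⌋₊ := fun h => hn.2 ⟨⟨hn.1.1.1, h⟩, hn.1.2⟩
      have hnu' : u < n := by
        by_contra hc
        exact hnu (Nat.le_floor (not_lt.1 hc))
      exact mul_nonpos_of_nonneg_of_nonpos ArithmeticFunction.vonMangoldt_nonneg (by linarith)
    linarith
  have h2 : RSap v q a - (v - u) * psiAP v q a =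
      ∑ n ∈ (Finset.Icc 1 ⌊v⌋₊).filter (fun n => n ≡ a [MOD q]),
      ArithmeticFunction.vonMangoldt n * (u - n) := by
    unfold RSap psiAP
    rw [Finset.mul_sum, ← Finset.sum_sub_distrib]
    refine Finset.sum_congr rfl fun n _ => ?_
    ring
  linarith

lemma psiAP_nonneg (y : ℝ) (q a : ℕ) : 0 ≤ psiAP y q a :=
  Finset.sum_nonneg fun _ _ => ArithmeticFunction.vonMangoldt_nonneg

/-- From the Riesz mean to psi. -/
lemma psi_of_RS {x h f e : ℝ} (q a : ℕ) (hh : 0 < h) (hhx : h ≤ x) (hf : 0 < f)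
    (he : ∀ y : ℝ, 1 ≤ y → y ≤ 2 * x → |RSap y q a - y ^ 2 / (2 * f)| ≤ e)
    (y : ℝ) (hy : 1 ≤ y) (hyx : y ≤ x) :
    |psiAP y q a - y / f| ≤ (1 + h) / f + 2 * e / h := by
  have he0 : 0 ≤ e := (abs_nonneg _).trans (he y hy (by linarith))
  have hy0 := abs_le.1 (he y hy (by linarith))
  have hup : psiAP y q a - y / f ≤ (1 + h) / f + 2 * e / h := by
    have h1 := abs_le.1 (he (y + h) (by linarith) (by linarith))
    have h2 := RSap_sub_ge (u := y) (v := y + h) (by linarith) (by linarith) q a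
    have h3 : (y + h - y) * psiAP y q a ≤
        ((y + h) ^ 2 / (2 * f) + e) - (y ^ 2 / (2 * f) - e) := by linarith [h1.2, hy0.1]
    have h4 : ((y + h) ^ 2 / (2 * f) + e) - (y ^ 2 / (2 * f) - e) =
        h * (y / f + h / (2 * f) + 2 * e / h) := by
      field_simp
      ring
    rw [h4, add_sub_cancel_left] at h3
    have h5 := le_of_mul_le_mul_left h3 hh
    have h6 : h / (2 * f) ≤ (1 + h) / f := by
      rw [div_le_div_iff₀ (by positivity) hf]
      nlinarith [mul_pos hh hf]
    linarith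
  have hlow : y / f - psiAP y q a ≤ (1 + h) / f + 2 * e / h := by
    rcases le_or_gt (1 + h) y with hyh | hyh
    · have h1 := abs_le.1 (he (y - h) (by linarith) (by linarith))
      have h2 := RSap_sub_le_psi (u := y - h) (v := y) (by linarith) (by linarith) q a
      have h3 : (y ^ 2 / (2 * f) - e) - ((y - h) ^ 2 / (2 * f) + e) ≤
          (y - (y - h)) * psiAP y q a := by linarith [h1.2, hy0.1]
      have h4 : (y ^ 2 / (2 * f) - e) - ((y - h) ^ 2 / (2 * f) + e) =
          h * (y / f - h / (2 * f) - 2 * e / h) := by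
        field_simp
        ring
      rw [h4, sub_sub_cancel] at h3
      have h5 := le_of_mul_le_mul_left h3 hh
      have h6 : h / (2 * f) ≤ (1 + h) / f := by
        rw [div_le_div_iff₀ (by positivity) hf]
        nlinarith [mul_pos hh hf]
      linarith
    · have h1 : y / f ≤ (1 + h) / f := by
        apply div_le_div_of_nonneg_right hyh.le hf.le
      have h2 := psiAP_nonneg y q a
      have h3 : 0 ≤ 2 * e / h := by positivity
      linarith
  rw [abs_le]
  constructor <;> linarith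

lemma psi_theta {x y : ℝ} (hy : 1 ≤ y) (hyx : y ≤ x) (q a : ℕ) :
    |psiAP y q a - thetaAP y q a| ≤ 2 * Real.sqrt x * Real.log x := by
  rcases le_or_gt 2 y with h | h
  · refine (psiAP_sub_thetaAP y h q a).trans ?_
    have h1 : Real.sqrt y ≤ Real.sqrt x := Real.sqrt_le_sqrt hyx
    have h2 : Real.log y ≤ Real.log x := Real.log_le_log (by linarith) hyx
    have h3 : 0 ≤ Real.log y := Real.log_nonneg hy
    gcongr
  · have hfl : ⌊y⌋₊ = 1 := by
      rw [Nat.floor_eq_iff (by linarith)]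
      constructor <;> push_cast <;> linarith
    have h1 : psiAP y q a = 0 := by
      unfold psiAP
      rw [hfl]
      apply Finset.sum_eq_zero
      intro n hn
      simp only [Finset.mem_filter, Finset.mem_Icc] at hn
      have : n = 1 := by omega
      subst this
      exact ArithmeticFunction.vonMangoldt_apply_one
    have h2 : thetaAP y q a = 0 := by
      unfold thetaAP
      rw [hfl]
      apply Finset.sum_eq_zero
      intro n hn
      simp only [Finset.mem_filter, Finset.mem_Icc] at hn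
      have : n = 1 := by omega
      subst this
      simp
    rw [h1, h2, sub_zero, abs_zero]
    have : 0 ≤ Real.log x := Real.log_nonneg (hy.trans hyx)
    positivity

/-- Powers of the logarithm against the power `9/20`. -/
lemma log_pow_le_rpow (k : ℕ) : ∃ C : ℝ, 0 < C ∧ ∀ x : ℝ, 1 ≤ x →
    (Real.log x) ^ k ≤ C * x ^ (9/20 : ℝ) := by
  refine ⟨(20 / 9 * ((k:ℝ)+1)) ^ k, by positivity, fun x hx => ?_⟩
  have h0 : 0 ≤ Real.log x := Real.log_nonneg hx
  have hx0 : (0:ℝ) ≤ x := by linarith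
  have hε : (0:ℝ) < 1 / (20 / 9 * ((k:ℝ)+1)) := by positivity
  have h1 := Real.log_le_rpow_div hx0 hε
  have h2 := pow_le_pow_left₀ h0 h1 k
  refine h2.trans ?_
  rw [div_pow, one_div, inv_pow, div_inv_eq_mul, mul_comm]
  apply mul_le_mul_of_nonneg_left _ (by positivity)
  rw [← Real.rpow_natCast, ← Real.rpow_mul hx0]
  apply Real.rpow_le_rpow_of_exponent_le hx
  rw [inv_mul_eq_div, div_le_div_iff₀ (by positivity) (by norm_num)]
  nlinarith

/-- **Bombieri-Vinogradov theorem with level of distribution 1/20.** -/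
theorem bv_weak (A : ℕ) : ∃ C x₀ : ℝ, 0 < C ∧ ∀ x : ℝ, x₀ ≤ x → ∃ E : ℕ → ℝ,
    (∀ q, 0 ≤ E q) ∧
    (∑ q ∈ Finset.Icc 1 ⌊x ^ (1/20 : ℝ)⌋₊, E q ≤ C * x / (Real.log x) ^ A) ∧
    ∀ q ∈ Finset.Icc 1 ⌊x ^ (1/20 : ℝ)⌋₊, ∀ a : ℕ, a.Coprime q → ∀ y : ℝ, 1 ≤ y → y ≤ x →
      |thetaAP y q a - y / (q.totient : ℝ)| ≤ E q := by
  obtain ⟨C', x₀', hC', hR⟩ := riesz_ap (2 * A + 1)
  obtain ⟨C1, hC1, htot⟩ := sum_inv_totient
  obtain ⟨C2, hC2, hsq⟩ := log_pow_le_sqrt (A + 1)
  obtain ⟨C3, hC3, hrp⟩ := log_pow_le_rpow (A + 1)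
  refine ⟨4 * C1 + 8 * C' + 2 * C3, max (max 3 x₀') (C2 ^ 2), by positivity, fun x hx => ?_⟩
  have hx3 : 3 ≤ x := (le_max_left _ _).trans ((le_max_left _ _).trans hx)
  have hx0' : x₀' ≤ x := (le_max_right _ _).trans ((le_max_left _ _).trans hx)
  have hxC : C2 ^ 2 ≤ x := (le_max_right _ _).trans hx
  have hxpos : 0 < x := by linarith
  set L := Real.log x with hL
  have hL1 : 1 ≤ L := by
    rw [hL, Real.le_log_iff_exp_le hxpos]
    have := Real.exp_one_lt_d9
    linarith
  have hLpos : 0 < L := by linarith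
  set h := x / L ^ (A + 1) with hh
  have hhpos : 0 < h := by positivity
  have hhx : h ≤ x := by
    rw [hh, div_le_iff₀ (by positivity)]
    exact le_mul_of_one_le_right hxpos.le (one_le_pow₀ hL1)
  have hh1 : 1 ≤ h := by
    rw [hh, le_div_iff₀ (by positivity), one_mul]
    refine (hsq x (by linarith)).trans ?_
    have h1 : C2 ≤ Real.sqrt x := by
      rw [← Real.sqrt_sq hC2.le]
      exact Real.sqrt_le_sqrt hxC
    calc C2 * Real.sqrt x ≤ Real.sqrt x * Real.sqrt x :=
          mul_le_mul_of_nonneg_right h1 (Real.sqrt_nonneg _)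
      _ = x := Real.mul_self_sqrt hxpos.le
  obtain ⟨E', hE0, hEsum, hE⟩ := hR (2 * x) (by linarith)
  set Q := ⌊x ^ (1/20 : ℝ)⌋₊ with hQ
  have hQQ : Q ≤ ⌊(2 * x) ^ (1/20 : ℝ)⌋₊ := by
    apply Nat.floor_mono
    apply Real.rpow_le_rpow hxpos.le (by linarith) (by norm_num)
  have hQ1 : 1 ≤ Q := by
    apply Nat.le_floor
    push_cast
    exact Real.one_le_rpow (by linarith) (by norm_num)
  have hQx : (Q:ℝ) ≤ x ^ (1/20 : ℝ) := Nat.floor_le (by positivity)
  refine ⟨fun q => (1 + h) / (q.totient : ℝ) + 2 * E' q / h + 2 * Real.sqrt x * L, ?_, ?_, ?_⟩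
  · intro q
    have := hE0 q
    positivity
  · rw [Finset.sum_add_distrib, Finset.sum_add_distrib]
    -- the totient part
    have s1 : ∑ q ∈ Finset.Icc 1 Q, (1 + h) / (q.totient : ℝ) ≤ 4 * C1 * (x / L ^ A) := by
      have e1 : ∑ q ∈ Finset.Icc 1 Q, (1 + h) / (q.totient : ℝ) =
          (1 + h) * ∑ q ∈ Finset.Icc 1 Q, 1 / (q.totient : ℝ) := by
        rw [Finset.mul_sum]
        exact Finset.sum_congr rfl fun q _ => by rw [mul_one_div]
      rw [e1]
      have e2 : Real.log Q ≤ L := by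
        apply Real.log_le_log (by exact_mod_cast hQ1)
        refine hQx.trans ?_
        calc x ^ (1/20 : ℝ) ≤ x ^ (1:ℝ) :=
              Real.rpow_le_rpow_of_exponent_le (by linarith) (by norm_num)
          _ = x := Real.rpow_one x
      calc (1 + h) * ∑ q ∈ Finset.Icc 1 Q, 1 / (q.totient : ℝ)
          ≤ (2 * h) * (C1 * (2 * L)) := by
            apply mul_le_mul (by linarith) _ (Finset.sum_nonneg fun _ _ => by positivity)
              (by positivity)
            refine (htot Q hQ1).trans ?_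
            apply mul_le_mul_of_nonneg_left _ hC1.le
            linarith
        _ = 4 * C1 * (x / L ^ A) := by
            rw [hh, pow_succ]
            field_simp
            ring
    -- the Riesz part
    have s2 : ∑ q ∈ Finset.Icc 1 Q, 2 * E' q / h ≤ 8 * C' * (x / L ^ A) := by
      have e1 : ∑ q ∈ Finset.Icc 1 Q, 2 * E' q / h =
          2 / h * ∑ q ∈ Finset.Icc 1 Q, E' q := by
        rw [Finset.mul_sum]
        exact Finset.sum_congr rfl fun q _ => by ring
      rw [e1]
      have e2 : ∑ q ∈ Finset.Icc 1 Q, E' q ≤ C' * (2 * x) ^ 2 / L ^ (2 * A + 1) := by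
        refine (Finset.sum_le_sum_of_subset_of_nonneg
          (Finset.Icc_subset_Icc_right hQQ) fun q _ _ => hE0 q).trans (hEsum.trans ?_)
        apply div_le_div_of_nonneg_left (by positivity) (by positivity)
        apply pow_le_pow_left₀ hLpos.le
        exact Real.log_le_log hxpos (by linarith)
      calc 2 / h * ∑ q ∈ Finset.Icc 1 Q, E' q
          ≤ 2 / h * (C' * (2 * x) ^ 2 / L ^ (2 * A + 1)) :=
            mul_le_mul_of_nonneg_left e2 (by positivity)
        _ = 8 * C' * (x / L ^ A) := by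
            rw [hh, show 2 * A + 1 = A + (A + 1) by ring, pow_add L A (A + 1)]
            field_simp
            ring
    -- prime powers
    have s3 : ∑ q ∈ Finset.Icc 1 Q, 2 * Real.sqrt x * L ≤ 2 * C3 * (x / L ^ A) := by
      rw [Finset.sum_const, Nat.card_Icc, nsmul_eq_mul, add_tsub_cancel_right]
      have e1 := hrp x (by linarith)
      rw [← hL] at e1
      have e2 : x ^ (1/20 : ℝ) * Real.sqrt x * x ^ (9/20 : ℝ) = x := by
        rw [Real.sqrt_eq_rpow, ← Real.rpow_add hxpos, ← Real.rpow_add hxpos]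
        norm_num
      have e3 : x ^ (1/20 : ℝ) * (2 * Real.sqrt x * L) * L ^ A ≤ 2 * C3 * x := by
        calc x ^ (1/20 : ℝ) * (2 * Real.sqrt x * L) * L ^ A
            = 2 * (x ^ (1/20 : ℝ) * Real.sqrt x) * L ^ (A + 1) := by rw [pow_succ]; ring
          _ ≤ 2 * (x ^ (1/20 : ℝ) * Real.sqrt x) * (C3 * x ^ (9/20 : ℝ)) :=
              mul_le_mul_of_nonneg_left e1 (by positivity)
          _ = 2 * C3 * (x ^ (1/20 : ℝ) * Real.sqrt x * x ^ (9/20 : ℝ)) := by ring
          _ = 2 * C3 * x := by rw [e2]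
      calc (Q:ℝ) * (2 * Real.sqrt x * L) ≤ x ^ (1/20 : ℝ) * (2 * Real.sqrt x * L) :=
            mul_le_mul_of_nonneg_right hQx (by positivity)
        _ ≤ 2 * C3 * x / L ^ A := by
            rw [le_div_iff₀ (by positivity)]
            exact e3
        _ = 2 * C3 * (x / L ^ A) := by ring
    calc _ ≤ 4 * C1 * (x / L ^ A) + 8 * C' * (x / L ^ A) + 2 * C3 * (x / L ^ A) :=
          add_le_add (add_le_add s1 s2) s3
      _ = (4 * C1 + 8 * C' + 2 * C3) * x / L ^ A := by ring
  · intro q hq a ha y hy hyx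
    have hq' : q ∈ Finset.Icc 1 ⌊(2 * x) ^ (1/20 : ℝ)⌋₊ :=
      Finset.Icc_subset_Icc_right hQQ hq
    have hq1 : 1 ≤ q := (Finset.mem_Icc.1 hq).1
    have hf : (0:ℝ) < (q.totient : ℝ) := by exact_mod_cast Nat.totient_pos.2 hq1
    have h1 := psi_of_RS (x := x) (e := E' q) q a hhpos hhx hf
      (fun z hz1 hz2 => hE q hq' a ha z hz1 hz2) y hy hyx
    have h2 := psi_theta hy hyx q a
    have h3 : |thetaAP y q a - y / (q.totient : ℝ)| ≤
        |psiAP y q a - y / (q.totient : ℝ)| + |psiAP y q a - thetaAP y q a| := by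
      have : thetaAP y q a - y / (q.totient : ℝ) =
          (psiAP y q a - y / (q.totient : ℝ)) - (psiAP y q a - thetaAP y q a) := by ring
      rw [this]
      exact abs_sub _ _
    linarith

end Pool.Agent.Lib.BV
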