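import Pool.Agent.Lib.BV.Defs

/-!
# From all characters to primitive characters

PROOF SKETCH. For fixed q+1 <= Q the map χ -> (conductor χ, primitiveCharacter χ) is injective on
characters mod q+1 (changeLevel_primitiveCharacter), its values are primitive characters of moduli
d | q+1, and d > 1 for χ <> 1 (eq_one_iff_conductor_eq_one). So the left side is at most
sum over 2 <= d <= Q, primitive ψ mod d, of G d ψ sum_{m <= Q/d} 1/φ(dm), and
φ(dm) >= φ(d) φ(m) (Nat.totient_super_multiplicative).
-/

open Complex

namespace Pool.Agent.Lib.BV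

/-- A character of conductor `d` induced from modulus `d` is induced from its primitive
character. -/
lemma G_eq_of_changeLevel (G : (q : ℕ) → DirichletCharacter ℂ q → ℝ) {n d : ℕ} [NeZero n]
    (χ : DirichletCharacter ℂ n) (ψ : DirichletCharacter ℂ d) (h : d ∣ n)
    (hχ : DirichletCharacter.changeLevel h ψ = χ) (hd : χ.conductor = d) :
    G χ.conductor χ.primitiveCharacter = G d ψ := by
  subst hd
  have h1 : DirichletCharacter.changeLevel h ψ =
      DirichletCharacter.changeLevel h χ.primitiveCharacter := by
    rw [hχ]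
    exact (DirichletCharacter.changeLevel_primitiveCharacter χ).symm
  rw [DirichletCharacter.changeLevel_injective h h1]

open scoped Classical in
/-- The part of the sum over characters coming from conductor `d+1`. -/
lemma sum_conductor_eq (G : (q : ℕ) → DirichletCharacter ℂ q → ℝ) (hG : ∀ q χ, 0 ≤ G q χ)
    (q d : ℕ) :
    (∑ χ : DirichletCharacter ℂ (q+1), if χ.conductor = d + 1 then
      (if χ = 1 then 0 else G χ.conductor χ.primitiveCharacter) else 0) ≤
    if d + 1 ∣ q + 1 then (∑ ψ : DirichletCharacter ℂ (d+1), if ψ.IsPrimitive then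
      (if d + 1 = 1 then 0 else G (d+1) ψ) else 0) else 0 := by
  by_cases hdvd : d + 1 ∣ q + 1
  · rw [if_pos hdvd]
    by_cases hd0 : d + 1 = 1
    · refine le_trans (Finset.sum_nonpos fun χ _ => ?_) (Finset.sum_nonneg fun ψ _ => ?_)
      · by_cases hc : χ.conductor = d + 1
        · have : χ = 1 := by
            rw [DirichletCharacter.eq_one_iff_conductor_eq_one, hc, hd0]
          simp [this]
        · rw [if_neg hc]
      · simp [hd0]
    · rw [← Finset.sum_filter, ← Finset.sum_filter]
      have hinj : Set.InjOn (fun ψ : DirichletCharacter ℂ (d+1) =>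
          DirichletCharacter.changeLevel hdvd ψ)
          ((Finset.univ.filter fun ψ : DirichletCharacter ℂ (d+1) => ψ.IsPrimitive) :
            Finset (DirichletCharacter ℂ (d+1))) :=
        (DirichletCharacter.changeLevel_injective hdvd).injOn
      have hsub : (Finset.univ.filter fun χ : DirichletCharacter ℂ (q+1) =>
          χ.conductor = d + 1) ⊆
          (Finset.univ.filter fun ψ : DirichletCharacter ℂ (d+1) => ψ.IsPrimitive).image
            (fun ψ : DirichletCharacter ℂ (d+1) => DirichletCharacter.changeLevel hdvd ψ) := by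
        intro χ hχ
        rw [Finset.mem_filter] at hχ
        have hf : χ.FactorsThrough (d+1) := by
          rw [← hχ.2]; exact χ.factorsThrough_conductor
        have he : χ = DirichletCharacter.changeLevel hdvd hf.χ₀ := hf.eq_changeLevel
        rw [Finset.mem_image]
        refine ⟨hf.χ₀, ?_, he.symm⟩
        rw [Finset.mem_filter]
        refine ⟨Finset.mem_univ _, ?_⟩
        rw [DirichletCharacter.isPrimitive_def]
        have h2 := DirichletCharacter.conductor_changeLevel hf.χ₀ hdvd
        rw [← he, hχ.2] at h2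
        exact h2.symm
      calc (∑ χ ∈ Finset.univ.filter (fun χ : DirichletCharacter ℂ (q+1) =>
              χ.conductor = d + 1), if χ = 1 then 0 else G χ.conductor χ.primitiveCharacter)
          ≤ ∑ χ ∈ (Finset.univ.filter fun ψ : DirichletCharacter ℂ (d+1) =>
              ψ.IsPrimitive).image
              (fun ψ : DirichletCharacter ℂ (d+1) => DirichletCharacter.changeLevel hdvd ψ),
              if χ = 1 then 0 else G χ.conductor χ.primitiveCharacter := by
            refine Finset.sum_le_sum_of_subset_of_nonneg hsub fun χ _ _ => ?_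
            split_ifs
            · exact le_refl _
            · exact hG _ _
        _ = ∑ ψ ∈ Finset.univ.filter (fun ψ : DirichletCharacter ℂ (d+1) => ψ.IsPrimitive),
              (if DirichletCharacter.changeLevel hdvd ψ = 1 then 0 else
                G (DirichletCharacter.changeLevel hdvd ψ).conductor
                  (DirichletCharacter.changeLevel hdvd ψ).primitiveCharacter) :=
            Finset.sum_image hinj
        _ ≤ _ := by
            refine Finset.sum_le_sum fun ψ hψ => ?_
            rw [if_neg hd0]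
            rw [Finset.mem_filter] at hψ
            have h1 : (DirichletCharacter.changeLevel hdvd ψ).conductor = d + 1 := by
              rw [DirichletCharacter.conductor_changeLevel]
              exact hψ.2
            split_ifs
            · exact hG _ _
            · exact (G_eq_of_changeLevel G _ ψ hdvd rfl h1).le
  · rw [if_neg hdvd]
    refine Finset.sum_nonpos fun χ _ => ?_
    rw [if_neg]
    intro h
    exact hdvd (h ▸ χ.conductor_dvd_level)

open scoped Classical in
lemma char_sum_fixed (Q : ℕ) (G : (q : ℕ) → DirichletCharacter ℂ q → ℝ)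
    (hG : ∀ q χ, 0 ≤ G q χ) (q : ℕ) (hq : q < Q) :
    (∑ χ : DirichletCharacter ℂ (q+1),
      (if χ = 1 then 0 else G χ.conductor χ.primitiveCharacter)) ≤
    ∑ d ∈ Finset.range Q, if d + 1 ∣ q + 1 then
      (∑ ψ : DirichletCharacter ℂ (d+1), if ψ.IsPrimitive then
      (if d + 1 = 1 then 0 else G (d+1) ψ) else 0) else 0 := by
  have h1 : (∑ χ : DirichletCharacter ℂ (q+1),
      (if χ = 1 then 0 else G χ.conductor χ.primitiveCharacter)) =
      ∑ χ : DirichletCharacter ℂ (q+1), ∑ d ∈ Finset.range Q, if χ.conductor = d + 1 then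
        (if χ = 1 then 0 else G χ.conductor χ.primitiveCharacter) else 0 := by
    refine Finset.sum_congr rfl fun χ _ => ?_
    have hc0 : χ.conductor ≠ 0 := DirichletCharacter.conductor_ne_zero χ
    have hcle : χ.conductor ≤ q + 1 := Nat.le_of_dvd (Nat.succ_pos q) χ.conductor_dvd_level
    rw [Finset.sum_eq_single_of_mem (χ.conductor - 1)]
    · have hc1 : χ.conductor = χ.conductor - 1 + 1 := by omega
      exact (if_pos hc1).symm
    · rw [Finset.mem_range]; omega
    · intro d _ hd
      rw [if_neg (by omega)]
  rw [h1, Finset.sum_comm]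
  exact Finset.sum_le_sum fun d _ => sum_conductor_eq G hG q d

/-- The sum over the multiples of `d+1`. -/
lemma sum_totient_multiples (Q d : ℕ) :
    (∑ q ∈ Finset.range Q, if d + 1 ∣ q + 1 then (1 / ((q+1).totient : ℝ)) else 0) ≤
    (∑ m ∈ Finset.Icc 1 Q, 1 / (m.totient : ℝ)) * (1 / ((d+1).totient : ℝ)) := by
  rw [← Finset.sum_filter, Finset.sum_mul]
  have hmaps : ∀ q ∈ (Finset.range Q).filter (fun q => d + 1 ∣ q + 1),
      (q + 1) / (d + 1) ∈ Finset.Icc 1 Q := by
    intro q hq
    rw [Finset.mem_filter, Finset.mem_range] at hq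
    rw [Finset.mem_Icc]
    obtain ⟨m, hm⟩ := hq.2
    rw [hm, Nat.mul_div_cancel_left m (Nat.succ_pos d)]
    have hm0 : m ≠ 0 := by rintro rfl; omega
    have : m ≤ (d + 1) * m := Nat.le_mul_of_pos_left m (Nat.succ_pos d)
    omega
  have hinj : Set.InjOn (fun q => (q + 1) / (d + 1))
      (((Finset.range Q).filter (fun q => d + 1 ∣ q + 1) : Finset ℕ) : Set ℕ) := by
    intro q hq r hr hqr
    have hq' : d + 1 ∣ q + 1 := (Finset.mem_filter.mp (Finset.mem_coe.mp hq)).2
    have hr' : d + 1 ∣ r + 1 := (Finset.mem_filter.mp (Finset.mem_coe.mp hr)).2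
    have hqr' : (q + 1) / (d + 1) = (r + 1) / (d + 1) := hqr
    have h1 := Nat.div_mul_cancel hq'
    have h2 := Nat.div_mul_cancel hr'
    rw [hqr'] at h1
    omega
  calc ∑ q ∈ (Finset.range Q).filter (fun q => d + 1 ∣ q + 1), (1 / ((q+1).totient : ℝ))
      ≤ ∑ q ∈ (Finset.range Q).filter (fun q => d + 1 ∣ q + 1),
          1 / ((((q + 1) / (d + 1)).totient : ℕ) : ℝ) * (1 / ((d+1).totient : ℝ)) := by
        refine Finset.sum_le_sum fun q hq => ?_
        rw [Finset.mem_filter, Finset.mem_range] at hq
        obtain ⟨m, hm⟩ := hq.2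
        have hm0 : 0 < m := by
          rcases Nat.eq_zero_or_pos m with h | h
          · subst h; omega
          · exact h
        rw [hm, Nat.mul_div_cancel_left m (Nat.succ_pos d)]
        have h1 : (d + 1).totient * m.totient ≤ ((d + 1) * m).totient :=
          Nat.totient_super_multiplicative (d + 1) m
        have h2 : 0 < (d + 1).totient := Nat.totient_pos.mpr (Nat.succ_pos d)
        have h3 : 0 < m.totient := Nat.totient_pos.mpr hm0
        have h4 : ((d + 1).totient : ℝ) * (m.totient : ℝ) ≤ (((d + 1) * m).totient : ℝ) := by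
          exact_mod_cast h1
        have h5 : (0:ℝ) < ((d + 1).totient : ℝ) * (m.totient : ℝ) := by positivity
        calc 1 / ((((d + 1) * m).totient : ℕ) : ℝ)
            ≤ 1 / (((d + 1).totient : ℝ) * (m.totient : ℝ)) :=
              one_div_le_one_div_of_le h5 h4
          _ = 1 / (m.totient : ℝ) * (1 / ((d+1).totient : ℝ)) := by
              rw [one_div_mul_one_div, mul_comm]
    _ = ∑ m ∈ ((Finset.range Q).filter (fun q => d + 1 ∣ q + 1)).image
          (fun q => (q + 1) / (d + 1)), 1 / (m.totient : ℝ) * (1 / ((d+1).totient : ℝ)) := by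
        rw [Finset.sum_image hinj]
    _ ≤ ∑ m ∈ Finset.Icc 1 Q, 1 / (m.totient : ℝ) * (1 / ((d+1).totient : ℝ)) := by
        refine Finset.sum_le_sum_of_subset_of_nonneg ?_ fun m _ _ => by positivity
        intro m hm
        rw [Finset.mem_image] at hm
        obtain ⟨q, hq, rfl⟩ := hm
        exact hmaps q hq

open scoped Classical in
theorem char_sum (Q : ℕ) (G : (q : ℕ) → DirichletCharacter ℂ q → ℝ) (hG : ∀ q χ, 0 ≤ G q χ) :
    ∑ q ∈ Finset.range Q, (1 / ((q+1).totient : ℝ)) * ∑ χ : DirichletCharacter ℂ (q+1),
      (if χ = 1 then 0 else G χ.conductor χ.primitiveCharacter) ≤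
    (∑ m ∈ Finset.Icc 1 Q, 1 / (m.totient : ℝ)) *
      primSum Q (fun q χ => if q = 1 then 0 else G q χ / q.totient) := by
  set P : ℕ → ℝ := fun d => ∑ ψ : DirichletCharacter ℂ (d+1), if ψ.IsPrimitive then
      (if d + 1 = 1 then 0 else G (d+1) ψ) else 0 with hP
  have hP0 : ∀ d, 0 ≤ P d := by
    intro d
    refine Finset.sum_nonneg fun ψ _ => ?_
    split_ifs
    · exact le_refl _
    · exact hG _ _
    · exact le_refl _
  have hR : primSum Q (fun q χ => if q = 1 then 0 else G q χ / q.totient) =
      ∑ d ∈ Finset.range Q, (1 / ((d+1).totient : ℝ)) * P d := by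
    unfold primSum
    refine Finset.sum_congr rfl fun d _ => ?_
    rw [hP, Finset.mul_sum]
    refine Finset.sum_congr rfl fun ψ _ => ?_
    by_cases h1 : ψ.IsPrimitive
    · by_cases h2 : d + 1 = 1
      · simp only [h1, if_true, if_pos h2, mul_zero]
      · simp only [h1, if_true, if_neg h2]
        rw [div_eq_mul_one_div, mul_comm]
    · simp only [h1, if_false, mul_zero]
  rw [hR]
  calc ∑ q ∈ Finset.range Q, (1 / ((q+1).totient : ℝ)) * ∑ χ : DirichletCharacter ℂ (q+1),
        (if χ = 1 then 0 else G χ.conductor χ.primitiveCharacter)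
      ≤ ∑ q ∈ Finset.range Q, (1 / ((q+1).totient : ℝ)) *
          ∑ d ∈ Finset.range Q, (if d + 1 ∣ q + 1 then P d else 0) := by
        refine Finset.sum_le_sum fun q hq => ?_
        refine mul_le_mul_of_nonneg_left ?_ (by positivity)
        exact char_sum_fixed Q G hG q (Finset.mem_range.mp hq)
    _ = ∑ d ∈ Finset.range Q, (∑ q ∈ Finset.range Q,
          if d + 1 ∣ q + 1 then (1 / ((q+1).totient : ℝ)) else 0) * P d := by
        simp only [Finset.mul_sum, Finset.sum_mul]
        rw [Finset.sum_comm]
        refine Finset.sum_congr rfl fun d _ => Finset.sum_congr rfl fun q _ => ?_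
        split_ifs <;> simp
    _ ≤ ∑ d ∈ Finset.range Q, ((∑ m ∈ Finset.Icc 1 Q, 1 / (m.totient : ℝ)) *
          (1 / ((d+1).totient : ℝ))) * P d := by
        refine Finset.sum_le_sum fun d _ => ?_
        exact mul_le_mul_of_nonneg_right (sum_totient_multiples Q d) (hP0 d)
    _ = (∑ m ∈ Finset.Icc 1 Q, 1 / (m.totient : ℝ)) *
          ∑ d ∈ Finset.range Q, (1 / ((d+1).totient : ℝ)) * P d := by
        rw [Finset.mul_sum]
        refine Finset.sum_congr rfl fun d _ => ?_
        ring

end Pool.Agent.Lib.BV
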