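import Mathlib

/-!
# Elementary divisor sums

PROOF SKETCH. (1) τ(n)^2 <= number of (a,b,c,d) with abcd = n (τ^2 is dominated by the fourfold
divisor function: on prime powers (j+1)^2 <= binom(j+3,3), multiplicativity; or directly: a pair of
divisors (d,e) of n is determined by g = gcd(d,e), d/g, e/g and n/lcm(d,e)), and
sum_{n<=X} τ_4(n)/n <= (sum_{n<=X} 1/n)^4 <= (1+log X)^4. (Alternatively: sum τ(n)^2/n <=
sum over d,e with lcm | n of 1/n.) (2) sum (log n)^2/n <= (log X)^2 (1+log X). (3) with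
1/φ(m) <= (2/m) sum_{d|m} 1/d, as (1-1/p)(1+1/p) = 1-1/p^2 and the product of 1-1/p^2 is at least
1/2, sum_{m<=Q} 1/φ(m) <= 2 sum_d 1/d^2 sum_k 1/k <= 4 (1+log Q).
(4) m/φ(m) <= 1 + log m/log 2 as the product of p/(p-1) over the omega(m) primes of m is
<= omega(m)+1 <= 1 + log m/log 2 <= 3 log(m+2).
-/

open Finset

namespace Pool.Agent.Lib.BV

private lemma sum_le_of_inj {α β : Type*} [DecidableEq β] {s : Finset α} {t : Finset β}
    (f : α → β) (g : β → ℝ) (hinj : Set.InjOn f s) (hmap : ∀ a ∈ s, f a ∈ t)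
    (hg : ∀ b ∈ t, 0 ≤ g b) : ∑ a ∈ s, g (f a) ≤ ∑ b ∈ t, g b := by
  rw [← Finset.sum_image (f := g) (s := s) (g := f) (by
    intro x hx y hy hxy
    exact hinj hx hy hxy)]
  apply Finset.sum_le_sum_of_subset_of_nonneg
  · intro b hb
    obtain ⟨a, ha, rfl⟩ := Finset.mem_image.mp hb
    exact hmap a ha
  · intro b hb _
    exact hg b hb

private lemma sum_inv_le (K : ℕ) : ∑ k ∈ Icc 1 K, (1:ℝ) / k ≤ 1 + Real.log K := by
  have h := harmonic_le_one_add_log K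
  rw [harmonic_eq_sum_Icc] at h
  push_cast at h
  simpa [one_div] using h

private lemma sum_inv_sq_le (K : ℕ) : ∑ k ∈ Icc 1 K, (1:ℝ) / (k:ℝ)^2 ≤ 2 := by
  have h := sum_Ioo_inv_sq_le (α := ℝ) 0 (K+1)
  have h1 : Ioo 0 (K+1) = Icc 1 K := by
    ext x
    simp only [mem_Ioo, mem_Icc]
    omega
  rw [h1] at h
  simpa [one_div] using h

private lemma sum_prod_mul {α β : Type*} (s : Finset α) (t : Finset β) (F : α → ℝ) (G : β → ℝ) :
    ∑ x ∈ s ×ˢ t, F x.1 * G x.2 = (∑ a ∈ s, F a) * ∑ b ∈ t, G b := by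
  rw [Finset.sum_mul_sum, Finset.sum_product]

theorem sum_tau_sq_div (X : ℕ) (hX : 1 ≤ X) :
    ∑ n ∈ Finset.Icc 1 X, ((n.divisors.card : ℝ)) ^ 2 / n ≤ (1 + Real.log X) ^ 4 := by
  have h1 : ∀ n ∈ Finset.Icc 1 X, ((n.divisors.card : ℝ)) ^ 2 / n =
      ∑ x ∈ n.divisors ×ˢ n.divisors, (1:ℝ) / n := by
    intro n _
    rw [Finset.sum_const, Finset.card_product, nsmul_eq_mul]
    push_cast
    ring
  rw [Finset.sum_congr rfl h1, Finset.sum_sigma']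
  set S := (Finset.Icc 1 X).sigma (fun n => n.divisors ×ˢ n.divisors) with hS
  set f : (Σ _ : ℕ, ℕ × ℕ) → (ℕ × ℕ) × (ℕ × ℕ) := fun y =>
    ((y.2.1.gcd y.2.2, y.2.1 / y.2.1.gcd y.2.2),
      (y.2.2 / y.2.1.gcd y.2.2, y.1 / y.2.1.lcm y.2.2)) with hf
  set g : (ℕ × ℕ) × (ℕ × ℕ) → ℝ := fun x =>
    (1 / (x.1.1:ℝ) * (1 / (x.1.2:ℝ))) * (1 / (x.2.1:ℝ) * (1 / (x.2.2:ℝ))) with hg
  have hmemS : ∀ y ∈ S, 1 ≤ y.1 ∧ y.1 ≤ X ∧ y.2.1 ∣ y.1 ∧ y.2.2 ∣ y.1 := by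
    intro y hy
    rw [hS, Finset.mem_sigma, Finset.mem_Icc, Finset.mem_product, Nat.mem_divisors,
      Nat.mem_divisors] at hy
    exact ⟨hy.1.1, hy.1.2, hy.2.1.1, hy.2.2.1⟩
  have key : ∀ y ∈ S, y.2.1.gcd y.2.2 * (y.2.1 / y.2.1.gcd y.2.2) = y.2.1 ∧
      y.2.1.gcd y.2.2 * (y.2.2 / y.2.1.gcd y.2.2) = y.2.2 ∧
      y.2.1.lcm y.2.2 * (y.1 / y.2.1.lcm y.2.2) = y.1 ∧
      (y.2.1.gcd y.2.2 * (y.2.1 / y.2.1.gcd y.2.2)) *
        ((y.2.2 / y.2.1.gcd y.2.2) * (y.1 / y.2.1.lcm y.2.2)) = y.1 := by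
    intro y hy
    obtain ⟨h0, _, hd, he⟩ := hmemS y hy
    have e1 : y.2.1.gcd y.2.2 * (y.2.1 / y.2.1.gcd y.2.2) = y.2.1 :=
      Nat.mul_div_cancel' (Nat.gcd_dvd_left _ _)
    have e2 : y.2.1.gcd y.2.2 * (y.2.2 / y.2.1.gcd y.2.2) = y.2.2 :=
      Nat.mul_div_cancel' (Nat.gcd_dvd_right _ _)
    have e3 : y.2.1.lcm y.2.2 * (y.1 / y.2.1.lcm y.2.2) = y.1 :=
      Nat.mul_div_cancel' (Nat.lcm_dvd hd he)
    refine ⟨e1, e2, e3, ?_⟩
    have hg0 : 0 < y.2.1.gcd y.2.2 := Nat.gcd_pos_of_pos_left _ (Nat.pos_of_dvd_of_pos hd h0)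
    have e4 : y.2.1.lcm y.2.2 = y.2.1 * (y.2.2 / y.2.1.gcd y.2.2) := by
      have := Nat.gcd_mul_lcm y.2.1 y.2.2
      apply Nat.eq_of_mul_eq_mul_left hg0
      rw [this]
      calc y.2.1 * y.2.2 = y.2.1 * (y.2.1.gcd y.2.2 * (y.2.2 / y.2.1.gcd y.2.2)) := by rw [e2]
        _ = _ := by ring
    rw [e1]
    calc y.2.1 * ((y.2.2 / y.2.1.gcd y.2.2) * (y.1 / y.2.1.lcm y.2.2))
        = (y.2.1 * (y.2.2 / y.2.1.gcd y.2.2)) * (y.1 / y.2.1.lcm y.2.2) := by ring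
      _ = y.1 := by rw [← e4, e3]
  have hstep : ∑ y ∈ S, (1:ℝ) / y.1 = ∑ y ∈ S, g (f y) := by
    refine Finset.sum_congr rfl fun y hy => ?_
    obtain ⟨_, _, _, e4⟩ := key y hy
    have e5 : (((y.2.1.gcd y.2.2 : ℕ) : ℝ) * ((y.2.1 / y.2.1.gcd y.2.2 : ℕ) : ℝ)) *
        (((y.2.2 / y.2.1.gcd y.2.2 : ℕ) : ℝ) * ((y.1 / y.2.1.lcm y.2.2 : ℕ) : ℝ)) = (y.1 : ℝ) := by
      exact_mod_cast e4
    show (1:ℝ) / y.1 = (1 / ((y.2.1.gcd y.2.2 : ℕ) : ℝ) * (1 / ((y.2.1 / y.2.1.gcd y.2.2 : ℕ) : ℝ))) *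
      (1 / ((y.2.2 / y.2.1.gcd y.2.2 : ℕ) : ℝ) * (1 / ((y.1 / y.2.1.lcm y.2.2 : ℕ) : ℝ)))
    rw [← e5]
    simp only [one_div, mul_inv]
  have hle : ∑ y ∈ S, g (f y) ≤
      ∑ x ∈ ((Icc 1 X) ×ˢ (Icc 1 X)) ×ˢ ((Icc 1 X) ×ˢ (Icc 1 X)), g x := by
    apply sum_le_of_inj f g
    · intro y hy z hz hyz
      obtain ⟨a1, a2, a3, a4⟩ := key y hy
      obtain ⟨b1, b2, b3, b4⟩ := key z hz
      have hyz' := hyz
      simp only [hf, Prod.mk.injEq] at hyz'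
      obtain ⟨⟨c1, c2⟩, c3, c4⟩ := hyz'
      have d1 : y.2.1 = z.2.1 := by rw [← a1, ← b1, c2, c1]
      have d2 : y.2.2 = z.2.2 := by rw [← a2, ← b2, c3, c1]
      have d3 : y.1 = z.1 := by rw [← a4, ← b4, c2, c3, c4, c1]
      obtain ⟨y1, y2, y3⟩ := y
      obtain ⟨z1, z2, z3⟩ := z
      simp only at d1 d2 d3
      subst d1 d2 d3
      rfl
    · intro y hy
      obtain ⟨h0, hX', hd, he⟩ := hmemS y hy
      obtain ⟨_, _, _, e4⟩ := key y hy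
      have hpos : 0 < (y.2.1.gcd y.2.2 * (y.2.1 / y.2.1.gcd y.2.2)) *
        ((y.2.2 / y.2.1.gcd y.2.2) * (y.1 / y.2.1.lcm y.2.2)) := by rw [e4]; exact h0
      have p1 : 0 < y.2.1.gcd y.2.2 := Nat.pos_of_ne_zero fun h => by simp [h] at hpos
      have p2 : 0 < y.2.1 / y.2.1.gcd y.2.2 := Nat.pos_of_ne_zero fun h => by simp [h] at hpos
      have p3 : 0 < y.2.2 / y.2.1.gcd y.2.2 := Nat.pos_of_ne_zero fun h => by simp [h] at hpos
      have p4 : 0 < y.1 / y.2.1.lcm y.2.2 := Nat.pos_of_ne_zero fun h => by simp [h] at hpos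
      have q1 : y.2.1.gcd y.2.2 ∣ y.1 := (Nat.gcd_dvd_left _ _).trans hd
      have q2 : y.2.1 / y.2.1.gcd y.2.2 ∣ y.1 := (Nat.div_dvd_of_dvd (Nat.gcd_dvd_left _ _)).trans hd
      have q3 : y.2.2 / y.2.1.gcd y.2.2 ∣ y.1 := (Nat.div_dvd_of_dvd (Nat.gcd_dvd_right _ _)).trans he
      have q4 : y.1 / y.2.1.lcm y.2.2 ∣ y.1 := Nat.div_dvd_of_dvd (Nat.lcm_dvd hd he)
      simp only [hf, Finset.mem_product, Finset.mem_Icc]
      exact ⟨⟨⟨p1, (Nat.le_of_dvd h0 q1).trans hX'⟩, ⟨p2, (Nat.le_of_dvd h0 q2).trans hX'⟩⟩,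
        ⟨⟨p3, (Nat.le_of_dvd h0 q3).trans hX'⟩, ⟨p4, (Nat.le_of_dvd h0 q4).trans hX'⟩⟩⟩
    · intro x _
      simp only [hg]
      positivity
  have hprod : ∑ x ∈ ((Icc 1 X) ×ˢ (Icc 1 X)) ×ˢ ((Icc 1 X) ×ˢ (Icc 1 X)), g x =
      (∑ k ∈ Icc 1 X, (1:ℝ) / k) ^ 4 := by
    have e1 := sum_prod_mul ((Icc 1 X) ×ˢ (Icc 1 X)) ((Icc 1 X) ×ˢ (Icc 1 X))
      (fun x : ℕ × ℕ => 1 / (x.1:ℝ) * (1 / (x.2:ℝ))) (fun x : ℕ × ℕ => 1 / (x.1:ℝ) * (1 / (x.2:ℝ)))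
    have e2 := sum_prod_mul (Icc 1 X) (Icc 1 X) (fun k : ℕ => 1 / (k:ℝ)) (fun k : ℕ => 1 / (k:ℝ))
    rw [hg, e1, e2]
    ring
  have hnn : 0 ≤ ∑ k ∈ Icc 1 X, (1:ℝ) / k := Finset.sum_nonneg fun _ _ => by positivity
  calc ∑ y ∈ S, (1:ℝ) / y.1 = ∑ y ∈ S, g (f y) := hstep
    _ ≤ _ := hle
    _ = (∑ k ∈ Icc 1 X, (1:ℝ) / k) ^ 4 := hprod
    _ ≤ (1 + Real.log X) ^ 4 := pow_le_pow_left₀ hnn (sum_inv_le X) 4

theorem sum_log_sq_div (X : ℕ) (hX : 1 ≤ X) :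
    ∑ n ∈ Finset.Icc 1 X, (Real.log n) ^ 2 / n ≤ (1 + Real.log X) ^ 3 := by
  have hX1 : (1:ℝ) ≤ X := by exact_mod_cast hX
  have hlX : 0 ≤ Real.log X := Real.log_nonneg hX1
  calc ∑ n ∈ Finset.Icc 1 X, (Real.log n) ^ 2 / n
      ≤ ∑ n ∈ Finset.Icc 1 X, (1 + Real.log X) ^ 2 * ((1:ℝ) / n) := by
        refine Finset.sum_le_sum fun n hn => ?_
        rw [Finset.mem_Icc] at hn
        have h1 : (1:ℝ) ≤ n := by exact_mod_cast hn.1
        have h2 : (n:ℝ) ≤ X := by exact_mod_cast hn.2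
        have h3 : 0 ≤ Real.log n := Real.log_nonneg h1
        have h4 : Real.log n ≤ Real.log X := Real.log_le_log (by linarith) h2
        have h5 : (Real.log n) ^ 2 ≤ (1 + Real.log X) ^ 2 := pow_le_pow_left₀ h3 (by linarith) 2
        rw [div_eq_mul_one_div]
        exact mul_le_mul_of_nonneg_right h5 (by positivity)
    _ = (1 + Real.log X) ^ 2 * ∑ n ∈ Finset.Icc 1 X, (1:ℝ) / n := by rw [Finset.mul_sum]
    _ ≤ (1 + Real.log X) ^ 2 * (1 + Real.log X) :=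
        mul_le_mul_of_nonneg_left (sum_inv_le X) (by positivity)
    _ = (1 + Real.log X) ^ 3 := by ring

/-- Euler's product for `φ(m) / m` -/
private lemma totient_prod (m : ℕ) :
    (m.totient : ℝ) = m * ∏ p ∈ m.primeFactors, (1 - (p : ℝ)⁻¹) := by
  have h := Nat.totient_eq_mul_prod_factors m
  have h2 : (((m.totient : ℕ) : ℚ) : ℝ) =
      ((((m : ℕ) : ℚ) * ∏ p ∈ m.primeFactors, (1 - (p : ℚ)⁻¹) : ℚ) : ℝ) := by rw [h]
  push_cast at h2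
  exact h2

private lemma two_le_of_mem {m p : ℕ} (hp : p ∈ m.primeFactors) : 2 ≤ p :=
  (Nat.prime_of_mem_primeFactors hp).two_le

/-- products of `1 - 1/k²` over `2 ≤ k ≤ n + 1` -/
private lemma prod_Icc_eq (n : ℕ) :
    ∏ k ∈ Finset.range n, (1 - (((k:ℝ) + 2) ^ 2)⁻¹) = ((n:ℝ) + 2) / (2 * (n + 1)) := by
  induction n with
  | zero => norm_num
  | succ n ih =>
    rw [Finset.prod_range_succ, ih]
    push_cast
    have h1 : ((n:ℝ) + 1) ≠ 0 := by positivity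
    have h2 : ((n:ℝ) + 2) ≠ 0 := by positivity
    have h3 : ((n:ℝ) + 1 + 1) ≠ 0 := by positivity
    field_simp
    ring

private lemma half_le_prod (s : Finset ℕ) (hs : ∀ p ∈ s, 2 ≤ p) :
    (1:ℝ) / 2 ≤ ∏ p ∈ s, (1 - ((p:ℝ) ^ 2)⁻¹) := by
  obtain ⟨n, hn⟩ : ∃ n : ℕ, ∀ p ∈ s, p < n + 2 := ⟨s.sup id, fun p hp => by
    have : p ≤ s.sup id := Finset.le_sup (f := id) hp
    omega⟩
  have hsub : s ⊆ (Finset.range n).image (fun k : ℕ => k + 2) := by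
    intro p hp
    rw [Finset.mem_image]
    exact ⟨p - 2, by rw [Finset.mem_range]; have := hn p hp; have := hs p hp; omega,
      by have := hs p hp; omega⟩
  have hfac : ∀ k : ℕ, 2 ≤ k → 0 < (1 - ((k:ℝ) ^ 2)⁻¹) ∧ (1 - ((k:ℝ) ^ 2)⁻¹) ≤ 1 := by
    intro k hk
    have hk' : (2:ℝ) ≤ k := by exact_mod_cast hk
    have h4 : (4:ℝ) ≤ (k:ℝ)^2 := by nlinarith
    have h5 : ((k:ℝ) ^ 2)⁻¹ ≤ (4:ℝ)⁻¹ := inv_anti₀ (by norm_num) h4
    have h6 : (0:ℝ) ≤ ((k:ℝ) ^ 2)⁻¹ := by positivity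
    constructor
    · norm_num at h5
      linarith
    · linarith
  have h1 : ∏ p ∈ (Finset.range n).image (fun k : ℕ => k + 2), (1 - (((p : ℕ) : ℝ) ^ 2)⁻¹) ≤
      ∏ p ∈ s, (1 - ((p:ℝ) ^ 2)⁻¹) := by
    rw [← Finset.prod_sdiff hsub]
    have h2 : ∏ p ∈ ((Finset.range n).image (fun k : ℕ => k + 2)) \ s,
        (1 - (((p : ℕ) : ℝ) ^ 2)⁻¹) ≤ 1 := by
      apply Finset.prod_le_one
      · intro p hp
        rw [Finset.mem_sdiff, Finset.mem_image] at hp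
        obtain ⟨⟨k, _, rfl⟩, _⟩ := hp
        exact (hfac (k + 2) (by omega)).1.le
      · intro p hp
        rw [Finset.mem_sdiff, Finset.mem_image] at hp
        obtain ⟨⟨k, _, rfl⟩, _⟩ := hp
        exact (hfac (k + 2) (by omega)).2
    have h3 : 0 ≤ ∏ p ∈ s, (1 - ((p:ℝ) ^ 2)⁻¹) :=
      Finset.prod_nonneg fun p hp => (hfac p (hs p hp)).1.le
    calc _ ≤ 1 * ∏ p ∈ s, (1 - ((p:ℝ) ^ 2)⁻¹) := mul_le_mul_of_nonneg_right h2 h3
      _ = _ := one_mul _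
  refine le_trans ?_ h1
  rw [Finset.prod_image (by intro a _ b _ hab; simpa using hab)]
  have h2 := prod_Icc_eq n
  have h3 : ∏ k ∈ Finset.range n, (1 - (((k + 2 : ℕ) : ℝ) ^ 2)⁻¹) =
      ∏ k ∈ Finset.range n, (1 - (((k:ℝ) + 2) ^ 2)⁻¹) := by
    refine Finset.prod_congr rfl fun k _ => ?_
    push_cast
    rfl
  rw [h3, h2, div_le_div_iff₀ (by norm_num) (by positivity)]
  linarith

/-- `m / φ(m) ≤ 2 ∑_{d ∣ m} 1/d` -/
private lemma inv_totient_le_sum (m : ℕ) (hm : 1 ≤ m) :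
    1 / (m.totient : ℝ) ≤ 2 * ∑ d ∈ m.divisors, 1 / ((m:ℝ) * d) := by
  have hm0 : (0:ℝ) < m := by exact_mod_cast hm
  set A := ∏ p ∈ m.primeFactors, (1 - (p : ℝ)⁻¹) with hA
  set B := ∏ p ∈ m.primeFactors, (1 + (p : ℝ)⁻¹) with hB
  have hApos : 0 < A := by
    apply Finset.prod_pos
    intro p hp
    have h2 : (2:ℝ) ≤ p := by exact_mod_cast two_le_of_mem hp
    have h3 : (p:ℝ)⁻¹ ≤ (2:ℝ)⁻¹ := inv_anti₀ (by norm_num) h2
    norm_num at h3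
    linarith
  have hAB : (1:ℝ) / 2 ≤ A * B := by
    rw [hA, hB, ← Finset.prod_mul_distrib]
    have h1 := half_le_prod m.primeFactors (fun p hp => two_le_of_mem hp)
    refine h1.trans (le_of_eq ?_)
    refine Finset.prod_congr rfl fun p _ => ?_
    rw [← inv_pow]
    ring
  have hBle : B ≤ ∑ d ∈ m.divisors, 1 / (d:ℝ) := by
    rw [hB, Finset.prod_one_add]
    have h1 : ∀ t ∈ m.primeFactors.powerset, ∏ p ∈ t, (p:ℝ)⁻¹ =
        (fun d : ℕ => 1 / (d:ℝ)) (∏ p ∈ t, p) := by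
      intro t _
      simp only [one_div, Nat.cast_prod, Finset.prod_inv_distrib]
    rw [Finset.sum_congr rfl h1]
    apply sum_le_of_inj (fun t : Finset ℕ => ∏ p ∈ t, p) (fun d : ℕ => 1 / (d:ℝ))
    · intro t ht u hu htu
      have ht' : t ⊆ m.primeFactors := Finset.mem_powerset.mp ht
      have hu' : u ⊆ m.primeFactors := Finset.mem_powerset.mp hu
      have e1 := Nat.primeFactors_prod (s := t) (fun p hp => Nat.prime_of_mem_primeFactors (ht' hp))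
      have e2 := Nat.primeFactors_prod (s := u) (fun p hp => Nat.prime_of_mem_primeFactors (hu' hp))
      simp only at htu
      rw [← e1, ← e2, htu]
    · intro t ht
      have ht' : t ⊆ m.primeFactors := Finset.mem_powerset.mp ht
      rw [Nat.mem_divisors]
      exact ⟨(Finset.prod_dvd_prod_of_subset _ _ _ ht').trans (Nat.prod_primeFactors_dvd m),
        by omega⟩
    · intro d _
      positivity
  have h1 : 1 / (m.totient : ℝ) = 1 / (m * A) := by rw [totient_prod m]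
  have h2 : 1 / (m * A) ≤ 2 * (B / m) := by
    rw [div_le_iff₀ (by positivity)]
    have : 2 * (B / m) * (m * A) = 2 * (A * B) := by
      field_simp
    rw [this]
    linarith
  rw [h1]
  refine h2.trans ?_
  have h3 : ∑ d ∈ m.divisors, 1 / ((m:ℝ) * d) = (∑ d ∈ m.divisors, 1 / (d:ℝ)) / m := by
    rw [Finset.sum_div]
    refine Finset.sum_congr rfl fun d _ => ?_
    rw [div_div, mul_comm]
  rw [h3]
  have h4 : B / m ≤ (∑ d ∈ m.divisors, 1 / (d:ℝ)) / m :=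
    div_le_div_of_nonneg_right hBle hm0.le
  linarith

theorem sum_inv_totient : ∃ C : ℝ, 0 < C ∧ ∀ Q : ℕ, 1 ≤ Q →
    ∑ m ∈ Finset.Icc 1 Q, 1 / (m.totient : ℝ) ≤ C * (1 + Real.log Q) := by
  refine ⟨4, by norm_num, fun Q hQ => ?_⟩
  have h1 : ∑ m ∈ Finset.Icc 1 Q, 1 / (m.totient : ℝ) ≤
      ∑ m ∈ Finset.Icc 1 Q, 2 * ∑ d ∈ m.divisors, 1 / ((m:ℝ) * d) :=
    Finset.sum_le_sum fun m hm => inv_totient_le_sum m (Finset.mem_Icc.mp hm).1
  rw [← Finset.mul_sum, Finset.sum_sigma'] at h1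
  set S := (Finset.Icc 1 Q).sigma (fun m => m.divisors) with hS
  set f : (Σ _ : ℕ, ℕ) → ℕ × ℕ := fun y => (y.2, y.1 / y.2) with hf
  set g : ℕ × ℕ → ℝ := fun x => 1 / ((x.1:ℝ) ^ 2) * (1 / (x.2:ℝ)) with hg
  have hmem : ∀ y ∈ S, 1 ≤ y.1 ∧ y.1 ≤ Q ∧ y.2 ∣ y.1 := by
    intro y hy
    rw [hS, Finset.mem_sigma, Finset.mem_Icc, Nat.mem_divisors] at hy
    exact ⟨hy.1.1, hy.1.2, hy.2.1⟩
  have h2 : ∑ y ∈ S, 1 / ((y.1:ℝ) * y.2) = ∑ y ∈ S, g (f y) := by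
    refine Finset.sum_congr rfl fun y hy => ?_
    obtain ⟨_, _, hd⟩ := hmem y hy
    have e1 : y.2 * (y.1 / y.2) = y.1 := Nat.mul_div_cancel' hd
    have e2 : (y.2 : ℝ) * ((y.1 / y.2 : ℕ) : ℝ) = y.1 := by exact_mod_cast e1
    show 1 / ((y.1:ℝ) * y.2) = 1 / ((y.2:ℝ) ^ 2) * (1 / ((y.1 / y.2 : ℕ) : ℝ))
    rw [← e2]
    simp only [one_div, mul_inv]
    ring
  have h3 : ∑ y ∈ S, g (f y) ≤ ∑ x ∈ (Icc 1 Q) ×ˢ (Icc 1 Q), g x := by
    apply sum_le_of_inj f g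
    · intro y hy z hz hyz
      obtain ⟨_, _, hd⟩ := hmem y hy
      obtain ⟨_, _, hd'⟩ := hmem z hz
      have e1 : y.2 * (y.1 / y.2) = y.1 := Nat.mul_div_cancel' hd
      have e2 : z.2 * (z.1 / z.2) = z.1 := Nat.mul_div_cancel' hd'
      have hyz' := hyz
      simp only [hf, Prod.mk.injEq] at hyz'
      obtain ⟨c1, c2⟩ := hyz'
      have d3 : y.1 = z.1 := by rw [← e1, ← e2, c2, c1]
      obtain ⟨y1, y2⟩ := y
      obtain ⟨z1, z2⟩ := z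
      simp only at c1 d3
      subst c1 d3
      rfl
    · intro y hy
      obtain ⟨h0, hQ', hd⟩ := hmem y hy
      simp only [hf, Finset.mem_product, Finset.mem_Icc]
      have p1 : 0 < y.2 := Nat.pos_of_dvd_of_pos hd h0
      exact ⟨⟨p1, (Nat.le_of_dvd h0 hd).trans hQ'⟩,
        ⟨Nat.div_pos (Nat.le_of_dvd h0 hd) p1, (Nat.div_le_self _ _).trans hQ'⟩⟩
    · intro x _
      simp only [hg]
      positivity
  have h4 : ∑ x ∈ (Icc 1 Q) ×ˢ (Icc 1 Q), g x =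
      (∑ d ∈ Icc 1 Q, 1 / (d:ℝ) ^ 2) * ∑ k ∈ Icc 1 Q, (1:ℝ) / k := by
    have := sum_prod_mul (Icc 1 Q) (Icc 1 Q) (fun d : ℕ => 1 / (d:ℝ) ^ 2) (fun k : ℕ => 1 / (k:ℝ))
    rw [hg, this]
  have h5 : (∑ d ∈ Icc 1 Q, 1 / (d:ℝ) ^ 2) * ∑ k ∈ Icc 1 Q, (1:ℝ) / k ≤
      2 * (1 + Real.log Q) := by
    apply mul_le_mul (sum_inv_sq_le Q) (sum_inv_le Q)
    · exact Finset.sum_nonneg fun _ _ => by positivity
    · norm_num
  calc ∑ m ∈ Finset.Icc 1 Q, 1 / (m.totient : ℝ) ≤ 2 * ∑ y ∈ S, 1 / ((y.1:ℝ) * y.2) := h1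
    _ ≤ 2 * (2 * (1 + Real.log Q)) := by
        rw [h2]
        have := h3.trans (h4.le.trans h5)
        linarith
    _ = 4 * (1 + Real.log Q) := by ring

private lemma prod_le_card (s : Finset ℕ) (hs : ∀ p ∈ s, 2 ≤ p) :
    ∏ p ∈ s, (1 - (p:ℝ)⁻¹)⁻¹ ≤ s.card + 1 := by
  induction s using Finset.induction_on_max with
  | empty => simp
  | insert a t hmax ih =>
    have hat : a ∉ t := fun h => lt_irrefl _ (hmax a h)
    rw [Finset.prod_insert hat, Finset.card_insert_of_notMem hat]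
    have ih' := ih (fun p hp => hs p (Finset.mem_insert_of_mem hp))
    have ha2 : 2 ≤ a := hs a (Finset.mem_insert_self _ _)
    have hcard : t.card + 2 ≤ a := by
      have hsub : t ⊆ Finset.Ico 2 a := by
        intro p hp
        rw [Finset.mem_Ico]
        exact ⟨hs p (Finset.mem_insert_of_mem hp), hmax p hp⟩
      have := Finset.card_le_card hsub
      rw [Nat.card_Ico] at this
      omega
    have hcardR : (t.card : ℝ) + 2 ≤ a := by exact_mod_cast hcard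
    have ha : (0:ℝ) < a := by positivity
    have ha1 : (0:ℝ) < a - 1 := by
      have : (0:ℝ) ≤ t.card := Nat.cast_nonneg _
      linarith
    have e1 : (1 - (a:ℝ)⁻¹)⁻¹ = a / (a - 1) := by
      have h : (1 - (a:ℝ)⁻¹) = (a - 1) / a := by
        field_simp
      rw [h, inv_div]
    have e2 : (a:ℝ) / (a - 1) ≤ (t.card + 2) / (t.card + 1) := by
      rw [div_le_div_iff₀ ha1 (by positivity)]
      nlinarith
    have hpos : 0 ≤ ∏ p ∈ t, (1 - (p:ℝ)⁻¹)⁻¹ := by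
      apply Finset.prod_nonneg
      intro p hp
      have h2 : (2:ℝ) ≤ p := by exact_mod_cast hs p (Finset.mem_insert_of_mem hp)
      have h3 : (p:ℝ)⁻¹ ≤ (2:ℝ)⁻¹ := inv_anti₀ (by norm_num) h2
      norm_num at h3
      apply inv_nonneg.mpr
      linarith
    rw [e1]
    calc (a:ℝ) / (a - 1) * ∏ p ∈ t, (1 - (p:ℝ)⁻¹)⁻¹
        ≤ (t.card + 2) / (t.card + 1) * (t.card + 1) :=
          mul_le_mul e2 ih' hpos (by positivity)
      _ = ((t.card + 1 : ℕ) : ℝ) + 1 := by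
          push_cast
          field_simp
          ring

theorem inv_totient_le (m : ℕ) (hm : 1 ≤ m) :
    1 / (m.totient : ℝ) ≤ 3 * Real.log (m + 2) / m := by
  have hm0 : (0:ℝ) < m := by exact_mod_cast hm
  have hm1 : (1:ℝ) ≤ m := by exact_mod_cast hm
  have h1 : 1 / (m.totient : ℝ) = (∏ p ∈ m.primeFactors, (1 - (p:ℝ)⁻¹)⁻¹) / m := by
    rw [totient_prod m, Finset.prod_inv_distrib, one_div, mul_inv]
    field_simp
  have h2 := prod_le_card m.primeFactors (fun p hp => two_le_of_mem hp)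
  have h3 : 2 ^ m.primeFactors.card ≤ m := by
    have e1 : 2 ^ m.primeFactors.card ≤ ∏ p ∈ m.primeFactors, p :=
      Finset.pow_card_le_prod _ _ _ (fun p hp => two_le_of_mem hp)
    exact e1.trans (Nat.le_of_dvd (by omega) (Nat.prod_primeFactors_dvd m))
  have h3' : ((2:ℝ)) ^ m.primeFactors.card ≤ m := by exact_mod_cast h3
  have h4 : (m.primeFactors.card : ℝ) * Real.log 2 ≤ Real.log m := by
    rw [← Real.log_pow]
    exact Real.log_le_log (by positivity) h3'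
  have hlog2 : (0.6931471803 : ℝ) < Real.log 2 := Real.log_two_gt_d9
  have h5 : Real.log m ≤ Real.log (m + 2) := Real.log_le_log hm0 (by linarith)
  have h6 : 1 ≤ Real.log (m + 2) := by
    rw [Real.le_log_iff_exp_le (by positivity)]
    have := Real.exp_one_lt_d9
    linarith
  have h7 : (m.primeFactors.card : ℝ) ≤ 2 * Real.log (m + 2) := by
    have e0 : (0:ℝ) ≤ m.primeFactors.card := Nat.cast_nonneg _
    nlinarith
  rw [h1]
  apply div_le_div_of_nonneg_right _ hm0.le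
  linarith

end Pool.Agent.Lib.BV
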