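import Pool.Agent.Lib.BV.Defs
import Pool.Agent.Lib.BV.TauSum

/-!
# Large conductors

1/φ(q) <= 3 log(q+2)/q (inv_totient_le) <= 3 log(Q+2)/Q0 for Q0 < q <= Q, so primSum over q > Q0 of
G/φ(q) <= (3 log(Q+2)/Q0) primSum Q G.
-/

namespace Pool.Agent.Lib.BV

theorem large_cond (Q Q0 : ℕ) (hQ0 : 1 ≤ Q0) (G : (q : ℕ) → DirichletCharacter ℂ q → ℝ)
    (hG : ∀ q χ, 0 ≤ G q χ) :
    primSum Q (fun q χ => if q ≤ Q0 then 0 else G q χ / q.totient) ≤
      3 * Real.log (Q + 2) / Q0 * primSum Q G := by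
  have hQ0' : (0:ℝ) < Q0 := by exact_mod_cast hQ0
  have hlogQ : 0 ≤ Real.log (Q + 2) := Real.log_nonneg (by
    have : (0:ℝ) ≤ Q := Nat.cast_nonneg Q
    linarith)
  unfold primSum
  rw [Finset.mul_sum]
  refine Finset.sum_le_sum fun q hq => ?_
  rw [Finset.mem_range] at hq
  rw [Finset.mul_sum]
  refine Finset.sum_le_sum fun χ _ => ?_
  have hc : 0 ≤ 3 * Real.log (Q + 2) / Q0 := by positivity
  beta_reduce
  by_cases hprim : χ.IsPrimitive
  · rw [if_pos hprim, if_pos hprim]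
    by_cases h1 : q + 1 ≤ Q0
    · rw [if_pos h1]
      exact mul_nonneg hc (hG _ _)
    · rw [if_neg h1]
      have h3 : (1:ℝ) / ((q + 1).totient) ≤ 3 * Real.log (Q + 2) / Q0 := by
        have h4 := inv_totient_le (q + 1) (by omega)
        refine h4.trans ?_
        have hq1 : (Q0:ℝ) ≤ ((q + 1 : ℕ) : ℝ) := by exact_mod_cast (by omega)
        have hq2 : ((q + 1 : ℕ) : ℝ) ≤ Q := by exact_mod_cast (by omega)
        apply div_le_div₀ (by positivity) _ hQ0' hq1
        apply mul_le_mul_of_nonneg_left _ (by norm_num)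
        apply Real.log_le_log (by positivity)
        linarith
      calc G (q + 1) χ / ((q + 1).totient) = (1 / ((q + 1).totient : ℝ)) * G (q + 1) χ := by ring
        _ ≤ 3 * Real.log (Q + 2) / Q0 * G (q + 1) χ := mul_le_mul_of_nonneg_right h3 (hG _ _)
  · rw [if_neg hprim, if_neg hprim, mul_zero]

end Pool.Agent.Lib.BV
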