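import Pool.Agent.Lib.BV.Defs

/-!
# Induced characters

PROOF SKETCH. χ(n) = χ*(n) for n coprime to q (changeLevel_primitiveCharacter), and both have norm
<= 1; the difference of the sums is over n = p^j with p | q, so it is at most
y sum_{p | q} log p * (number of j >= 1 with p^j <= y) <= y * omega(q) * log y
<= y log y (log q / log 2) <= 2 y log y log q. (For y < 2 both sides vanish or the sum is empty of
prime powers.) A convenient way: sum_{n<=y, n not coprime to q} Λ(n) <= omega(q) log y.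
-/

open Complex

namespace Pool.Agent.Lib.BV

open Pool.Agent.Lib.SW

lemma card_primeFactors_le_log (q : ℕ) (hq : 1 ≤ q) :
    (q.primeFactors.card : ℝ) ≤ 2 * Real.log q := by
  have h1 : 2 ^ q.primeFactors.card ≤ q := by
    calc 2 ^ q.primeFactors.card ≤ ∏ p ∈ q.primeFactors, p :=
          Finset.pow_card_le_prod _ _ _ fun p hp => (Nat.prime_of_mem_primeFactors hp).two_le
      _ ≤ q := Nat.le_of_dvd (by omega) (Nat.prod_primeFactors_dvd q)
  have h2 : ((2:ℝ) ^ q.primeFactors.card) ≤ q := by exact_mod_cast h1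
  have h3 := Real.log_le_log (by positivity) h2
  rw [Real.log_pow] at h3
  have h4 : (1:ℝ)/2 ≤ Real.log 2 := by linarith [Real.log_two_gt_d9]
  have h5 : (q.primeFactors.card : ℝ) * (1/2) ≤ (q.primeFactors.card : ℝ) * Real.log 2 :=
    mul_le_mul_of_nonneg_left h4 (Nat.cast_nonneg _)
  linarith

/-- The von Mangoldt function summed over the integers not coprime to `q`. -/
theorem sum_vonMangoldt_not_coprime (q : ℕ) (hq : 1 ≤ q) (y : ℝ) (hy : 1 ≤ y) :
    ∑ n ∈ (Finset.Icc 1 ⌊y⌋₊).filter (fun n => ¬ Nat.Coprime n q),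
      ArithmeticFunction.vonMangoldt n ≤ 2 * Real.log q * Real.log y := by
  classical
  have hN : 1 ≤ ⌊y⌋₊ := Nat.le_floor (by simpa using hy)
  have hly : 0 ≤ Real.log y := Real.log_nonneg hy
  have h1 : ∑ n ∈ (Finset.Icc 1 ⌊y⌋₊).filter (fun n => ¬ n.Coprime q),
      ArithmeticFunction.vonMangoldt n =
      ∑ n ∈ ((Finset.Icc 1 ⌊y⌋₊).filter (fun n => ¬ n.Coprime q)).filter (fun n => IsPrimePow n),
      ArithmeticFunction.vonMangoldt n := by
    refine (Finset.sum_filter_of_ne ?_).symm
    intro n _ hn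
    exact ArithmeticFunction.vonMangoldt_ne_zero_iff.1 hn
  rw [h1]
  have hmem : ∀ n ∈ ((Finset.Icc 1 ⌊y⌋₊).filter (fun n => ¬ n.Coprime q)).filter
      (fun n => IsPrimePow n), n.minFac ∈ q.primeFactors := by
    intro n hn
    simp only [Finset.mem_filter, Finset.mem_Icc] at hn
    obtain ⟨⟨⟨hn1, hn2⟩, hnq⟩, hpp⟩ := hn
    rw [isPrimePow_nat_iff] at hpp
    obtain ⟨p, k, hp, hk, rfl⟩ := hpp
    rw [hp.pow_minFac hk.ne', Nat.mem_primeFactors]
    refine ⟨hp, ?_, by omega⟩
    have : ¬ p.Coprime q := fun h => hnq (h.pow_left k)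
    rwa [hp.coprime_iff_not_dvd, not_not] at this
  rw [← Finset.sum_fiberwise_of_maps_to hmem]
  have hfib : ∀ p ∈ q.primeFactors,
      ∑ n ∈ (((Finset.Icc 1 ⌊y⌋₊).filter (fun n => ¬ n.Coprime q)).filter
        (fun n => IsPrimePow n)).filter (fun n => n.minFac = p),
        ArithmeticFunction.vonMangoldt n ≤ Real.log y := by
    intro p hp
    have hpp := Nat.prime_of_mem_primeFactors hp
    have hlp : 0 ≤ Real.log p := Real.log_natCast_nonneg p
    have hsub : (((Finset.Icc 1 ⌊y⌋₊).filter (fun n => ¬ n.Coprime q)).filter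
        (fun n => IsPrimePow n)).filter (fun n => n.minFac = p) ⊆
        (Finset.Icc 1 (Nat.log p ⌊y⌋₊)).image (fun k => p ^ k) := by
      intro n hn
      simp only [Finset.mem_filter, Finset.mem_Icc] at hn
      obtain ⟨⟨⟨⟨hn1, hn2⟩, hnq⟩, hpw⟩, hm⟩ := hn
      rw [isPrimePow_nat_iff] at hpw
      obtain ⟨p', k, hp', hk, rfl⟩ := hpw
      rw [hp'.pow_minFac hk.ne'] at hm
      subst hm
      simp only [Finset.mem_image, Finset.mem_Icc]
      exact ⟨k, ⟨hk, Nat.le_log_of_pow_le hp'.one_lt hn2⟩, rfl⟩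
    have hcard : ((((Finset.Icc 1 ⌊y⌋₊).filter (fun n => ¬ n.Coprime q)).filter
        (fun n => IsPrimePow n)).filter (fun n => n.minFac = p)).card ≤ Nat.log p ⌊y⌋₊ := by
      refine (Finset.card_le_card hsub).trans (Finset.card_image_le.trans ?_)
      rw [Nat.card_Icc]; simp
    calc ∑ n ∈ (((Finset.Icc 1 ⌊y⌋₊).filter (fun n => ¬ n.Coprime q)).filter
        (fun n => IsPrimePow n)).filter (fun n => n.minFac = p),
        ArithmeticFunction.vonMangoldt n
        = ∑ n ∈ (((Finset.Icc 1 ⌊y⌋₊).filter (fun n => ¬ n.Coprime q)).filter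
        (fun n => IsPrimePow n)).filter (fun n => n.minFac = p), Real.log p := by
          apply Finset.sum_congr rfl
          intro n hn
          simp only [Finset.mem_filter] at hn
          rw [ArithmeticFunction.vonMangoldt_apply, if_pos hn.1.2, hn.2]
      _ = ((((Finset.Icc 1 ⌊y⌋₊).filter (fun n => ¬ n.Coprime q)).filter
        (fun n => IsPrimePow n)).filter (fun n => n.minFac = p)).card * Real.log p := by
          rw [Finset.sum_const, nsmul_eq_mul]
      _ ≤ (Nat.log p ⌊y⌋₊ : ℝ) * Real.log p := by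
          apply mul_le_mul_of_nonneg_right _ hlp
          exact_mod_cast hcard
      _ = Real.log ((p : ℝ) ^ (Nat.log p ⌊y⌋₊)) := by rw [Real.log_pow]
      _ ≤ Real.log y := by
          apply Real.log_le_log
          · have := hpp.pos; positivity
          · have h6 : p ^ (Nat.log p ⌊y⌋₊) ≤ ⌊y⌋₊ := Nat.pow_log_le_self p (by omega)
            calc (p:ℝ) ^ (Nat.log p ⌊y⌋₊) ≤ (⌊y⌋₊ : ℝ) := by exact_mod_cast h6
              _ ≤ y := Nat.floor_le (by linarith)
  refine (Finset.sum_le_sum hfib).trans ?_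
  rw [Finset.sum_const, nsmul_eq_mul]
  exact mul_le_mul_of_nonneg_right (card_primeFactors_le_log q hq) hly

theorem RS_induced {q : ℕ} [NeZero q] (χ : DirichletCharacter ℂ q) (y : ℝ) (hy : 1 ≤ y) :
    ‖RS (lam (chf χ)) y - RS (lam (chf χ.primitiveCharacter)) y‖ ≤
      4 * y * Real.log y * Real.log q := by
  classical
  have hq : 1 ≤ q := Nat.one_le_iff_ne_zero.2 (NeZero.ne q)
  have hterm : ∀ n ∈ Finset.Icc 1 ⌊y⌋₊, ‖lam (chf χ) n * ((y - n : ℝ) : ℂ) -
      lam (chf χ.primitiveCharacter) n * ((y - n : ℝ) : ℂ)‖ ≤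
      if ¬ n.Coprime q then 2 * y * ArithmeticFunction.vonMangoldt n else 0 := by
    intro n hn
    rw [Finset.mem_Icc] at hn
    have hny : (n:ℝ) ≤ y := (Nat.le_floor_iff (by linarith)).1 hn.2
    have hL := ArithmeticFunction.vonMangoldt_nonneg (n := n)
    rw [← sub_mul, lam, lam, ← sub_mul]
    by_cases hc : n.Coprime q
    · rw [if_neg (not_not.2 hc)]
      have h1 : chf χ.primitiveCharacter n = chf χ n := by
        have := χ.primitiveCharacter_apply_of_isCoprime (a := (n : ℤ))
          (Nat.isCoprime_iff_coprime.2 hc)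
        simpa [chf] using this
      rw [h1]; simp
    · rw [if_pos hc, norm_mul, norm_mul, Complex.norm_real, Complex.norm_real,
        Real.norm_of_nonneg hL, Real.norm_of_nonneg (by linarith)]
      have h2 : ‖chf χ n - chf χ.primitiveCharacter n‖ ≤ 2 := by
        calc ‖chf χ n - chf χ.primitiveCharacter n‖ ≤ ‖chf χ n‖ + ‖chf χ.primitiveCharacter n‖ :=
              norm_sub_le _ _
          _ ≤ 1 + 1 := add_le_add (norm_chf_le _ _) (norm_chf_le _ _)
          _ = 2 := by norm_num
      calc ‖chf χ n - chf χ.primitiveCharacter n‖ * ArithmeticFunction.vonMangoldt n * (y - n)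
          ≤ 2 * ArithmeticFunction.vonMangoldt n * y := by
            apply mul_le_mul _ _ (by linarith) (by positivity)
            · exact mul_le_mul_of_nonneg_right h2 hL
            · have : (0:ℝ) ≤ n := Nat.cast_nonneg n
              linarith
        _ = _ := by ring
  have h1 : RS (lam (chf χ)) y - RS (lam (chf χ.primitiveCharacter)) y =
      ∑ n ∈ Finset.Icc 1 ⌊y⌋₊, (lam (chf χ) n * ((y - n : ℝ) : ℂ) -
      lam (chf χ.primitiveCharacter) n * ((y - n : ℝ) : ℂ)) := by
    rw [RS, RS, Finset.sum_sub_distrib]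
  rw [h1]
  refine (norm_sum_le _ _).trans ((Finset.sum_le_sum hterm).trans ?_)
  rw [← Finset.sum_filter, ← Finset.mul_sum]
  calc 2 * y * ∑ n ∈ (Finset.Icc 1 ⌊y⌋₊).filter (fun n => ¬ n.Coprime q),
        ArithmeticFunction.vonMangoldt n
      ≤ 2 * y * (2 * Real.log q * Real.log y) :=
        mul_le_mul_of_nonneg_left (sum_vonMangoldt_not_coprime q hq y hy) (by linarith)
    _ = _ := by ring

end Pool.Agent.Lib.BV
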