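import Pool.Agent.Lib.BV.Induced
import Pool.Agent.Lib.SW.PsiChi

/-!
# Small conductors and the principal character (Siegel-Walfisz)

PROOF SKETCH. RS f y = int_0^y (sum_{n<=u} f n) du, or by summation by parts
RS f y = sum_{k < y} (sum_{n<=k} f n) * (min(k+1,y) - k). For k <= sqrt x use the trivial bound
|sum_{n<=k} f n| <= k log k, total <= x log x... (at most sqrt x * sqrt x log x), for k > sqrt x
psi_chi_bound with ε = 1 and exponent k: C q k/(log k)^k <= C q x 2^k/(log x)^k. So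
|RS| <= C q x^2/(log x)^k. RS_principal: the same with psi_bound (|sum_{n<=u} Λ - u|), and
int_0^y u du = y^2/2.
-/

open Complex

namespace Pool.Agent.Lib.BV

open Pool.Agent.Lib.SW

/-- summation by parts -/
private lemma sc_parts (f : ℕ → ℂ) (y : ℝ) (M : ℕ) :
    ∑ n ∈ Finset.Icc 1 M, f n * ((y - n : ℝ) : ℂ) =
      (∑ n ∈ Finset.Icc 1 M, f n) * ((y - M : ℝ) : ℂ) +
        ∑ j ∈ Finset.range M, ∑ n ∈ Finset.Icc 1 j, f n := by
  induction M with
  | zero => simp
  | succ M ih =>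
    rw [Finset.sum_Icc_succ_top (by omega), Finset.sum_Icc_succ_top (by omega),
      Finset.sum_range_succ, ih]
    push_cast
    ring

private lemma sc_RS_le (f : ℕ → ℂ) {y B : ℝ} (hy : 1 ≤ y) (hB : 0 ≤ B)
    (h : ∀ j : ℕ, 1 ≤ j → (j:ℝ) ≤ y → ‖∑ n ∈ Finset.Icc 1 j, f n‖ ≤ B) : ‖RS f y‖ ≤ B * y := by
  have hy0 : 0 ≤ y := by linarith
  set M := ⌊y⌋₊ with hM
  have hMy : (M:ℝ) ≤ y := Nat.floor_le hy0
  have h' : ∀ j : ℕ, (j:ℝ) ≤ y → ‖∑ n ∈ Finset.Icc 1 j, f n‖ ≤ B := by
    intro j hj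
    rcases Nat.eq_zero_or_pos j with rfl | hj0
    · simpa using hB
    · exact h j hj0 hj
  unfold RS
  rw [← hM, sc_parts]
  refine (norm_add_le _ _).trans ?_
  have h1 : ‖(∑ n ∈ Finset.Icc 1 M, f n) * ((y - M : ℝ) : ℂ)‖ ≤ B * (y - M) := by
    rw [norm_mul, Complex.norm_real, Real.norm_eq_abs, abs_of_nonneg (by linarith)]
    exact mul_le_mul_of_nonneg_right (h' M hMy) (by linarith)
  have h2 : ‖∑ j ∈ Finset.range M, ∑ n ∈ Finset.Icc 1 j, f n‖ ≤ M * B := by
    refine (norm_sum_le _ _).trans ?_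
    calc ∑ j ∈ Finset.range M, ‖∑ n ∈ Finset.Icc 1 j, f n‖ ≤ ∑ _j ∈ Finset.range M, B := by
          refine Finset.sum_le_sum fun j hj => h' j ?_
          rw [Finset.mem_range] at hj
          have : (j:ℝ) ≤ M := by exact_mod_cast hj.le
          linarith
      _ = M * B := by rw [Finset.sum_const, Finset.card_range, nsmul_eq_mul]
  nlinarith only [h1, h2]

private lemma sc_log_pow (m : ℕ) : ∃ D : ℝ, 0 < D ∧ ∀ x : ℝ, 1 ≤ x →
    (Real.log x) ^ m ≤ D * Real.sqrt x := by
  refine ⟨(2 * m + 2) ^ m, by positivity, fun x hx => ?_⟩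
  have hx0 : 0 ≤ x := by linarith
  set e : ℝ := 1 / (2 * m + 2) with he
  have he0 : 0 < e := by positivity
  have h1 : Real.log x ≤ x ^ e / e := Real.log_le_rpow_div hx0 he0
  have h2 : (Real.log x) ^ m ≤ (x ^ e / e) ^ m :=
    pow_le_pow_left₀ (Real.log_nonneg hx) h1 m
  refine h2.trans ?_
  have h3 : (x ^ e / e) ^ m = (2 * m + 2) ^ m * x ^ (e * m) := by
    rw [div_pow, ← Real.rpow_natCast (x ^ e) m, ← Real.rpow_mul hx0, he, one_div, inv_pow,
      div_inv_eq_mul]
    ring
  rw [h3, Real.sqrt_eq_rpow]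
  refine mul_le_mul_of_nonneg_left ?_ (by positivity)
  refine Real.rpow_le_rpow_of_exponent_le hx ?_
  rw [he, one_div, inv_mul_le_iff₀ (by positivity)]
  linarith

private lemma sc_log_ge {x : ℝ} (hx : 3 ≤ x) : 1 ≤ Real.log x := by
  rw [Real.le_log_iff_exp_le (by linarith)]
  have := Real.exp_one_lt_d9
  linarith

private lemma sc_triv (f : ℕ → ℂ) (hf : ∀ n, ‖f n‖ ≤ Real.log n) {x : ℝ} (j : ℕ)
    (hj : 1 ≤ j) (hjx : (j:ℝ) ≤ x) : ‖∑ n ∈ Finset.Icc 1 j, f n‖ ≤ j * Real.log x := by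
  refine (norm_sum_le _ _).trans ?_
  calc ∑ n ∈ Finset.Icc 1 j, ‖f n‖ ≤ ∑ _n ∈ Finset.Icc 1 j, Real.log x := by
        refine Finset.sum_le_sum fun n hn => (hf n).trans ?_
        rw [Finset.mem_Icc] at hn
        have h1 : (0:ℝ) < n := by exact_mod_cast hn.1
        have h2 : (n:ℝ) ≤ j := by exact_mod_cast hn.2
        exact Real.log_le_log h1 (h2.trans hjx)
    _ = j * Real.log x := by
        rw [Finset.sum_const, Nat.card_Icc, nsmul_eq_mul]
        simp

/-- the large range -/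
private lemma sc_large {C x : ℝ} (hC : 0 ≤ C) (hx : 3 ≤ x) (k j : ℕ) (hjx : (j:ℝ) ≤ x)
    (hj : 3 * Real.sqrt x < j) : 3 ≤ (j:ℝ) ∧
      C * j / (Real.log j) ^ k ≤ C * 2 ^ k * x / (Real.log x) ^ k := by
  have hs1 : 1 ≤ Real.sqrt x := by
    rw [Real.le_sqrt (by norm_num) (by linarith)]
    linarith
  have h3 : 3 ≤ (j:ℝ) := by linarith
  refine ⟨h3, ?_⟩
  have hlx := sc_log_ge hx
  have hs0 : 0 < Real.sqrt x := by linarith
  have h4 : Real.log x / 2 ≤ Real.log j := by
    have h5 : Real.log (Real.sqrt x) = Real.log x / 2 := by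
      rw [Real.log_sqrt (by linarith)]
    rw [← h5]
    exact Real.log_le_log hs0 (by linarith)
  have h5 : 0 < (Real.log x / 2) ^ k := by positivity
  calc C * j / (Real.log j) ^ k ≤ C * j / (Real.log x / 2) ^ k := by
        refine div_le_div_of_nonneg_left (by positivity) h5 ?_
        exact pow_le_pow_left₀ (by linarith) h4 k
    _ ≤ C * x / (Real.log x / 2) ^ k :=
        div_le_div_of_nonneg_right (mul_le_mul_of_nonneg_left hjx hC) h5.le
    _ = C * 2 ^ k * x / (Real.log x) ^ k := by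
        rw [div_pow]
        field_simp

/-- the small range -/
private lemma sc_small {D x : ℝ} (hx : 3 ≤ x) (k : ℕ)
    (hD : ∀ x : ℝ, 1 ≤ x → (Real.log x) ^ (k + 1) ≤ D * Real.sqrt x) :
    3 * Real.sqrt x * Real.log x ≤ 3 * D * x / (Real.log x) ^ k := by
  have hlx := sc_log_ge hx
  have hl : 0 < (Real.log x) ^ k := by positivity
  rw [le_div_iff₀ hl]
  have h1 := hD x (by linarith)
  have h2 : Real.sqrt x * Real.sqrt x = x := Real.mul_self_sqrt (by linarith)
  have h3 : 0 ≤ Real.sqrt x := Real.sqrt_nonneg x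
  calc 3 * Real.sqrt x * Real.log x * Real.log x ^ k = 3 * Real.sqrt x * (Real.log x) ^ (k + 1) := by
        ring
    _ ≤ 3 * Real.sqrt x * (D * Real.sqrt x) := mul_le_mul_of_nonneg_left h1 (by linarith)
    _ = 3 * D * (Real.sqrt x * Real.sqrt x) := by ring
    _ = 3 * D * x := by rw [h2]

theorem RS_small (k : ℕ) : ∃ C : ℝ, 0 < C ∧ ∀ (q : ℕ) [NeZero q] (χ : DirichletCharacter ℂ q),
    χ ≠ 1 → ∀ x : ℝ, 3 ≤ x → ∀ y : ℝ, 1 ≤ y → y ≤ x →
    ‖RS (lam (chf χ)) y‖ ≤ C * q * x ^ 2 / (Real.log x) ^ k := by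
  obtain ⟨C, hC, hpsi⟩ := psi_chi_bound k 1 one_pos
  obtain ⟨D, hD0, hD⟩ := sc_log_pow (k + 1)
  refine ⟨C * 2 ^ k + 3 * D, by positivity, ?_⟩
  intro q _ χ hχ x hx y hy hyx
  have hq : (1 : ℝ) ≤ q := by exact_mod_cast Nat.one_le_iff_ne_zero.2 (NeZero.ne q)
  have hlx := sc_log_ge hx
  have hl : 0 < (Real.log x) ^ k := by positivity
  have hx0 : 0 < x := by linarith only [hx]
  set B : ℝ := (C * 2 ^ k + 3 * D) * q * x / (Real.log x) ^ k with hB
  have hB0 : 0 ≤ B := by rw [hB]; positivity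
  have hmain : ∀ j : ℕ, 1 ≤ j → (j:ℝ) ≤ y → ‖∑ n ∈ Finset.Icc 1 j, lam (chf χ) n‖ ≤ B := by
    intro j hj hjy
    have hjx : (j:ℝ) ≤ x := hjy.trans hyx
    by_cases hjs : 3 * Real.sqrt x < j
    · obtain ⟨h3, h4⟩ := sc_large (C := C * q) (by positivity) hx k j hjx hjs
      have h5 := hpsi q χ hχ j h3
      rw [Nat.floor_natCast, Real.rpow_one] at h5
      refine h5.trans (h4.trans ?_)
      rw [hB]
      refine div_le_div_of_nonneg_right ?_ hl.le
      have : 0 ≤ 3 * D * q * x := by positivity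
      nlinarith only [this]
    · rw [not_lt] at hjs
      have h5 := sc_triv (lam (chf χ)) (lam_norm_le (norm_chf_le χ)) (x := x) j hj hjx
      refine h5.trans ?_
      calc (j:ℝ) * Real.log x ≤ 3 * Real.sqrt x * Real.log x :=
            mul_le_mul_of_nonneg_right hjs (by linarith only [hlx])
        _ ≤ 3 * D * x / (Real.log x) ^ k := sc_small hx k hD
        _ ≤ B := by
            rw [hB]
            refine div_le_div_of_nonneg_right ?_ hl.le
            have h6 : 0 ≤ C * 2 ^ k * q * x := by positivity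
            have h7 : 3 * D * x ≤ 3 * D * q * x := by
              have : 0 ≤ 3 * D * x := by positivity
              nlinarith only [hq, this]
            nlinarith only [h6, h7]
  refine (sc_RS_le _ hy hB0 hmain).trans ?_
  calc B * y ≤ B * x := mul_le_mul_of_nonneg_left hyx hB0
    _ = _ := by rw [hB]; ring

open scoped Classical in
private lemma sc_chf_one (q : ℕ) [NeZero q] (n : ℕ) :
    lam (chf (1 : DirichletCharacter ℂ q)) n =
      ((if n.Coprime q then ArithmeticFunction.vonMangoldt n else 0 : ℝ) : ℂ) := by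
  unfold lam chf
  by_cases h : n.Coprime q
  · have hu : IsUnit (n : ZMod q) := (ZMod.isUnit_iff_coprime n q).mpr h
    rw [MulChar.one_apply hu, if_pos h, one_mul]
  · have hu : ¬ IsUnit (n : ZMod q) := fun hu => h ((ZMod.isUnit_iff_coprime n q).mp hu)
    rw [MulChar.map_nonunit _ hu, if_neg h, zero_mul, Complex.ofReal_zero]

private lemma sc_sum_y (y : ℝ) (M : ℕ) :
    ∑ n ∈ Finset.Icc 1 M, (y - n) = M * y - M * (M + 1) / 2 := by
  induction M with
  | zero => simp
  | succ M ih =>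
    rw [Finset.sum_Icc_succ_top (by omega), ih]
    push_cast
    ring

/-- The principal character modulo `q`. -/
theorem RS_principal (k : ℕ) : ∃ C : ℝ, 0 < C ∧ ∀ (q : ℕ) [NeZero q] (x : ℝ), 3 ≤ x →
    (q:ℝ) ≤ x → ∀ y : ℝ, 1 ≤ y → y ≤ x →
    ‖RS (lam (chf (1 : DirichletCharacter ℂ q))) y - ((y ^ 2 / 2 : ℝ) : ℂ)‖ ≤
      C * x ^ 2 / (Real.log x) ^ k := by
  classical
  obtain ⟨C, hC, hpsi⟩ := psi_bound k
  obtain ⟨D, hD0, hD⟩ := sc_log_pow (k + 1)
  obtain ⟨D2, hD20, hD2⟩ := sc_log_pow (k + 2)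
  obtain ⟨D3, hD30, hD3⟩ := sc_log_pow k
  refine ⟨C * 2 ^ k + 6 * D + 2 * D2 + D3, by positivity, ?_⟩
  intro q _ x hx hqx y hy hyx
  have hq1 : 1 ≤ q := Nat.one_le_iff_ne_zero.2 (NeZero.ne q)
  have hq : (1 : ℝ) ≤ q := by exact_mod_cast hq1
  have hlx := sc_log_ge hx
  have hl : 0 < (Real.log x) ^ k := by positivity
  have hx0 : 0 < x := by linarith only [hx]
  have hsx : Real.sqrt x ≤ x := by
    rw [Real.sqrt_le_left (by linarith only [hx])]
    nlinarith only [hx]
  set B : ℝ := (C * 2 ^ k + 6 * D + 2 * D2) * x / (Real.log x) ^ k with hB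
  have hB0 : 0 ≤ B := by rw [hB]; positivity
  set g : ℕ → ℂ := fun n => lam (chf (1 : DirichletCharacter ℂ q)) n - 1 with hg
  have hsumg : ∀ j : ℕ, ∑ n ∈ Finset.Icc 1 j, g n =
      ((∑ n ∈ Finset.Icc 1 j, ArithmeticFunction.vonMangoldt n - j -
        ∑ n ∈ (Finset.Icc 1 j).filter (fun n => ¬ Nat.Coprime n q),
          ArithmeticFunction.vonMangoldt n : ℝ) : ℂ) := by
    intro j
    have h1 : ∑ n ∈ Finset.Icc 1 j, (if n.Coprime q then ArithmeticFunction.vonMangoldt n else 0) =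
        ∑ n ∈ Finset.Icc 1 j, ArithmeticFunction.vonMangoldt n -
        ∑ n ∈ (Finset.Icc 1 j).filter (fun n => ¬ Nat.Coprime n q),
          ArithmeticFunction.vonMangoldt n := by
      rw [← Finset.sum_filter, eq_sub_iff_add_eq]
      exact Finset.sum_filter_add_sum_filter_not _ _ _
    have h2 : ∑ n ∈ Finset.Icc 1 j, g n =
        ((∑ n ∈ Finset.Icc 1 j, (if n.Coprime q then ArithmeticFunction.vonMangoldt n else 0) : ℝ) : ℂ)
          - (j:ℂ) := by
      rw [hg, Finset.sum_sub_distrib, Complex.ofReal_sum]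
      congr 1
      · exact Finset.sum_congr rfl fun n _ => sc_chf_one q n
      · rw [Finset.sum_const, Nat.card_Icc]
        simp
    rw [h2, h1]
    push_cast
    ring
  have hmain : ∀ j : ℕ, 1 ≤ j → (j:ℝ) ≤ y → ‖∑ n ∈ Finset.Icc 1 j, g n‖ ≤ B := by
    intro j hj hjy
    have hjx : (j:ℝ) ≤ x := hjy.trans hyx
    have hj1 : (1:ℝ) ≤ j := by exact_mod_cast hj
    rw [hsumg, Complex.norm_real, Real.norm_eq_abs]
    have hnc := sum_vonMangoldt_not_coprime q hq1 j hj1
    rw [Nat.floor_natCast] at hnc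
    have hnc0 : 0 ≤ ∑ n ∈ (Finset.Icc 1 j).filter (fun n => ¬ Nat.Coprime n q),
        ArithmeticFunction.vonMangoldt n :=
      Finset.sum_nonneg fun n _ => ArithmeticFunction.vonMangoldt_nonneg
    have hnc2 : 2 * Real.log q * Real.log j ≤ 2 * D2 * x / (Real.log x) ^ k := by
      have h1 : Real.log q ≤ Real.log x := Real.log_le_log (by linarith only [hq]) hqx
      have h2 : Real.log j ≤ Real.log x := Real.log_le_log (by linarith only [hj1]) hjx
      have h3 : 0 ≤ Real.log j := Real.log_nonneg hj1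
      have h4 : 0 ≤ Real.log q := Real.log_nonneg hq
      have h5 : Real.log q * Real.log j ≤ Real.log x * Real.log x :=
        mul_le_mul h1 h2 h3 (by linarith only [hlx])
      rw [le_div_iff₀ hl]
      calc 2 * Real.log q * Real.log j * Real.log x ^ k
          ≤ 2 * (Real.log x * Real.log x) * Real.log x ^ k := by
            have := mul_le_mul_of_nonneg_right h5 hl.le
            nlinarith only [this]
        _ = 2 * (Real.log x) ^ (k + 2) := by ring
        _ ≤ 2 * (D2 * Real.sqrt x) := by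
            have := hD2 x (by linarith only [hx])
            linarith only [this]
        _ ≤ 2 * D2 * x := by
            have := mul_le_mul_of_nonneg_left hsx hD20.le
            linarith only [this]
    have hps : |∑ n ∈ Finset.Icc 1 j, ArithmeticFunction.vonMangoldt n - (j:ℝ)| ≤
        (C * 2 ^ k + 6 * D) * x / (Real.log x) ^ k := by
      by_cases hjs : 3 * Real.sqrt x < j
      · obtain ⟨h3, h4⟩ := sc_large (C := C) hC.le hx k j hjx hjs
        have h5 := hpsi j h3
        rw [Nat.floor_natCast] at h5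
        refine h5.trans (h4.trans ?_)
        refine div_le_div_of_nonneg_right ?_ hl.le
        have : 0 ≤ 6 * D * x := by (clear * - hD0 hx; positivity)
        nlinarith only [this]
      · rw [not_lt] at hjs
        have h5 := sc_triv (lam (chf (1 : DirichletCharacter ℂ 1)))
          (lam_norm_le (norm_chf_le _)) (x := x) j hj hjx
        have h6 : ∑ n ∈ Finset.Icc 1 j, ArithmeticFunction.vonMangoldt n ≤ j * Real.log x := by
          calc ∑ n ∈ Finset.Icc 1 j, ArithmeticFunction.vonMangoldt n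
              ≤ ∑ _n ∈ Finset.Icc 1 j, Real.log x := by
                refine Finset.sum_le_sum fun n hn => ArithmeticFunction.vonMangoldt_le_log.trans ?_
                rw [Finset.mem_Icc] at hn
                have h1 : (0:ℝ) < n := by exact_mod_cast hn.1
                have h2 : (n:ℝ) ≤ j := by exact_mod_cast hn.2
                exact Real.log_le_log h1 (h2.trans hjx)
            _ = j * Real.log x := by
                rw [Finset.sum_const, Nat.card_Icc, nsmul_eq_mul]
                simp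
        have h7 : 0 ≤ ∑ n ∈ Finset.Icc 1 j, ArithmeticFunction.vonMangoldt n :=
          Finset.sum_nonneg fun n _ => ArithmeticFunction.vonMangoldt_nonneg
        have h8 : |∑ n ∈ Finset.Icc 1 j, ArithmeticFunction.vonMangoldt n - (j:ℝ)| ≤
            2 * (j * Real.log x) := by
          rw [abs_le]
          constructor
          · nlinarith only [hlx, hj1, h7]
          · nlinarith only [hj1, h6, h7]
        have h9 := sc_small hx k hD
        calc _ ≤ 2 * (j * Real.log x) := h8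
          _ ≤ 2 * (3 * Real.sqrt x * Real.log x) := by
              have := mul_le_mul_of_nonneg_right hjs (show (0:ℝ) ≤ Real.log x by linarith only [hlx])
              linarith only [this]
          _ ≤ 2 * (3 * D * x / (Real.log x) ^ k) := by linarith only [h9]
          _ = 6 * D * x / (Real.log x) ^ k := by ring
          _ ≤ _ := by
              refine div_le_div_of_nonneg_right ?_ hl.le
              have : 0 ≤ C * 2 ^ k * x := by (clear * - hC hx; positivity)
              nlinarith only [this]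
    have hsplit : B = (C * 2 ^ k + 6 * D) * x / (Real.log x) ^ k + 2 * D2 * x / (Real.log x) ^ k := by
      rw [hB]
      ring
    rw [hsplit]
    calc |∑ n ∈ Finset.Icc 1 j, ArithmeticFunction.vonMangoldt n - (j:ℝ) -
          ∑ n ∈ (Finset.Icc 1 j).filter (fun n => ¬ Nat.Coprime n q),
            ArithmeticFunction.vonMangoldt n|
        ≤ |∑ n ∈ Finset.Icc 1 j, ArithmeticFunction.vonMangoldt n - (j:ℝ)| +
          |∑ n ∈ (Finset.Icc 1 j).filter (fun n => ¬ Nat.Coprime n q),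
            ArithmeticFunction.vonMangoldt n| := abs_sub _ _
      _ ≤ _ := by
          rw [abs_of_nonneg hnc0]
          exact add_le_add hps (hnc.trans hnc2)
  have hRS : RS (lam (chf (1 : DirichletCharacter ℂ q))) y - ((y ^ 2 / 2 : ℝ) : ℂ) =
      RS g y + ((∑ n ∈ Finset.Icc 1 ⌊y⌋₊, (y - n) - y ^ 2 / 2 : ℝ) : ℂ) := by
    have h1 : RS g y = RS (lam (chf (1 : DirichletCharacter ℂ q))) y -
        ∑ n ∈ Finset.Icc 1 ⌊y⌋₊, ((y - n : ℝ) : ℂ) := by
      unfold RS
      rw [← Finset.sum_sub_distrib]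
      refine Finset.sum_congr rfl fun n _ => ?_
      rw [hg]
      ring
    rw [h1, Complex.ofReal_sub, Complex.ofReal_sum]
    ring
  rw [hRS]
  refine (norm_add_le _ _).trans ?_
  have h1 : ‖RS g y‖ ≤ B * x :=
    (sc_RS_le _ hy hB0 hmain).trans (mul_le_mul_of_nonneg_left hyx hB0)
  have h2 : ‖((∑ n ∈ Finset.Icc 1 ⌊y⌋₊, (y - n) - y ^ 2 / 2 : ℝ) : ℂ)‖ ≤ x := by
    rw [Complex.norm_real, Real.norm_eq_abs, sc_sum_y]
    have h3 : (⌊y⌋₊:ℝ) ≤ y := Nat.floor_le (by linarith only [hy])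
    have h4 : y < ⌊y⌋₊ + 1 := Nat.lt_floor_add_one y
    have h5 : (⌊y⌋₊:ℝ) * y - ⌊y⌋₊ * (⌊y⌋₊ + 1) / 2 - y ^ 2 / 2 =
        -(((y - ⌊y⌋₊) ^ 2 + ⌊y⌋₊) / 2) := by ring
    rw [h5, abs_neg, abs_of_nonneg (by (clear * -; positivity))]
    nlinarith only [hy, hyx, h3, h4]
  have h3 : x ≤ D3 * x ^ 2 / (Real.log x) ^ k := by
    rw [le_div_iff₀ hl]
    have := hD3 x (by linarith only [hx])
    have h4 : Real.log x ^ k ≤ D3 * x := this.trans (mul_le_mul_of_nonneg_left hsx hD30.le)
    nlinarith only [hx, h4]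
  calc ‖RS g y‖ + ‖((∑ n ∈ Finset.Icc 1 ⌊y⌋₊, (y - n) - y ^ 2 / 2 : ℝ) : ℂ)‖
      ≤ B * x + D3 * x ^ 2 / (Real.log x) ^ k := add_le_add h1 (h2.trans h3)
    _ = _ := by rw [hB]; ring

end Pool.Agent.Lib.BV
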