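import Pool.Agent.Lib.BV.PrimBound
import Pool.Agent.Lib.BV.Induced
import Pool.Agent.Lib.BV.CharSum
import Pool.Agent.Lib.BV.Dyadic
import Pool.Agent.Lib.BV.SmallCond

/-!
# Riesz means in progressions, on average over the modulus

PROOF SKETCH. Q = floor(x^(1/20)), Q0 = ceil((log x)^B), B = A + 10. Orthogonality of characters:
RSap y q a = (1/φ(q)) sum_χ χ(a)^(-1) RS (lam (chf χ)) y for a coprime to q. Let G be from
prim_bound. For χ <> 1 mod q, ψ = χ.primitiveCharacter, d = conductor: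
|RS(χ)| <= 4 y log y log q + |RS(ψ)| (RS_induced), |RS(ψ)| <= G' d ψ where G' d ψ = G d ψ if d > Q0
and the bound C d x^2/(log x)^k of RS_small if d <= Q0 (k = 3B + A + 10 large). Define
E q = C x^2/(log x)^(A+2)/φ(q) (principal, RS_principal) + 4 x (log x)^2
+ (1/φ(q)) sum_{χ <> 1 mod q} G' (conductor) (primitiveCharacter).
Sum over q <= Q: sum_inv_totient, Q * 4 x (log x)^2, and char_sum + large_cond + for d <= Q0 at most
Q0^2 characters each C Q0 x^2/(log x)^k. Total <= C x^2/(log x)^A.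
-/

open Complex

namespace Pool.Agent.Lib.BV

open Pool.Agent.Lib.SW

/-- orthogonality -/
theorem totient_mul_RSap (q : ℕ) [NeZero q] (a : ℕ) (ha : a.Coprime q) (y : ℝ) :
    ((q.totient : ℂ)) * ((RSap y q a : ℝ) : ℂ) =
      ∑ χ : DirichletCharacter ℂ q, χ ((a : ZMod q)⁻¹) * RS (lam (chf χ)) y := by
  have hu : IsUnit (a : ZMod q) := (ZMod.isUnit_iff_coprime a q).2 ha
  have h1 : ∀ χ : DirichletCharacter ℂ q, χ ((a : ZMod q)⁻¹) * RS (lam (chf χ)) y =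
      ∑ n ∈ Finset.Icc 1 ⌊y⌋₊, (χ ((a : ZMod q)⁻¹) * χ (n : ZMod q)) *
        (((ArithmeticFunction.vonMangoldt n : ℝ) : ℂ) * ((y - n : ℝ) : ℂ)) := by
    intro χ
    rw [RS, Finset.mul_sum]
    refine Finset.sum_congr rfl fun n _ => ?_
    rw [lam, chf]
    ring
  rw [Finset.sum_congr rfl fun χ _ => h1 χ, Finset.sum_comm]
  have h2 : ∀ n ∈ Finset.Icc 1 ⌊y⌋₊, ∑ χ : DirichletCharacter ℂ q,
      (χ ((a : ZMod q)⁻¹) * χ (n : ZMod q)) *
        (((ArithmeticFunction.vonMangoldt n : ℝ) : ℂ) * ((y - n : ℝ) : ℂ)) =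
      if n ≡ a [MOD q] then (q.totient : ℂ) *
        (((ArithmeticFunction.vonMangoldt n : ℝ) : ℂ) * ((y - n : ℝ) : ℂ)) else 0 := by
    intro n _
    rw [← Finset.sum_mul, DirichletCharacter.sum_char_inv_mul_char_eq ℂ hu]
    have h3 : ((a : ZMod q) = (n : ZMod q)) ↔ n ≡ a [MOD q] := by
      rw [ZMod.natCast_eq_natCast_iff]
      exact ⟨Nat.ModEq.symm, Nat.ModEq.symm⟩
    by_cases h : n ≡ a [MOD q]
    · rw [if_pos (h3.2 h), if_pos h]
    · rw [if_neg (fun h' => h (h3.1 h')), if_neg h, zero_mul]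
  rw [Finset.sum_congr rfl h2, ← Finset.sum_filter, ← Finset.mul_sum, RSap]
  push_cast
  rfl

theorem norm_char_le {q : ℕ} (χ : DirichletCharacter ℂ q) (z : ZMod q) : ‖χ z‖ ≤ 1 :=
  χ.norm_le_one _

theorem RSap_sub_le (q : ℕ) [NeZero q] (a : ℕ) (ha : a.Coprime q) (y : ℝ) :
    |RSap y q a - y ^ 2 / (2 * (q.totient : ℝ))| ≤
      (1 / (q.totient : ℝ)) * ‖RS (lam (chf (1 : DirichletCharacter ℂ q))) y - ((y ^ 2 / 2 : ℝ) : ℂ)‖
      + (1 / (q.totient : ℝ)) * ∑ χ : DirichletCharacter ℂ q,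
        (if χ = 1 then 0 else ‖RS (lam (chf χ)) y‖) := by
  classical
  have hφ : (0:ℝ) < q.totient := by exact_mod_cast Nat.totient_pos.2 (Nat.pos_of_ne_zero (NeZero.ne q))
  have h1 := totient_mul_RSap q a ha y
  have hu : IsUnit ((a : ZMod q)⁻¹) := by
    have hu : IsUnit (a : ZMod q) := (ZMod.isUnit_iff_coprime a q).2 ha
    obtain ⟨u, hu⟩ := hu
    rw [← hu, ZMod.inv_coe_unit]
    exact Units.isUnit _
  rw [← Finset.add_sum_erase _ _ (Finset.mem_univ (1 : DirichletCharacter ℂ q)),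
    MulChar.one_apply hu, one_mul] at h1
  have h2 : ((q.totient : ℂ)) * ((RSap y q a - y ^ 2 / (2 * (q.totient : ℝ)) : ℝ) : ℂ) =
      (RS (lam (chf (1 : DirichletCharacter ℂ q))) y - ((y ^ 2 / 2 : ℝ) : ℂ)) +
      ∑ χ ∈ Finset.univ.erase (1 : DirichletCharacter ℂ q),
        χ ((a : ZMod q)⁻¹) * RS (lam (chf χ)) y := by
    have h3 : ((q.totient : ℂ)) * ((RSap y q a - y ^ 2 / (2 * (q.totient : ℝ)) : ℝ) : ℂ) =
      ((q.totient : ℂ)) * ((RSap y q a : ℝ) : ℂ) - ((y ^ 2 / 2 : ℝ) : ℂ) := by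
      have hφ' : (q.totient : ℂ) ≠ 0 := by exact_mod_cast hφ.ne'
      push_cast
      field_simp
    rw [h3, h1]
    ring
  have h4 : (q.totient : ℝ) * |RSap y q a - y ^ 2 / (2 * (q.totient : ℝ))| =
      ‖((q.totient : ℂ)) * ((RSap y q a - y ^ 2 / (2 * (q.totient : ℝ)) : ℝ) : ℂ)‖ := by
    rw [norm_mul, Complex.norm_real, Complex.norm_natCast, Real.norm_eq_abs]
  have h5 : ‖∑ χ ∈ Finset.univ.erase (1 : DirichletCharacter ℂ q),
        χ ((a : ZMod q)⁻¹) * RS (lam (chf χ)) y‖ ≤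
      ∑ χ : DirichletCharacter ℂ q, (if χ = 1 then 0 else ‖RS (lam (chf χ)) y‖) := by
    refine (norm_sum_le _ _).trans ?_
    rw [← Finset.add_sum_erase _ _ (Finset.mem_univ (1 : DirichletCharacter ℂ q)), if_pos rfl,
      zero_add]
    refine Finset.sum_le_sum fun χ hχ => ?_
    rw [if_neg (Finset.ne_of_mem_erase hχ), norm_mul]
    have := norm_char_le χ ((a : ZMod q)⁻¹)
    nlinarith [norm_nonneg (RS (lam (chf χ)) y)]
  have h6 : (q.totient : ℝ) * |RSap y q a - y ^ 2 / (2 * (q.totient : ℝ))| ≤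
      ‖RS (lam (chf (1 : DirichletCharacter ℂ q))) y - ((y ^ 2 / 2 : ℝ) : ℂ)‖
      + ∑ χ : DirichletCharacter ℂ q, (if χ = 1 then 0 else ‖RS (lam (chf χ)) y‖) := by
    rw [h4, h2]
    exact (norm_add_le _ _).trans (add_le_add le_rfl h5)
  rw [← mul_add, one_div, ← div_eq_inv_mul, le_div_iff₀ hφ]
  linarith

theorem primitiveCharacter_ne_one {q : ℕ} {χ : DirichletCharacter ℂ q} (hχ : χ ≠ 1) :
    χ.primitiveCharacter ≠ 1 := by
  intro h
  apply hχ
  rw [← DirichletCharacter.changeLevel_primitiveCharacter χ, h,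
    DirichletCharacter.changeLevel_one]

theorem card_char_le (q : ℕ) [NeZero q] :
    (Fintype.card (DirichletCharacter ℂ q) : ℝ) = q.totient := by
  rw [← Nat.card_eq_fintype_card]
  exact_mod_cast DirichletCharacter.card_eq_totient_of_hasEnoughRootsOfUnity ℂ q

theorem primSum_small (Q Q0 : ℕ) (c : ℝ) (hc : 0 ≤ c) :
    primSum Q (fun q _ => if q ≤ Q0 then c * q / q.totient else 0) ≤ c * Q0 ^ 2 := by
  classical
  unfold primSum
  have h1 : ∀ q ∈ Finset.range Q, (∑ χ : DirichletCharacter ℂ (q+1),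
      if χ.IsPrimitive then (if q + 1 ≤ Q0 then c * ((q+1 : ℕ) : ℝ) / ((q+1 : ℕ).totient : ℝ) else 0) else 0)
      ≤ if q < Q0 then c * Q0 else 0 := by
    intro q _
    by_cases h : q + 1 ≤ Q0
    · rw [if_pos (Nat.lt_of_succ_le h)]
      have hφ : (0:ℝ) < (q+1).totient := by exact_mod_cast Nat.totient_pos.2 (Nat.succ_pos q)
      have h2 : (∑ χ : DirichletCharacter ℂ (q+1),
          if χ.IsPrimitive then (if q + 1 ≤ Q0 then c * ((q+1 : ℕ) : ℝ) / ((q+1 : ℕ).totient : ℝ) else 0)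
          else 0) ≤ ∑ χ : DirichletCharacter ℂ (q+1),
          c * ((q+1 : ℕ) : ℝ) / ((q+1 : ℕ).totient : ℝ) := by
        refine Finset.sum_le_sum fun χ _ => ?_
        split_ifs
        · exact le_rfl
        · positivity
      refine h2.trans ?_
      rw [Finset.sum_const, nsmul_eq_mul, Finset.card_univ, card_char_le, mul_div_cancel₀ _ hφ.ne']
      have : ((q+1 : ℕ) : ℝ) ≤ Q0 := by exact_mod_cast h
      gcongr
    · rw [if_neg (fun h' => h (Nat.succ_le_of_lt h'))]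
      simp [h]
  refine (Finset.sum_le_sum h1).trans ?_
  rw [← Finset.sum_filter, Finset.sum_const, nsmul_eq_mul]
  have h3 : ((Finset.range Q).filter (fun q => q < Q0)).card ≤ Q0 := by
    have : (Finset.range Q).filter (fun q => q < Q0) ⊆ Finset.range Q0 := by
      intro q hq
      simp only [Finset.mem_filter, Finset.mem_range] at hq ⊢
      exact hq.2
    simpa using Finset.card_le_card this
  have h4 : (((Finset.range Q).filter (fun q => q < Q0)).card : ℝ) ≤ Q0 := by exact_mod_cast h3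
  calc _ ≤ (Q0 : ℝ) * (c * Q0) := by gcongr
    _ = _ := by ring

open scoped Classical in
/-- the bound for a primitive character -/
noncomputable def Gp (G : (q : ℕ) → DirichletCharacter ℂ q → ℝ) (Q0 : ℕ) (c : ℝ) (d : ℕ)
    (ψ : DirichletCharacter ℂ d) : ℝ := if d ≤ Q0 then c * d else G d ψ

open scoped Classical in
/-- the error term -/
noncomputable def Er (G : (q : ℕ) → DirichletCharacter ℂ q → ℝ) (Q0 : ℕ) (c P M : ℝ) : ℕ → ℝ
  | 0 => 0
  | (q+1) => (1 / ((q+1 : ℕ).totient : ℝ)) * P + M + (1 / ((q+1 : ℕ).totient : ℝ)) *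
      ∑ χ : DirichletCharacter ℂ (q+1), (if χ = 1 then 0 else Gp G Q0 c χ.conductor χ.primitiveCharacter)

theorem Gp_nonneg {G : (q : ℕ) → DirichletCharacter ℂ q → ℝ} (hG : ∀ q χ, 0 ≤ G q χ) (Q0 : ℕ)
    {c : ℝ} (hc : 0 ≤ c) (d : ℕ) (ψ : DirichletCharacter ℂ d) : 0 ≤ Gp G Q0 c d ψ := by
  unfold Gp
  split_ifs
  · positivity
  · exact hG _ _

theorem Er_nonneg {G : (q : ℕ) → DirichletCharacter ℂ q → ℝ} (hG : ∀ q χ, 0 ≤ G q χ) (Q0 : ℕ)
    {c P M : ℝ} (hc : 0 ≤ c) (hP : 0 ≤ P) (hM : 0 ≤ M) (q : ℕ) : 0 ≤ Er G Q0 c P M q := by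
  rcases q with _ | q
  · exact le_rfl
  · have : 0 ≤ ∑ χ : DirichletCharacter ℂ (q+1),
        (if χ = 1 then 0 else Gp G Q0 c χ.conductor χ.primitiveCharacter) := by
      refine Finset.sum_nonneg fun χ _ => ?_
      split_ifs
      · exact le_rfl
      · exact Gp_nonneg hG Q0 hc _ _
    unfold Er
    positivity

/-- pointwise bound -/
theorem RSap_le_Er {G : (q : ℕ) → DirichletCharacter ℂ q → ℝ} {Q Q0 : ℕ} {c P x : ℝ}
    (hG : ∀ (q : ℕ) [NeZero q] (χ : DirichletCharacter ℂ q), q ≤ Q → χ ≠ 1 → ∀ y : ℝ, 1 ≤ y →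
        y ≤ x → ‖RS (lam (chf χ)) y‖ ≤ G q χ)
    (hc : ∀ (q : ℕ) [NeZero q] (χ : DirichletCharacter ℂ q), χ ≠ 1 → ∀ y : ℝ, 1 ≤ y →
        y ≤ x → ‖RS (lam (chf χ)) y‖ ≤ c * q)
    (hP : ∀ (q : ℕ) [NeZero q], (q : ℝ) ≤ x → ∀ y : ℝ, 1 ≤ y → y ≤ x →
      ‖RS (lam (chf (1 : DirichletCharacter ℂ q))) y - ((y ^ 2 / 2 : ℝ) : ℂ)‖ ≤ P)
    (hQ : (Q : ℝ) ≤ x) {q : ℕ} (hq : q ∈ Finset.Icc 1 Q) (a : ℕ) (ha : a.Coprime q) {y : ℝ}
    (hy : 1 ≤ y) (hyx : y ≤ x) :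
    |RSap y q a - y ^ 2 / (2 * (q.totient : ℝ))| ≤ Er G Q0 c P (4 * x * (Real.log x) ^ 2) q := by
  classical
  rw [Finset.mem_Icc] at hq
  obtain ⟨q, rfl⟩ : ∃ q', q = q' + 1 := ⟨q - 1, by omega⟩
  have hqx : ((q+1 : ℕ) : ℝ) ≤ x := (by exact_mod_cast hq.2 : ((q+1 : ℕ) : ℝ) ≤ Q).trans hQ
  have hφ : (0:ℝ) < (q+1 : ℕ).totient := by exact_mod_cast Nat.totient_pos.2 (Nat.succ_pos q)
  have hx : 1 ≤ x := hy.trans hyx
  have hlx : 0 ≤ Real.log x := Real.log_nonneg hx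
  refine (RSap_sub_le (q+1) a ha y).trans ?_
  have h1 : ∀ χ : DirichletCharacter ℂ (q+1), (if χ = 1 then 0 else ‖RS (lam (chf χ)) y‖) ≤
      4 * x * (Real.log x) ^ 2 +
      (if χ = 1 then 0 else Gp G Q0 c χ.conductor χ.primitiveCharacter) := by
    intro χ
    by_cases hχ : χ = 1
    · rw [if_pos hχ, if_pos hχ]; positivity
    · rw [if_neg hχ, if_neg hχ]
      have : NeZero χ.conductor := ⟨DirichletCharacter.conductor_ne_zero χ⟩
      have hψ := primitiveCharacter_ne_one hχ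
      have h2 : ‖RS (lam (chf χ.primitiveCharacter)) y‖ ≤
          Gp G Q0 c χ.conductor χ.primitiveCharacter := by
        unfold Gp
        split_ifs
        · exact hc _ _ hψ y hy hyx
        · exact hG _ _ ((Nat.le_of_dvd (Nat.succ_pos q) χ.conductor_dvd_level).trans hq.2) hψ y hy hyx
      have h3 := RS_induced χ y hy
      have h4 : 4 * y * Real.log y * Real.log ((q+1 : ℕ) : ℝ) ≤ 4 * x * (Real.log x) ^ 2 := by
        have h5 : Real.log y ≤ Real.log x := Real.log_le_log (by linarith) hyx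
        have h6 : Real.log ((q+1 : ℕ) : ℝ) ≤ Real.log x := Real.log_le_log (by positivity) hqx
        have h7 : 0 ≤ Real.log y := Real.log_nonneg hy
        have h8 : 0 ≤ Real.log ((q+1 : ℕ) : ℝ) := Real.log_nonneg (by exact_mod_cast Nat.succ_pos q)
        calc 4 * y * Real.log y * Real.log ((q+1 : ℕ) : ℝ)
            ≤ 4 * x * Real.log x * Real.log x := by gcongr
          _ = _ := by ring
      have h9 : ‖RS (lam (chf χ)) y‖ ≤ ‖RS (lam (chf χ)) y - RS (lam (chf χ.primitiveCharacter)) y‖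
          + ‖RS (lam (chf χ.primitiveCharacter)) y‖ := by
        have := norm_add_le (RS (lam (chf χ)) y - RS (lam (chf χ.primitiveCharacter)) y)
          (RS (lam (chf χ.primitiveCharacter)) y)
        simpa using this
      linarith
  have h2 := Finset.sum_le_sum fun χ (_ : χ ∈ (Finset.univ : Finset (DirichletCharacter ℂ (q+1)))) => h1 χ
  rw [Finset.sum_add_distrib, Finset.sum_const, nsmul_eq_mul, Finset.card_univ, card_char_le] at h2
  have h3 := mul_le_mul_of_nonneg_left h2 (by positivity : (0:ℝ) ≤ 1 / ((q+1 : ℕ).totient : ℝ))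
  have h4 := mul_le_mul_of_nonneg_left (hP (q+1) hqx y hy hyx)
    (by positivity : (0:ℝ) ≤ 1 / ((q+1 : ℕ).totient : ℝ))
  have h5 : (1 / ((q+1 : ℕ).totient : ℝ)) * (((q+1 : ℕ).totient : ℝ) * (4 * x * (Real.log x) ^ 2)) =
      4 * x * (Real.log x) ^ 2 := by
    field_simp
  rw [mul_add, h5] at h3
  unfold Er
  linarith

/-- the sum of the error terms -/
theorem sum_Er {G : (q : ℕ) → DirichletCharacter ℂ q → ℝ} (hG : ∀ q χ, 0 ≤ G q χ) {Q Q0 : ℕ}
    (hQ0 : 1 ≤ Q0) {c P M T : ℝ} (hc : 0 ≤ c) (hT : primSum Q G ≤ T) :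
    ∑ q ∈ Finset.Icc 1 Q, Er G Q0 c P M q ≤
      (∑ m ∈ Finset.Icc 1 Q, 1 / (m.totient : ℝ)) * P + Q * M +
      (∑ m ∈ Finset.Icc 1 Q, 1 / (m.totient : ℝ)) *
        (c * Q0 ^ 2 + 3 * Real.log (Q + 2) / Q0 * T) := by
  classical
  have hshift : ∀ f : ℕ → ℝ, ∑ q ∈ Finset.Icc 1 Q, f q = ∑ q ∈ Finset.range Q, f (q + 1) := by
    intro f
    rw [← Finset.Ico_add_one_right_eq_Icc, Finset.sum_Ico_eq_sum_range]
    refine Finset.sum_congr rfl fun i _ => ?_
    rw [add_comm]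
  have h0 : ∑ q ∈ Finset.Icc 1 Q, Er G Q0 c P M q =
      (∑ m ∈ Finset.Icc 1 Q, 1 / (m.totient : ℝ)) * P + Q * M +
      ∑ q ∈ Finset.range Q, (1 / ((q+1).totient : ℝ)) * ∑ χ : DirichletCharacter ℂ (q+1),
        (if χ = 1 then 0 else Gp G Q0 c χ.conductor χ.primitiveCharacter) := by
    rw [hshift, hshift]
    simp only [Er]
    rw [Finset.sum_add_distrib, Finset.sum_add_distrib, Finset.sum_mul, Finset.sum_const,
      nsmul_eq_mul, Finset.card_range]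
  have h1 := char_sum Q (Gp G Q0 c) (Gp_nonneg hG Q0 hc)
  have hS : 0 ≤ ∑ m ∈ Finset.Icc 1 Q, 1 / (m.totient : ℝ) :=
    Finset.sum_nonneg fun _ _ => by positivity
  have h2 : primSum Q (fun q χ => if q = 1 then 0 else Gp G Q0 c q χ / q.totient) ≤
      c * Q0 ^ 2 + 3 * Real.log (Q + 2) / Q0 * T := by
    have h3 : primSum Q (fun q χ => if q = 1 then 0 else Gp G Q0 c q χ / q.totient) ≤
        primSum Q (fun q χ => (if q ≤ Q0 then c * q / q.totient else 0) +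
          (if q ≤ Q0 then 0 else G q χ / q.totient)) := by
      apply primSum_mono
      intro q χ
      unfold Gp
      by_cases h1 : q = 1
      · rw [if_pos h1]
        split_ifs
        · positivity
        · have := hG q χ
          positivity
      · rw [if_neg h1]
        split_ifs
        · simp
        · simp
    rw [primSum_add] at h3
    have h4 := primSum_small Q Q0 c hc
    have h5 := large_cond Q Q0 hQ0 G hG
    have h6 : 0 ≤ 3 * Real.log (Q + 2) / Q0 := by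
      have : 0 ≤ Real.log ((Q:ℝ) + 2) := Real.log_nonneg (by
        have : (0:ℝ) ≤ Q := Nat.cast_nonneg Q
        linarith)
      positivity
    have h7 := mul_le_mul_of_nonneg_left hT h6
    linarith
  rw [h0]
  have h8 := mul_le_mul_of_nonneg_left h2 hS
  linarith [h1.trans h8]

theorem riesz_ap (A : ℕ) : ∃ C x₀ : ℝ, 0 < C ∧ ∀ x : ℝ, x₀ ≤ x → ∃ E : ℕ → ℝ,
    (∀ q, 0 ≤ E q) ∧
    (∑ q ∈ Finset.Icc 1 ⌊x ^ (1/20 : ℝ)⌋₊, E q ≤ C * x ^ 2 / (Real.log x) ^ A) ∧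
    ∀ q ∈ Finset.Icc 1 ⌊x ^ (1/20 : ℝ)⌋₊, ∀ a : ℕ, a.Coprime q → ∀ y : ℝ, 1 ≤ y → y ≤ x →
      |RSap y q a - y ^ 2 / (2 * (q.totient : ℝ))| ≤ E q := by
  obtain ⟨C1, hC1, hprim⟩ := prim_bound
  obtain ⟨C2, hC2, hsmall⟩ := RS_small (2 * (A + 7) + 1 + A)
  obtain ⟨C3, hC3, hprinc⟩ := RS_principal (A + 1)
  obtain ⟨C4, hC4, htot⟩ := sum_inv_totient
  have hev : ∀ᶠ x : ℝ in Filter.atTop, (Real.log x) ^ (A + 2) * (Real.log x) ^ A * x ^ (1/20 : ℝ) ≤ x := by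
    have h1 := (isLittleO_log_rpow_rpow_atTop ((2 * A + 2 : ℕ) : ℝ) (show (0:ℝ) < 19/20 by norm_num)).bound
      (show (0:ℝ) < 1 by norm_num)
    filter_upwards [h1, Filter.eventually_ge_atTop (1:ℝ)] with x hx hx1
    rw [one_mul, Real.rpow_natCast] at hx
    have hl : 0 ≤ Real.log x := Real.log_nonneg hx1
    rw [Real.norm_of_nonneg (by positivity), Real.norm_of_nonneg (by positivity)] at hx
    calc (Real.log x) ^ (A + 2) * (Real.log x) ^ A * x ^ (1/20 : ℝ)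
        = (Real.log x) ^ (2 * A + 2) * x ^ (1/20 : ℝ) := by ring
      _ ≤ x ^ (19/20 : ℝ) * x ^ (1/20 : ℝ) := by gcongr
      _ = x := by
        rw [← Real.rpow_add (by linarith)]
        norm_num
  obtain ⟨x₁, hx₁⟩ := Filter.eventually_atTop.1 hev
  refine ⟨2 * C4 * C3 + 4 + 2 * C4 * (4 * C2 + 6 * C1), max 3 x₁, by positivity, fun x hx => ?_⟩
  have hx3 : 3 ≤ x := (le_max_left _ _).trans hx
  have hxx := hx₁ x ((le_max_right _ _).trans hx)
  set L := Real.log x with hL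
  have hL1 : 1 ≤ L := by
    rw [hL, Real.le_log_iff_exp_le (by linarith)]
    linarith [Real.exp_one_lt_d9]
  set Q := ⌊x ^ (1/20 : ℝ)⌋₊ with hQdef
  have hQle : (Q : ℝ) ≤ x ^ (1/20 : ℝ) := Nat.floor_le (by positivity)
  have hQ1 : 1 ≤ Q := by
    rw [hQdef]
    apply Nat.le_floor
    rw [Nat.cast_one]
    exact Real.one_le_rpow (by linarith) (by norm_num)
  have hQx : (Q : ℝ) ≤ x := hQle.trans (by
    calc x ^ (1/20 : ℝ) ≤ x ^ (1 : ℝ) := Real.rpow_le_rpow_of_exponent_le (by linarith) (by norm_num)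
      _ = x := Real.rpow_one x)
  have hQ20 : (Q : ℝ) ^ 20 ≤ x := by
    calc (Q : ℝ) ^ 20 ≤ (x ^ (1/20 : ℝ)) ^ 20 := by gcongr
      _ = x := by
        rw [← Real.rpow_natCast, ← Real.rpow_mul (by linarith)]
        norm_num
  obtain ⟨G, hG0, hG1, hG2⟩ := hprim Q x hx3 hQ1 hQ20
  set Q0 := ⌈L ^ (A + 7)⌉₊ with hQ0def
  have hLp : 1 ≤ L ^ (A + 7) := one_le_pow₀ hL1
  have hQ0ge : L ^ (A + 7) ≤ Q0 := Nat.le_ceil _
  have hQ0le : (Q0 : ℝ) ≤ 2 * L ^ (A + 7) := by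
    have := Nat.ceil_lt_add_one (show 0 ≤ L ^ (A + 7) by positivity)
    rw [← hQ0def] at this
    linarith
  have hQ01 : 1 ≤ Q0 := by
    have : (1:ℝ) ≤ Q0 := hLp.trans hQ0ge
    exact_mod_cast this
  set c := C2 * x ^ 2 / L ^ (2 * (A + 7) + 1 + A) with hc
  set P := C3 * x ^ 2 / L ^ (A + 1) with hP
  have hL0 : 0 < L := by linarith
  have hc0 : 0 ≤ c := by positivity
  have hP0 : 0 ≤ P := by positivity
  refine ⟨Er G Q0 c P (4 * x * L ^ 2), Er_nonneg hG0 Q0 hc0 hP0 (by positivity), ?_, ?_⟩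
  · refine (sum_Er hG0 hQ01 hc0 hG2).trans ?_
    have hS : ∑ m ∈ Finset.Icc 1 Q, 1 / (m.totient : ℝ) ≤ C4 * (2 * L) := by
      refine (htot Q hQ1).trans ?_
      have : Real.log Q ≤ L := Real.log_le_log (by exact_mod_cast hQ1) hQx
      gcongr
      linarith
    have hlogQ : Real.log (Q + 2) ≤ 2 * L := by
      have h1 : (Q : ℝ) + 2 ≤ x ^ 2 := by nlinarith
      calc Real.log (Q + 2) ≤ Real.log (x ^ 2) := Real.log_le_log (by positivity) h1
        _ = 2 * L := by rw [Real.log_pow, ← hL]; norm_num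
    have h1 : (∑ m ∈ Finset.Icc 1 Q, 1 / (m.totient : ℝ)) * P ≤ 2 * C4 * C3 * x ^ 2 / L ^ A := by
      calc (∑ m ∈ Finset.Icc 1 Q, 1 / (m.totient : ℝ)) * P ≤ C4 * (2 * L) * P := by gcongr
        _ = 2 * C4 * C3 * x ^ 2 / L ^ A := by
          rw [hP]
          field_simp
          ring
    have h2 : (Q : ℝ) * (4 * x * L ^ 2) ≤ 4 * x ^ 2 / L ^ A := by
      rw [le_div_iff₀ (by positivity)]
      calc (Q : ℝ) * (4 * x * L ^ 2) * L ^ A ≤ x ^ (1/20 : ℝ) * (4 * x * L ^ 2) * L ^ A := by gcongr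
        _ ≤ x ^ (1/20 : ℝ) * (4 * x * L ^ (A + 2)) * L ^ A := by
          gcongr
          omega
        _ = 4 * x * (L ^ (A + 2) * L ^ A * x ^ (1/20 : ℝ)) := by ring
        _ ≤ 4 * x * x := by gcongr
        _ = 4 * x ^ 2 := by ring
    have h3 : c * Q0 ^ 2 ≤ 4 * C2 * x ^ 2 / L ^ (A + 1) := by
      calc c * (Q0 : ℝ) ^ 2 ≤ c * (2 * L ^ (A + 7)) ^ 2 := by gcongr
        _ = 4 * C2 * x ^ 2 / L ^ (A + 1) := by
          rw [hc]
          have : L ^ (2 * (A + 7) + 1 + A) = (L ^ (A + 7)) ^ 2 * L ^ (A + 1) := by ring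
          rw [this]
          field_simp
          ring
    have h4 : 3 * Real.log (Q + 2) / Q0 * (C1 * x ^ 2 * L ^ 5) ≤ 6 * C1 * x ^ 2 / L ^ (A + 1) := by
      have hlog0 : 0 ≤ Real.log ((Q:ℝ) + 2) := Real.log_nonneg (by
        have : (0:ℝ) ≤ Q := Nat.cast_nonneg Q
        linarith)
      calc 3 * Real.log (Q + 2) / Q0 * (C1 * x ^ 2 * L ^ 5)
          ≤ 3 * (2 * L) / L ^ (A + 7) * (C1 * x ^ 2 * L ^ 5) := by gcongr
        _ = 6 * C1 * x ^ 2 / L ^ (A + 1) := by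
          have : L ^ (A + 7) = L ^ 6 * L ^ (A + 1) := by ring
          rw [this]
          field_simp
          ring
    have h5 : (∑ m ∈ Finset.Icc 1 Q, 1 / (m.totient : ℝ)) *
        (c * Q0 ^ 2 + 3 * Real.log (Q + 2) / Q0 * (C1 * x ^ 2 * L ^ 5)) ≤
        2 * C4 * (4 * C2 + 6 * C1) * x ^ 2 / L ^ A := by
      have hS0 : 0 ≤ ∑ m ∈ Finset.Icc 1 Q, 1 / (m.totient : ℝ) :=
        Finset.sum_nonneg fun _ _ => by positivity
      calc _ ≤ C4 * (2 * L) * (4 * C2 * x ^ 2 / L ^ (A + 1) + 6 * C1 * x ^ 2 / L ^ (A + 1)) := by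
            have h6 := add_le_add h3 h4
            have h7 : 0 ≤ 4 * C2 * x ^ 2 / L ^ (A + 1) + 6 * C1 * x ^ 2 / L ^ (A + 1) := by positivity
            exact (mul_le_mul_of_nonneg_left h6 hS0).trans (mul_le_mul_of_nonneg_right hS h7)
        _ = _ := by
          field_simp
          ring
    calc _ ≤ 2 * C4 * C3 * x ^ 2 / L ^ A + 4 * x ^ 2 / L ^ A +
          2 * C4 * (4 * C2 + 6 * C1) * x ^ 2 / L ^ A := add_le_add (add_le_add h1 h2) h5
      _ = _ := by ring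
  · intro q hq a ha y hy hyx
    refine RSap_le_Er (Q := Q) (fun q _ χ h1 h2 y h3 h4 => hG1 q χ h1 h2 y h3 h4)
      (fun q _ χ h1 y h2 h3 => ?_) (fun q _ h1 y h2 h3 => hprinc q x hx3 h1 y h2 h3) hQx hq a ha hy hyx
    have := hsmall q χ h1 x hx3 y h2 h3
    rw [hc]
    calc _ ≤ C2 * q * x ^ 2 / L ^ (2 * (A + 7) + 1 + A) := this
      _ = _ := by ring

end Pool.Agent.Lib.BV
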