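import Pool.Agent.Lib.SW.Defs

/-!
# Weak Bombieri-Vinogradov theorem: definitions

Level of distribution x^(1/20) is enough for us; the large sieve is the trivial one (duality and
incomplete character sums bounded by the modulus).
-/

open Complex

namespace Pool.Agent.Lib.BV

open Pool.Agent.Lib.SW
open scoped Classical in
/-- Sum over the primitive characters of the moduli `1, ..., Q`. -/
noncomputable def primSum (Q : ℕ) (F : (q : ℕ) → DirichletCharacter ℂ q → ℝ) : ℝ :=
  ∑ q ∈ Finset.range Q, ∑ χ : DirichletCharacter ℂ (q+1), if χ.IsPrimitive then F (q+1) χ else 0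

/-- `y` times the Riesz mean: `∑_{n ≤ y} f n (y - n)`. -/
noncomputable def RS (f : ℕ → ℂ) (y : ℝ) : ℂ :=
  ∑ n ∈ Finset.Icc 1 ⌊y⌋₊, f n * ((y - n : ℝ) : ℂ)

/-- The same in an arithmetic progression, for the von Mangoldt function. -/
noncomputable def RSap (y : ℝ) (q a : ℕ) : ℝ :=
  ∑ n ∈ (Finset.Icc 1 ⌊y⌋₊).filter (fun n => n ≡ a [MOD q]),
    ArithmeticFunction.vonMangoldt n * (y - n)

open scoped Classical in
/-- `Λ` restricted to `n ≤ U`. -/
noncomputable def LU (U : ℕ) : ArithmeticFunction ℝ :=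
  ⟨fun n => if n ≤ U then ArithmeticFunction.vonMangoldt n else 0, by simp⟩

open scoped Classical in
/-- `μ` restricted to `n ≤ V`. -/
noncomputable def muV (V : ℕ) : ArithmeticFunction ℝ :=
  ⟨fun n => if n ≤ V then (ArithmeticFunction.moebius n : ℝ) else 0, by simp⟩

/-- `Λ` restricted to `n > U`. -/
noncomputable def alphaU (U : ℕ) : ArithmeticFunction ℝ := ArithmeticFunction.vonMangoldt - LU U

/-- The second factor of the bilinear part of Vaughan's identity. -/
noncomputable def betaV (V : ℕ) : ArithmeticFunction ℝ :=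
  1 - muV V * (ArithmeticFunction.zeta : ArithmeticFunction ℝ)

lemma primSum_mono {Q : ℕ} {F G : (q : ℕ) → DirichletCharacter ℂ q → ℝ}
    (h : ∀ q χ, F q χ ≤ G q χ) : primSum Q F ≤ primSum Q G := by
  unfold primSum
  refine Finset.sum_le_sum fun q _ => Finset.sum_le_sum fun χ _ => ?_
  split_ifs
  · exact h _ _
  · exact le_refl _

lemma primSum_nonneg {Q : ℕ} {F : (q : ℕ) → DirichletCharacter ℂ q → ℝ}
    (h : ∀ q χ, 0 ≤ F q χ) : 0 ≤ primSum Q F := by
  unfold primSum
  refine Finset.sum_nonneg fun q _ => Finset.sum_nonneg fun χ _ => ?_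
  split_ifs
  · exact h _ _
  · exact le_refl _

lemma primSum_add {Q : ℕ} (F G : (q : ℕ) → DirichletCharacter ℂ q → ℝ) :
    primSum Q (fun q χ => F q χ + G q χ) = primSum Q F + primSum Q G := by
  unfold primSum
  rw [← Finset.sum_add_distrib]
  refine Finset.sum_congr rfl fun q _ => ?_
  rw [← Finset.sum_add_distrib]
  refine Finset.sum_congr rfl fun χ _ => ?_
  split_ifs <;> simp

lemma primSum_le {Q Q' : ℕ} (hQ : Q ≤ Q') {F : (q : ℕ) → DirichletCharacter ℂ q → ℝ}
    (h : ∀ q χ, 0 ≤ F q χ) : primSum Q F ≤ primSum Q' F := by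
  unfold primSum
  refine Finset.sum_le_sum_of_subset_of_nonneg (by
    intro a ha; simp only [Finset.mem_range] at *; omega) fun q _ _ => ?_
  refine Finset.sum_nonneg fun χ _ => ?_
  split_ifs
  · exact h _ _
  · exact le_refl _

end Pool.Agent.Lib.BV
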