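import Mathlib

/-!
# Separation of variables in a Riesz mean over products

PROOF SKETCH. For u > 0: (1-u)_+ = (1/2π) int u^(-(1+it)) / ((1+it)(2+it)) dt (Mellin inversion of
the Mellin transform 1/(s(s+1)) of (1-u)_+ at σ = 1; this is in Pool/Agent/Lib/SW/Riesz.lean, which
may be imported). Put u = mn/y, multiply by α_m β_n and sum over the finite sets: the double sum
factorises under the integral, and |y^(1+it)| = y. So
y sum α_m β_n (1 - mn/y)_+ = (y^2/2π) int A(t) B(t) (y^(it)) / ((1+it)(2+it)) dt.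
The integrand is continuous and dominated by C / (|1+it| |2+it|), integrable.
-/

open Complex MeasureTheory Set Filter Topology

namespace Pool.Agent.Lib.BV

/-- The function `(1-u)_+` for positive `u`. -/
private noncomputable def kff : ℝ → ℂ := fun u =>
  indicator (Ioc 0 1) (fun _ => (1:ℂ)) u - indicator (Ioc 0 1) (fun t : ℝ => (t : ℂ) ^ (1:ℂ)) u

private lemma kff_mellin {s : ℂ} (hs : 0 < s.re) : HasMellin kff s (1 / s - 1 / (s + 1)) := by
  have h1 := hasMellin_one_Ioc hs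
  have h2 := hasMellin_cpow_Ioc 1 (s := s) (by simp; linarith)
  have h3 := hasMellin_sub h1.1 h2.1
  rw [h1.2, h2.2] at h3
  exact h3

private lemma kff_apply {u : ℝ} (hu : 0 < u) : kff u = ((max (1-u) 0 : ℝ) : ℂ) := by
  unfold kff
  by_cases h : u ≤ 1
  · have hm : u ∈ Ioc (0:ℝ) 1 := ⟨hu, h⟩
    rw [indicator_of_mem hm, indicator_of_mem hm, cpow_one, max_eq_left (by linarith)]
    push_cast
    ring
  · have hm : u ∉ Ioc (0:ℝ) 1 := fun h' => h h'.2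
    rw [indicator_of_notMem hm, indicator_of_notMem hm, max_eq_right (by linarith)]
    simp

private lemma kff_cont {u : ℝ} (hu : 0 < u) : ContinuousAt kff u := by
  have h1 : kff =ᶠ[𝓝 u] fun u => ((max (1-u) 0 : ℝ) : ℂ) := by
    filter_upwards [lt_mem_nhds hu] with v hv
    exact kff_apply hv
  refine ContinuousAt.congr ?_ h1.symm
  fun_prop

private lemma ks_ne (t : ℝ) : (1:ℂ) + t * I ≠ 0 := by
  intro h
  have : ((1:ℂ) + t * I).re = 0 := by rw [h]; simp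
  simp at this

private lemma ks1_ne (t : ℝ) : (2:ℂ) + t * I ≠ 0 := by
  intro h
  have : ((2:ℂ) + t * I).re = 0 := by rw [h]; simp
  simp at this

/-- The Mellin transform on the line. -/
private noncomputable def kV (t : ℝ) : ℂ := 1 / (((1:ℂ) + t * I) * ((2:ℂ) + t * I))

private lemma kV_eq (t : ℝ) : (1 / ((1:ℂ) + t * I) - 1 / ((1:ℂ) + t * I + 1)) = kV t := by
  unfold kV
  have h1 := ks_ne t
  have h2 := ks1_ne t
  have h3 : (1:ℂ) + t * I + 1 = 2 + t * I := by ring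
  rw [h3]
  field_simp
  ring

private lemma kV_norm (t : ℝ) : ‖kV t‖ = 1 / (‖(1:ℂ) + t * I‖ * ‖(2:ℂ) + t * I‖) := by
  unfold kV
  rw [norm_div, norm_one, norm_mul]

private lemma kV_cont : Continuous kV := by
  unfold kV
  refine Continuous.div continuous_const (by fun_prop) fun t => mul_ne_zero (ks_ne t) (ks1_ne t)

private lemma kV_le (t : ℝ) : ‖kV t‖ ≤ (1 + t ^ 2)⁻¹ := by
  rw [kV_norm, one_div]
  apply inv_anti₀ (by positivity)
  have h2 : √(1 + t ^ 2) ≤ ‖(1:ℂ) + t * I‖ := by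
    rw [Complex.norm_eq_sqrt_sq_add_sq]
    apply Real.sqrt_le_sqrt
    simp
  have h3 : √(1 + t ^ 2) ≤ ‖(2:ℂ) + t * I‖ := by
    rw [Complex.norm_eq_sqrt_sq_add_sq]
    apply Real.sqrt_le_sqrt
    simp
  calc 1 + t ^ 2 = √(1 + t ^ 2) * √(1 + t ^ 2) := (Real.mul_self_sqrt (by positivity)).symm
    _ ≤ ‖(1:ℂ) + t * I‖ * ‖(2:ℂ) + t * I‖ := mul_le_mul h2 h3 (Real.sqrt_nonneg _) (norm_nonneg _)

private lemma kV_int : Integrable kV :=
  integrable_inv_one_add_sq.mono' kV_cont.aestronglyMeasurable (Eventually.of_forall kV_le)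

private lemma kinversion {u : ℝ} (hu : 0 < u) :
    ((max (1-u) 0 : ℝ) : ℂ) = (1 / (2 * Real.pi) : ℝ) •
      ∫ t : ℝ, (u:ℂ) ^ (-((1:ℂ) + t * I)) * kV t := by
  have hm : ∀ t : ℝ, mellin kff (((1:ℝ):ℂ) + t * I) = kV t := by
    intro t
    rw [(kff_mellin (s := ((1:ℝ):ℂ) + t * I) (by simp)).2, ← kV_eq t]
    simp
  have hv : VerticalIntegrable (mellin kff) 1 := by
    unfold VerticalIntegrable
    simp_rw [hm]
    exact kV_int
  have hc : MellinConvergent kff ((1:ℝ):ℂ) := (kff_mellin (by simp)).1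
  have h := mellinInv_mellin_eq 1 kff hu hc hv (kff_cont hu)
  rw [kff_apply hu] at h
  rw [← h, mellinInv]
  simp_rw [hm]
  simp only [ofReal_one, smul_eq_mul]

theorem kernel_bound (S T : Finset ℕ) (hS : ∀ m ∈ S, 1 ≤ m) (hT : ∀ n ∈ T, 1 ≤ n)
    (α β : ℕ → ℂ) (y : ℝ) (hy : 0 < y) :
    ‖∑ m ∈ S, ∑ n ∈ T, α m * β n * ((max (y - m * n) 0 : ℝ) : ℂ)‖ ≤
      y ^ 2 * ∫ t : ℝ, ‖∑ m ∈ S, α m * (m:ℂ) ^ (-(1 + t * I))‖ *
        ‖∑ n ∈ T, β n * (n:ℂ) ^ (-(1 + t * I))‖ / (‖(1:ℂ) + t * I‖ * ‖(2:ℂ) + t * I‖) := by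
  have hpi := Real.pi_pos
  -- the integrand for one pair
  let F : ℕ → ℕ → ℝ → ℂ := fun m n t =>
    α m * β n * ((((m:ℝ) * n / y : ℝ) : ℂ) ^ (-((1:ℂ) + t * I)) * kV t)
  have hre : ∀ t : ℝ, (-((1:ℂ) + t * I)).re = -1 := fun t => by simp
  have hpos : ∀ m ∈ S, ∀ n ∈ T, 0 < (m:ℝ) * n / y := by
    intro m hm n hn
    have h1 : (0:ℝ) < m := by exact_mod_cast hS m hm
    have h2 : (0:ℝ) < n := by exact_mod_cast hT n hn
    positivity
  have hFi : ∀ m ∈ S, ∀ n ∈ T, Integrable (F m n) := by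
    intro m hm n hn
    have hp := hpos m hm n hn
    refine Integrable.const_mul ?_ _
    refine (kV_int.norm.const_mul (((m:ℝ) * n / y) ^ (-1:ℝ))).mono' ?_
      (Eventually.of_forall fun t => ?_)
    · refine (Continuous.mul ?_ kV_cont).aestronglyMeasurable
      refine Continuous.const_cpow (by fun_prop) (Or.inl ?_)
      exact_mod_cast hp.ne'
    · rw [norm_mul, norm_cpow_eq_rpow_re_of_pos hp, hre]
  have hterm : ∀ m ∈ S, ∀ n ∈ T, α m * β n * ((max (y - m * n) 0 : ℝ) : ℂ) =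
      ((y / (2 * Real.pi) : ℝ) : ℂ) * ∫ t, F m n t := by
    intro m hm n hn
    have hp := hpos m hm n hn
    have e1 : (max (y - m * n) 0 : ℝ) = y * max (1 - (m:ℝ) * n / y) 0 := by
      rw [mul_max_of_nonneg _ _ hy.le, mul_zero]
      congr 1
      field_simp
    have e2 : ∫ t, F m n t = α m * β n *
        ∫ t : ℝ, (((m:ℝ) * n / y : ℝ) : ℂ) ^ (-((1:ℂ) + t * I)) * kV t := by
      rw [← integral_const_mul]
    have e3 := kinversion hp
    rw [Complex.real_smul] at e3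
    rw [e1, e2, Complex.ofReal_mul, e3]
    push_cast
    ring
  have hsum : ∑ m ∈ S, ∑ n ∈ T, α m * β n * ((max (y - m * n) 0 : ℝ) : ℂ) =
      ((y / (2 * Real.pi) : ℝ) : ℂ) * ∫ t, ∑ m ∈ S, ∑ n ∈ T, F m n t := by
    rw [integral_finsetSum _ (fun m hm => integrable_finsetSum _ fun n hn => hFi m hm n hn),
      Finset.mul_sum]
    refine Finset.sum_congr rfl fun m hm => ?_
    rw [integral_finsetSum _ (fun n hn => hFi m hm n hn), Finset.mul_sum]
    exact Finset.sum_congr rfl fun n hn => hterm m hm n hn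
  have hpt : ∀ t : ℝ, ∑ m ∈ S, ∑ n ∈ T, F m n t =
      (y:ℂ) ^ ((1:ℂ) + t * I) * ((∑ m ∈ S, α m * (m:ℂ) ^ (-(1 + t * I))) *
        (∑ n ∈ T, β n * (n:ℂ) ^ (-(1 + t * I)))) * kV t := by
    intro t
    rw [Finset.sum_mul_sum, Finset.mul_sum, Finset.sum_mul]
    refine Finset.sum_congr rfl fun m hm => ?_
    rw [Finset.mul_sum, Finset.sum_mul]
    refine Finset.sum_congr rfl fun n hn => ?_
    have e2 : ((((m:ℝ) * n / y : ℝ)) : ℂ) =
        (((m:ℝ) : ℝ) : ℂ) * ((((n:ℝ) : ℝ) : ℂ) * ((y⁻¹ : ℝ) : ℂ)) := by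
      push_cast
      rw [div_eq_mul_inv, mul_assoc]
    have e3 : ((y⁻¹ : ℝ) : ℂ) ^ (-((1:ℂ) + t * I)) = (y:ℂ) ^ ((1:ℂ) + t * I) := by
      push_cast
      rw [inv_cpow, cpow_neg, inv_inv]
      rw [Complex.arg_ofReal_of_nonneg hy.le]
      exact Real.pi_pos.ne
    have e4 : ((((m:ℝ) * n / y : ℝ)) : ℂ) ^ (-((1:ℂ) + t * I)) =
        (m:ℂ) ^ (-((1:ℂ) + t * I)) * ((n:ℂ) ^ (-((1:ℂ) + t * I)) * (y:ℂ) ^ ((1:ℂ) + t * I)) := by
      rw [e2]
      have h1 : (((n:ℝ) : ℝ) : ℂ) * ((y⁻¹ : ℝ) : ℂ) = (((n:ℝ) * y⁻¹ : ℝ) : ℂ) := by push_cast; ring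
      rw [h1, mul_cpow_ofReal_nonneg (by positivity) (by positivity), ← h1,
        mul_cpow_ofReal_nonneg (by positivity) (by positivity), e3]
      push_cast
      ring
    show α m * β n * (((((m:ℝ) * n / y : ℝ)) : ℂ) ^ (-((1:ℂ) + t * I)) * kV t) = _
    rw [e4]
    ring
  have hyn : ∀ t : ℝ, ‖(y:ℂ) ^ ((1:ℂ) + t * I)‖ = y := by
    intro t
    rw [norm_cpow_eq_rpow_re_of_pos hy]
    simp
  rw [hsum, norm_mul]
  have h2 : ‖∫ t, ∑ m ∈ S, ∑ n ∈ T, F m n t‖ ≤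
      y * ∫ t : ℝ, ‖∑ m ∈ S, α m * (m:ℂ) ^ (-(1 + t * I))‖ *
        ‖∑ n ∈ T, β n * (n:ℂ) ^ (-(1 + t * I))‖ / (‖(1:ℂ) + t * I‖ * ‖(2:ℂ) + t * I‖) := by
    rw [← integral_const_mul]
    refine (norm_integral_le_integral_norm _).trans (le_of_eq ?_)
    refine integral_congr_ae (Eventually.of_forall fun t => ?_)
    show ‖∑ m ∈ S, ∑ n ∈ T, F m n t‖ = _
    rw [hpt, norm_mul, norm_mul, norm_mul, hyn, kV_norm]
    ring
  have h3 : ‖((y / (2 * Real.pi) : ℝ) : ℂ)‖ ≤ y := by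
    rw [Complex.norm_real, Real.norm_of_nonneg (by positivity)]
    rw [div_le_iff₀ (by positivity)]
    have : 3 < Real.pi := Real.pi_gt_three
    nlinarith
  calc _ ≤ y * (y * ∫ t : ℝ, ‖∑ m ∈ S, α m * (m:ℂ) ^ (-(1 + t * I))‖ *
        ‖∑ n ∈ T, β n * (n:ℂ) ^ (-(1 + t * I))‖ / (‖(1:ℂ) + t * I‖ * ‖(2:ℂ) + t * I‖)) :=
        mul_le_mul h3 h2 (norm_nonneg _) hy.le
    _ = _ := by ring

theorem kernel_integrable : Integrable (fun t : ℝ => 1 / (‖(1:ℂ) + t * I‖ * ‖(2:ℂ) + t * I‖)) := by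
  refine kV_int.norm.congr (Eventually.of_forall fun t => ?_)
  exact kV_norm t

end Pool.Agent.Lib.BV
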