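import Pool.Agent.Lib.BV.Defs
import Pool.Agent.Lib.SW.CharUpper

/-!
# The trivial large sieve for primitive characters, with weights 1/n

Duality, and bounds for incomplete sums of nonprincipal characters.
-/

open Complex

namespace Pool.Agent.Lib.BV

open Pool.Agent.Lib.SW

/-- Duality. -/
lemma ls_duality {ι : Type*} (I : Finset ι) (N : Finset ℕ) (w : ℕ → ℝ) (hw : ∀ n ∈ N, 0 ≤ w n)
    (f : ι → ℕ → ℂ) (Δ : ℝ) (hΔ : 0 ≤ Δ)
    (h : ∀ c : ι → ℂ, ∑ n ∈ N, w n * ‖∑ i ∈ I, c i * f i n‖ ^ 2 ≤ Δ * ∑ i ∈ I, ‖c i‖ ^ 2)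
    (a : ℕ → ℂ) :
    ∑ i ∈ I, ‖∑ n ∈ N, ((w n : ℝ) : ℂ) * a n * f i n‖ ^ 2 ≤ Δ * ∑ n ∈ N, w n * ‖a n‖ ^ 2 := by
  set S : ι → ℂ := fun i => ∑ n ∈ N, ((w n : ℝ) : ℂ) * a n * f i n with hS
  set c : ι → ℂ := fun i => (starRingEnd ℂ) (S i) with hc
  set G : ℕ → ℂ := fun n => ∑ i ∈ I, c i * f i n with hG
  set T : ℝ := ∑ i ∈ I, ‖S i‖ ^ 2 with hT
  set A : ℝ := ∑ n ∈ N, w n * ‖a n‖ ^ 2 with hA
  have hA0 : 0 ≤ A := Finset.sum_nonneg fun n hn => mul_nonneg (hw n hn) (sq_nonneg _)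
  have hT0 : 0 ≤ T := Finset.sum_nonneg fun i _ => sq_nonneg _
  have h1 : (T : ℂ) = ∑ n ∈ N, ((w n : ℝ) : ℂ) * a n * G n := by
    have e1 : (T : ℂ) = ∑ i ∈ I, c i * S i := by
      rw [hT]; push_cast
      refine Finset.sum_congr rfl fun i _ => ?_
      rw [hc]; simp only
      rw [Complex.conj_mul']
    rw [e1]
    simp only [hS, hG, Finset.mul_sum]
    rw [Finset.sum_comm]
    refine Finset.sum_congr rfl fun n _ => Finset.sum_congr rfl fun i _ => ?_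
    ring
  have h2 : T ≤ ∑ n ∈ N, (Real.sqrt (w n) * ‖a n‖) * (Real.sqrt (w n) * ‖G n‖) := by
    have e2 : T = ‖(T : ℂ)‖ := by rw [Complex.norm_real, Real.norm_of_nonneg hT0]
    rw [e2, h1]
    refine (norm_sum_le _ _).trans (Finset.sum_le_sum fun n hn => ?_)
    rw [norm_mul, norm_mul, Complex.norm_real, Real.norm_of_nonneg (hw n hn)]
    have hsq := Real.mul_self_sqrt (hw n hn)
    refine le_of_eq ?_
    calc w n * ‖a n‖ * ‖G n‖ = (Real.sqrt (w n) * Real.sqrt (w n)) * ‖a n‖ * ‖G n‖ := by rw [hsq]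
      _ = _ := by ring
  have h3 := Finset.sum_mul_sq_le_sq_mul_sq N (fun n => Real.sqrt (w n) * ‖a n‖)
    (fun n => Real.sqrt (w n) * ‖G n‖)
  have h4 : ∑ n ∈ N, (Real.sqrt (w n) * ‖a n‖) ^ 2 = A := by
    refine Finset.sum_congr rfl fun n hn => ?_
    rw [mul_pow, Real.sq_sqrt (hw n hn)]
  have h5 : ∑ n ∈ N, (Real.sqrt (w n) * ‖G n‖) ^ 2 ≤ Δ * T := by
    have e : ∑ n ∈ N, (Real.sqrt (w n) * ‖G n‖) ^ 2 = ∑ n ∈ N, w n * ‖G n‖ ^ 2 := by
      refine Finset.sum_congr rfl fun n hn => ?_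
      rw [mul_pow, Real.sq_sqrt (hw n hn)]
    rw [e]
    refine (h c).trans (le_of_eq ?_)
    congr 1
    refine Finset.sum_congr rfl fun i _ => ?_
    simp only [hc, RCLike.norm_conj]
  have h6 : T ^ 2 ≤ A * (Δ * T) := by
    calc T ^ 2 ≤ (∑ n ∈ N, (Real.sqrt (w n) * ‖a n‖) * (Real.sqrt (w n) * ‖G n‖)) ^ 2 :=
          pow_le_pow_left₀ hT0 h2 2
      _ ≤ (∑ n ∈ N, (Real.sqrt (w n) * ‖a n‖) ^ 2) *
            ∑ n ∈ N, (Real.sqrt (w n) * ‖G n‖) ^ 2 := h3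
      _ ≤ A * (Δ * T) := by
          rw [h4]; exact mul_le_mul_of_nonneg_left h5 hA0
  rcases hT0.eq_or_lt with h0 | h0
  · rw [← h0]; positivity
  · have : T * T ≤ (Δ * A) * T := by nlinarith
    exact le_of_mul_le_mul_right this h0

/-- From bounds on the correlations to the dual inequality. -/
lemma ls_dual_of_corr {ι : Type*} [DecidableEq ι] (I : Finset ι) (N : Finset ℕ) (w : ℕ → ℝ)
    (f : ι → ℕ → ℂ) (D B : ℝ) (hB : 0 ≤ B)
    (hdiag : ∀ i ∈ I, ‖∑ n ∈ N, ((w n : ℝ) : ℂ) * (f i n * (starRingEnd ℂ) (f i n))‖ ≤ D)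
    (hoff : ∀ i ∈ I, ∀ j ∈ I, i ≠ j →
      ‖∑ n ∈ N, ((w n : ℝ) : ℂ) * (f i n * (starRingEnd ℂ) (f j n))‖ ≤ B) (c : ι → ℂ) :
    ∑ n ∈ N, w n * ‖∑ i ∈ I, c i * f i n‖ ^ 2 ≤ (D + B * I.card) * ∑ i ∈ I, ‖c i‖ ^ 2 := by
  set E : ι → ι → ℂ := fun i j => ∑ n ∈ N, ((w n : ℝ) : ℂ) * (f i n * (starRingEnd ℂ) (f j n))
    with hE
  have h1 : ((∑ n ∈ N, w n * ‖∑ i ∈ I, c i * f i n‖ ^ 2 : ℝ) : ℂ) =
      ∑ i ∈ I, ∑ j ∈ I, c i * (starRingEnd ℂ) (c j) * E i j := by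
    push_cast
    have e1 : ∀ n ∈ N, ((w n : ℝ) : ℂ) * ((‖∑ i ∈ I, c i * f i n‖ : ℝ) : ℂ) ^ 2 =
        ∑ i ∈ I, ∑ j ∈ I, c i * (starRingEnd ℂ) (c j) *
          (((w n : ℝ) : ℂ) * (f i n * (starRingEnd ℂ) (f j n))) := by
      intro n _
      rw [← Complex.mul_conj', map_sum, Finset.sum_mul_sum, Finset.mul_sum]
      refine Finset.sum_congr rfl fun i _ => ?_
      rw [Finset.mul_sum]
      refine Finset.sum_congr rfl fun j _ => ?_
      rw [map_mul]; ring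
    rw [Finset.sum_congr rfl e1, Finset.sum_comm]
    refine Finset.sum_congr rfl fun i _ => ?_
    rw [Finset.sum_comm]
    refine Finset.sum_congr rfl fun j _ => ?_
    rw [hE, Finset.mul_sum]
  have h2 : (∑ n ∈ N, w n * ‖∑ i ∈ I, c i * f i n‖ ^ 2 : ℝ) ≤
      ∑ i ∈ I, ∑ j ∈ I, ‖c i‖ * ‖c j‖ * ‖E i j‖ := by
    have : (∑ n ∈ N, w n * ‖∑ i ∈ I, c i * f i n‖ ^ 2 : ℝ) ≤
        ‖((∑ n ∈ N, w n * ‖∑ i ∈ I, c i * f i n‖ ^ 2 : ℝ) : ℂ)‖ := by
      rw [Complex.norm_real]; exact Real.le_norm_self _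
    refine this.trans ?_
    rw [h1]
    refine (norm_sum_le _ _).trans (Finset.sum_le_sum fun i _ => ?_)
    refine (norm_sum_le _ _).trans (Finset.sum_le_sum fun j _ => ?_)
    rw [norm_mul, norm_mul, RCLike.norm_conj]
  have h3 : ∀ i ∈ I, ∀ j ∈ I, ‖c i‖ * ‖c j‖ * ‖E i j‖ ≤
      (if i = j then ‖c i‖ ^ 2 * D else 0) + ‖c i‖ * ‖c j‖ * B := by
    intro i hi j hj
    have hcc : 0 ≤ ‖c i‖ * ‖c j‖ := by positivity
    split_ifs with hij
    · subst hij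
      have := mul_le_mul_of_nonneg_left (hdiag i hi) hcc
      have h4 : 0 ≤ ‖c i‖ * ‖c i‖ * B := mul_nonneg hcc hB
      nlinarith
    · have := mul_le_mul_of_nonneg_left (hoff i hi j hj hij) hcc
      linarith
  refine h2.trans ((Finset.sum_le_sum fun i hi => Finset.sum_le_sum fun j hj => h3 i hi j hj).trans
    ?_)
  have h4 : ∑ i ∈ I, ∑ j ∈ I, ((if i = j then ‖c i‖ ^ 2 * D else 0) + ‖c i‖ * ‖c j‖ * B) =
      D * ∑ i ∈ I, ‖c i‖ ^ 2 + B * (∑ i ∈ I, ‖c i‖) ^ 2 := by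
    have e1 : ∀ i ∈ I, ∑ j ∈ I, ((if i = j then ‖c i‖ ^ 2 * D else 0) + ‖c i‖ * ‖c j‖ * B) =
        ‖c i‖ ^ 2 * D + ‖c i‖ * B * ∑ j ∈ I, ‖c j‖ := by
      intro i hi
      rw [Finset.sum_add_distrib, Finset.sum_ite_eq, if_pos hi, Finset.mul_sum]
      congr 1
      refine Finset.sum_congr rfl fun j _ => ?_
      ring
    rw [Finset.sum_congr rfl e1, Finset.sum_add_distrib, ← Finset.sum_mul, ← Finset.sum_mul,
      ← Finset.sum_mul]
    ring
  rw [h4]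
  have h5 : (∑ i ∈ I, ‖c i‖) ^ 2 ≤ I.card * ∑ i ∈ I, ‖c i‖ ^ 2 := sq_sum_le_card_mul_sum_sq
  have := mul_le_mul_of_nonneg_left h5 hB
  nlinarith

/-- Partial summation with weights `1/n`. -/
lemma ls_partial (u : ℕ → ℂ) (N0 X : ℕ) (M : ℝ)
    (hM : ∀ m, ‖∑ n ∈ Finset.Ioc N0 m, u n‖ ≤ M) :
    ‖∑ n ∈ Finset.Ioc N0 X, (((1:ℝ) / n : ℝ) : ℂ) * u n‖ ≤ M / (N0 + 1) := by
  have hM0 : 0 ≤ M := (norm_nonneg _).trans (hM N0)
  -- identity by induction
  have key : ∀ k : ℕ, ∑ n ∈ Finset.Ioc N0 (N0 + k), (((1:ℝ) / n : ℝ) : ℂ) * u n =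
      (((1:ℝ) / ((N0 + k + 1 : ℕ) : ℝ) : ℝ) : ℂ) * (∑ n ∈ Finset.Ioc N0 (N0 + k), u n) +
      ∑ j ∈ Finset.range k, ((((1:ℝ) / ((N0 + j + 1 : ℕ) : ℝ) -
        (1:ℝ) / ((N0 + j + 1 + 1 : ℕ) : ℝ) : ℝ)) : ℂ) *
        (∑ n ∈ Finset.Ioc N0 (N0 + j + 1), u n) := by
    intro k
    induction k with
    | zero => simp
    | succ k ih =>
      have e : N0 + (k + 1) = N0 + k + 1 := by ring
      rw [e, Finset.sum_range_succ, Finset.sum_Ioc_succ_top (by omega : N0 ≤ N0 + k),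
        Finset.sum_Ioc_succ_top (by omega : N0 ≤ N0 + k), ih]
      push_cast
      ring
  rcases le_or_gt X N0 with hX | hX
  · rw [Finset.Ioc_eq_empty (by omega)]
    simp; positivity
  obtain ⟨k, rfl⟩ : ∃ k, X = N0 + k := ⟨X - N0, by omega⟩
  rw [key k]
  have tel : ∀ k : ℕ, ∑ j ∈ Finset.range k, ((1:ℝ) / ((N0 + j + 1 : ℕ) : ℝ) -
        (1:ℝ) / ((N0 + j + 1 + 1 : ℕ) : ℝ)) =
      (1:ℝ) / ((N0 + 1 : ℕ) : ℝ) - (1:ℝ) / ((N0 + k + 1 : ℕ) : ℝ) := by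
    intro k
    induction k with
    | zero => simp
    | succ k ih =>
      rw [Finset.sum_range_succ, ih]
      have e : N0 + (k + 1) + 1 = N0 + k + 1 + 1 := by ring
      rw [e]; ring
  have hpos : ∀ j : ℕ, 0 ≤ (1:ℝ) / ((N0 + j + 1 : ℕ) : ℝ) - (1:ℝ) / ((N0 + j + 1 + 1 : ℕ) : ℝ) := by
    intro j
    rw [sub_nonneg]
    apply one_div_le_one_div_of_le
    · positivity
    · push_cast; linarith
  calc ‖(((1:ℝ) / ((N0 + k + 1 : ℕ) : ℝ) : ℝ) : ℂ) * (∑ n ∈ Finset.Ioc N0 (N0 + k), u n) +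
      ∑ j ∈ Finset.range k, ((((1:ℝ) / ((N0 + j + 1 : ℕ) : ℝ) -
        (1:ℝ) / ((N0 + j + 1 + 1 : ℕ) : ℝ) : ℝ)) : ℂ) *
        (∑ n ∈ Finset.Ioc N0 (N0 + j + 1), u n)‖
      ≤ (1:ℝ) / ((N0 + k + 1 : ℕ) : ℝ) * M + ∑ j ∈ Finset.range k, ((1:ℝ) / ((N0 + j + 1 : ℕ) : ℝ) -
        (1:ℝ) / ((N0 + j + 1 + 1 : ℕ) : ℝ)) * M := by
        refine (norm_add_le _ _).trans (add_le_add ?_ ?_)
        · rw [norm_mul, Complex.norm_real, Real.norm_of_nonneg (by positivity)]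
          exact mul_le_mul_of_nonneg_left (hM _) (by positivity)
        · refine (norm_sum_le _ _).trans (Finset.sum_le_sum fun j _ => ?_)
          rw [norm_mul, Complex.norm_real, Real.norm_of_nonneg (hpos j)]
          exact mul_le_mul_of_nonneg_left (hM _) (hpos j)
    _ = M / (N0 + 1) := by
        rw [← Finset.sum_mul, tel]
        push_cast
        field_simp
        ring

lemma ls_harm (N0 X : ℕ) :
    ∑ n ∈ Finset.Ioc N0 X, (1:ℝ) / n ≤ Real.log X + 1 := by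
  have h := harmonic_le_one_add_log X
  rw [harmonic_eq_sum_Icc] at h
  push_cast at h
  have h1 : ∑ n ∈ Finset.Ioc N0 X, (1:ℝ) / n ≤ ∑ n ∈ Finset.Icc 1 X, (1:ℝ) / n := by
    apply Finset.sum_le_sum_of_subset_of_nonneg
    · intro n hn
      simp only [Finset.mem_Ioc, Finset.mem_Icc] at *
      omega
    · intro n _ _; positivity
  have h2 : ∑ n ∈ Finset.Icc 1 X, (1:ℝ) / n = ∑ n ∈ Finset.Icc 1 X, ((n:ℝ))⁻¹ :=
    Finset.sum_congr rfl fun n _ => one_div _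
  rw [h2] at h1
  linarith

/-- The product of two lifted characters. -/
lemma ls_pair {q r : ℕ} [NeZero q] [NeZero r] (χ : DirichletCharacter ℂ q)
    (ψ : DirichletCharacter ℂ r) (n : ℕ) :
    (DirichletCharacter.changeLevel (Nat.dvd_mul_right q r) χ *
      (DirichletCharacter.changeLevel (Nat.dvd_mul_left r q) ψ)⁻¹) (n : ZMod (q * r)) =
      χ (n : ZMod q) * (starRingEnd ℂ) (ψ (n : ZMod r)) := by
  have : NeZero (q * r) := ⟨mul_ne_zero (NeZero.ne q) (NeZero.ne r)⟩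
  rw [MulChar.mul_apply]
  have hs : (DirichletCharacter.changeLevel (Nat.dvd_mul_left r q) ψ)⁻¹ (n : ZMod (q * r)) =
      (starRingEnd ℂ) ((DirichletCharacter.changeLevel (Nat.dvd_mul_left r q) ψ)
        (n : ZMod (q * r))) := by
    rw [← MulChar.star_apply']; rfl
  rw [hs]
  by_cases hn : IsCoprime (n : ℤ) ((q * r : ℕ) : ℤ)
  · have e1 := DirichletCharacter.changeLevel_eq_cast_of_dvd' χ (Nat.dvd_mul_right q r) hn
    have e2 := DirichletCharacter.changeLevel_eq_cast_of_dvd' ψ (Nat.dvd_mul_left r q) hn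
    simp only [Int.cast_natCast] at e1 e2
    rw [e1, e2]
  · have h0 : ∀ θ : DirichletCharacter ℂ (q * r), θ (n : ZMod (q * r)) = 0 := by
      intro θ
      have := (DirichletCharacter.apply_eq_zero_iff (χ := θ) (n : ℤ)).2 hn
      simpa using this
    rw [h0, zero_mul]
    have h1 : ¬ (IsCoprime (n : ℤ) (q : ℤ) ∧ IsCoprime (n : ℤ) (r : ℤ)) := by
      rintro ⟨a, b⟩
      apply hn
      push_cast
      exact IsCoprime.mul_right a b
    rcases not_and_or.1 h1 with h | h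
    · have := (DirichletCharacter.apply_eq_zero_iff (χ := χ) (n : ℤ)).2 h
      simp only [Int.cast_natCast] at this
      rw [this, zero_mul]
    · have := (DirichletCharacter.apply_eq_zero_iff (χ := ψ) (n : ℤ)).2 h
      simp only [Int.cast_natCast] at this
      rw [this, map_zero, mul_zero]

lemma ls_ne_one {q r : ℕ} [NeZero q] [NeZero r] (χ : DirichletCharacter ℂ q)
    (ψ : DirichletCharacter ℂ r) (hχ : χ.IsPrimitive) (hψ : ψ.IsPrimitive)
    (hne : (⟨q, χ⟩ : (n : ℕ) × DirichletCharacter ℂ n) ≠ ⟨r, ψ⟩) :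
    DirichletCharacter.changeLevel (Nat.dvd_mul_right q r) χ *
      (DirichletCharacter.changeLevel (Nat.dvd_mul_left r q) ψ)⁻¹ ≠ 1 := by
  have hqr : NeZero (q * r) := ⟨mul_ne_zero (NeZero.ne q) (NeZero.ne r)⟩
  intro h
  rw [mul_inv_eq_one] at h
  have h1 := DirichletCharacter.conductor_changeLevel (χ := χ) (Nat.dvd_mul_right q r)
  have h2 := DirichletCharacter.conductor_changeLevel (χ := ψ) (Nat.dvd_mul_left r q)
  rw [h, h2, hχ, hψ] at h1
  subst h1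
  exact hne (by
    congr 1
    exact DirichletCharacter.changeLevel_injective (Nat.dvd_mul_right r r) h)

lemma ls_corr {q r : ℕ} [NeZero q] [NeZero r] (χ : DirichletCharacter ℂ q)
    (ψ : DirichletCharacter ℂ r) (hχ : χ.IsPrimitive) (hψ : ψ.IsPrimitive)
    (hne : (⟨q, χ⟩ : (n : ℕ) × DirichletCharacter ℂ n) ≠ ⟨r, ψ⟩) (N0 m : ℕ) :
    ‖∑ n ∈ Finset.Ioc N0 m, χ (n : ZMod q) * (starRingEnd ℂ) (ψ (n : ZMod r))‖ ≤
      2 * (q * r) := by
  have hqr : NeZero (q * r) := ⟨mul_ne_zero (NeZero.ne q) (NeZero.ne r)⟩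
  set θ := DirichletCharacter.changeLevel (Nat.dvd_mul_right q r) χ *
      (DirichletCharacter.changeLevel (Nat.dvd_mul_left r q) ψ)⁻¹ with hθ
  have hθ1 : θ ≠ 1 := ls_ne_one χ ψ hχ hψ hne
  have e : ∀ n : ℕ, χ (n : ZMod q) * (starRingEnd ℂ) (ψ (n : ZMod r)) = chf θ n :=
    fun n => (ls_pair χ ψ n).symm
  simp only [e]
  rcases le_or_gt m N0 with hm | hm
  · rw [Finset.Ioc_eq_empty (by omega)]
    simp; positivity
  have h1 : ∑ n ∈ Finset.Ioc N0 m, chf θ n =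
      ∑ n ∈ Finset.Icc 1 m, chf θ n - ∑ n ∈ Finset.Icc 1 N0, chf θ n := by
    have hu : Finset.Icc 1 m = Finset.Icc 1 N0 ∪ Finset.Ioc N0 m := by
      ext x; simp only [Finset.mem_union, Finset.mem_Icc, Finset.mem_Ioc]; omega
    have hd : Disjoint (Finset.Icc 1 N0) (Finset.Ioc N0 m) := by
      rw [Finset.disjoint_left]; intro x; simp only [Finset.mem_Icc, Finset.mem_Ioc]; omega
    rw [hu, Finset.sum_union hd]; ring
  rw [h1]
  have b1 := norm_sum_chf_le θ hθ1 m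
  have b2 := norm_sum_chf_le θ hθ1 N0
  push_cast at b1 b2
  refine (norm_sub_le _ _).trans (by linarith)

theorem large_sieve_weighted (Q N0 X : ℕ) (hN : Q ^ 4 ≤ N0) (hX : 1 ≤ X) (a : ℕ → ℂ) :
    primSum Q (fun q χ => ‖∑ n ∈ Finset.Ioc N0 X, a n / (n:ℂ) * χ (n : ZMod q)‖ ^ 2) ≤
      (Real.log X + 3) * ∑ n ∈ Finset.Ioc N0 X, ‖a n‖ ^ 2 / n := by
  classical
  set I : Finset ((q : ℕ) × DirichletCharacter ℂ (q+1)) :=
    (Finset.range Q).sigma fun q => Finset.univ.filter fun χ => χ.IsPrimitive with hI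
  set f : ((q : ℕ) × DirichletCharacter ℂ (q+1)) → ℕ → ℂ :=
    fun i n => i.2 (n : ZMod (i.1+1)) with hf
  have hlog : 0 ≤ Real.log X := Real.log_nonneg (by exact_mod_cast hX)
  -- the left side
  have hL : primSum Q (fun q χ => ‖∑ n ∈ Finset.Ioc N0 X, a n / (n:ℂ) * χ (n : ZMod q)‖ ^ 2) =
      ∑ i ∈ I, ‖∑ n ∈ Finset.Ioc N0 X, (((1:ℝ) / n : ℝ) : ℂ) * a n * f i n‖ ^ 2 := by
    unfold primSum
    rw [hI, Finset.sum_sigma]
    refine Finset.sum_congr rfl fun q _ => ?_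
    rw [Finset.sum_filter]
    refine Finset.sum_congr rfl fun χ _ => ?_
    split_ifs with h
    · have e : ∀ n ∈ Finset.Ioc N0 X, a n / (n:ℂ) * χ (n : ZMod (q+1)) =
          (((1:ℝ) / n : ℝ) : ℂ) * a n * f ⟨q, χ⟩ n := by
        intro n _
        simp only [hf]
        push_cast
        ring
      change ‖∑ n ∈ Finset.Ioc N0 X, a n / (n:ℂ) * χ (n : ZMod (q+1))‖ ^ 2 = _
      rw [Finset.sum_congr rfl e]
    · rfl
  rw [hL]
  -- cardinality
  have hcard : (I.card : ℝ) ≤ (Q:ℝ) ^ 2 := by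
    have h1 : I.card ≤ Q * Q := by
      rw [hI, Finset.card_sigma]
      calc ∑ q ∈ Finset.range Q, (Finset.univ.filter fun χ : DirichletCharacter ℂ (q+1) =>
            χ.IsPrimitive).card ≤ ∑ q ∈ Finset.range Q, Q := by
            refine Finset.sum_le_sum fun q hq => ?_
            have h2 : (Finset.univ.filter fun χ : DirichletCharacter ℂ (q+1) =>
                χ.IsPrimitive).card ≤ Fintype.card (DirichletCharacter ℂ (q+1)) :=
              Finset.card_le_univ _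
            have h3 : Fintype.card (DirichletCharacter ℂ (q+1)) = (q+1).totient := by
              rw [← Nat.card_eq_fintype_card]
              exact DirichletCharacter.card_eq_totient_of_hasEnoughRootsOfUnity ℂ (q+1)
            have h4 : (q+1).totient ≤ q + 1 := Nat.totient_le _
            have h5 := Finset.mem_range.1 hq
            omega
        _ = Q * Q := by simp
    have : ((Q * Q : ℕ) : ℝ) = (Q:ℝ) ^ 2 := by push_cast; ring
    rw [← this]; exact_mod_cast h1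
  set B : ℝ := 2 * (Q:ℝ) ^ 2 / (N0 + 1) with hB
  have hB0 : 0 ≤ B := by positivity
  have hBc : B * I.card ≤ 2 := by
    have h1 : (Q:ℝ) ^ 4 ≤ N0 := by exact_mod_cast hN
    have h2 : B * I.card ≤ B * (Q:ℝ) ^ 2 := mul_le_mul_of_nonneg_left hcard hB0
    have h3 : B * (Q:ℝ) ^ 2 = 2 * (Q:ℝ) ^ 4 / (N0 + 1) := by rw [hB]; ring
    have h4 : 2 * (Q:ℝ) ^ 4 / (N0 + 1) ≤ 2 := by
      rw [div_le_iff₀ (by positivity)]
      linarith
    linarith
  have hdual := ls_dual_of_corr I (Finset.Ioc N0 X) (fun n => (1:ℝ) / n) f (Real.log X + 1) B hB0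
    (fun i _ => by
      refine (norm_sum_le _ _).trans ((Finset.sum_le_sum fun n _ => ?_).trans (ls_harm N0 X))
      rw [norm_mul, norm_mul, RCLike.norm_conj, Complex.norm_real,
        Real.norm_of_nonneg (by positivity)]
      have h1 : ‖f i n‖ ≤ 1 := DirichletCharacter.norm_le_one _ _
      have h2 : ‖f i n‖ * ‖f i n‖ ≤ 1 := by nlinarith [norm_nonneg (f i n)]
      have h3 : (0:ℝ) ≤ 1 / n := by positivity
      calc (1:ℝ) / n * (‖f i n‖ * ‖f i n‖) ≤ 1 / n * 1 := mul_le_mul_of_nonneg_left h2 h3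
        _ = 1 / n := mul_one _)
    (fun i hi j hj hij => by
      have hi' := Finset.mem_sigma.1 hi
      have hj' := Finset.mem_sigma.1 hj
      have hi1 := Finset.mem_range.1 hi'.1
      have hj1 := Finset.mem_range.1 hj'.1
      have hi2 := (Finset.mem_filter.1 hi'.2).2
      have hj2 := (Finset.mem_filter.1 hj'.2).2
      have hne : (⟨i.1 + 1, i.2⟩ : (n : ℕ) × DirichletCharacter ℂ n) ≠ ⟨j.1 + 1, j.2⟩ := by
        intro h
        apply hij
        obtain ⟨i1, i2⟩ := i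
        obtain ⟨j1, j2⟩ := j
        simp only [Sigma.mk.injEq, Nat.add_right_cancel_iff] at h
        obtain ⟨h1, h2⟩ := h
        subst h1
        rw [heq_eq_eq] at h2
        rw [h2]
      refine ls_partial (fun n => f i n * (starRingEnd ℂ) (f j n)) N0 X (2 * (Q:ℝ) ^ 2)
        (fun m => ?_)
      refine (ls_corr i.2 j.2 hi2 hj2 hne N0 m).trans ?_
      have a1 : ((i.1 + 1 : ℕ) : ℝ) ≤ Q := by exact_mod_cast hi1
      have a2 : ((j.1 + 1 : ℕ) : ℝ) ≤ Q := by exact_mod_cast hj1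
      have a3 : ((i.1 + 1 : ℕ) : ℝ) * ((j.1 + 1 : ℕ) : ℝ) ≤ Q * Q :=
        mul_le_mul a1 a2 (by positivity) (by positivity)
      nlinarith)
  have hΔ : Real.log X + 1 + B * I.card ≤ Real.log X + 3 := by linarith
  have := ls_duality I (Finset.Ioc N0 X) (fun n => (1:ℝ) / n) (fun n _ => by positivity) f
    (Real.log X + 3) (by linarith) (fun c => (hdual c).trans
      (mul_le_mul_of_nonneg_right hΔ (Finset.sum_nonneg fun i _ => sq_nonneg _))) a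
  refine this.trans (le_of_eq ?_)
  congr 1
  refine Finset.sum_congr rfl fun n _ => ?_
  ring

end Pool.Agent.Lib.BV
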