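import Pool.Agent.Lib.BV.Defs

/-!
# Vaughan's identity

PROOF SKETCH. In the ring ArithmeticFunction ℝ, Λ * ζ = log (vonMangoldt_mul_zeta), so
Λ = LU + alphaU, alphaU = alphaU (1 - muV ζ) + alphaU ζ muV, alphaU ζ = log - LU ζ: ring.
betaV n = - sum over d | n, d <= V of μ d for n > 1; if 1 < n <= V it is - sum_{d | n} μ(d) = 0; at
n = 1 it is 1 - 1 = 0 (V >= 1). |betaV n| <= τ(n) for n >= 1 (n > V >= 1, number of divisors).
-/

namespace Pool.Agent.Lib.BV

lemma vau_LU_apply (U n : ℕ) :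
    LU U n = if n ≤ U then ArithmeticFunction.vonMangoldt n else 0 := rfl

lemma vau_muV_apply (V n : ℕ) :
    muV V n = if n ≤ V then (ArithmeticFunction.moebius n : ℝ) else 0 := rfl

lemma vau_alphaU_apply (U n : ℕ) :
    alphaU U n = ArithmeticFunction.vonMangoldt n - LU U n := rfl

lemma vau_betaV_apply (V n : ℕ) :
    betaV V n = (1 : ArithmeticFunction ℝ) n - ∑ d ∈ n.divisors, muV V d := by
  rw [← ArithmeticFunction.coe_mul_zeta_apply]
  rfl

lemma vau_LU_nonneg (U n : ℕ) : 0 ≤ LU U n := by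
  rw [vau_LU_apply]
  split_ifs
  · exact ArithmeticFunction.vonMangoldt_nonneg
  · exact le_rfl

lemma vau_LU_le (U n : ℕ) : LU U n ≤ Real.log (U + 1) := by
  rw [vau_LU_apply]
  split_ifs with h
  · rcases Nat.eq_zero_or_pos n with rfl | hn
    · simp
      exact Real.log_nonneg (by linarith [(Nat.cast_nonneg U : (0 : ℝ) ≤ U)])
    · refine ArithmeticFunction.vonMangoldt_le_log.trans ?_
      apply Real.log_le_log (by exact_mod_cast hn)
      have : (n : ℝ) ≤ U := by exact_mod_cast h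
      linarith
  · exact Real.log_nonneg (by linarith [(Nat.cast_nonneg U : (0 : ℝ) ≤ U)])

lemma vau_muV_abs_le (V n : ℕ) : |muV V n| ≤ 1 := by
  rw [vau_muV_apply]
  split_ifs
  · have := ArithmeticFunction.abs_moebius_le_one (n := n)
    exact_mod_cast this
  · simp

theorem vaughan (U V : ℕ) :
    (ArithmeticFunction.vonMangoldt : ArithmeticFunction ℝ) =
      LU U - (LU U * muV V) * (ArithmeticFunction.zeta : ArithmeticFunction ℝ)
        + muV V * ArithmeticFunction.log + alphaU U * betaV V := by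
  have h := ArithmeticFunction.vonMangoldt_mul_zeta
  unfold alphaU betaV
  linear_combination muV V * h

theorem alphaU_apply_of_le {U n : ℕ} (h : n ≤ U) : alphaU U n = 0 := by
  rw [vau_alphaU_apply, vau_LU_apply, if_pos h, sub_self]

theorem alphaU_abs_le (U n : ℕ) : |alphaU U n| ≤ Real.log n := by
  by_cases h : n ≤ U
  · rw [alphaU_apply_of_le h, abs_zero]
    exact Real.log_natCast_nonneg n
  · rw [vau_alphaU_apply, vau_LU_apply, if_neg h, sub_zero,
      abs_of_nonneg ArithmeticFunction.vonMangoldt_nonneg]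
    exact ArithmeticFunction.vonMangoldt_le_log

theorem betaV_apply_of_le {V n : ℕ} (hV : 1 ≤ V) (h : n ≤ V) : betaV V n = 0 := by
  rw [vau_betaV_apply]
  rcases Nat.eq_zero_or_pos n with rfl | hn
  · simp
  · have h1 : ∑ d ∈ n.divisors, muV V d =
        ∑ d ∈ n.divisors, ((ArithmeticFunction.moebius : ArithmeticFunction ℤ) :
          ArithmeticFunction ℝ) d := by
      refine Finset.sum_congr rfl fun d hd => ?_
      have hd' : d ≤ V := (Nat.le_of_dvd hn (Nat.dvd_of_mem_divisors hd)).trans h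
      rw [vau_muV_apply, if_pos hd', ArithmeticFunction.intCoe_apply]
    rw [h1, ← ArithmeticFunction.coe_mul_zeta_apply, ArithmeticFunction.coe_moebius_mul_coe_zeta,
      sub_self]

theorem betaV_abs_le {V : ℕ} (hV : 1 ≤ V) (n : ℕ) : |betaV V n| ≤ n.divisors.card := by
  by_cases h : n ≤ V
  · rw [betaV_apply_of_le hV h, abs_zero]
    positivity
  · have hn : n ≠ 1 := by omega
    rw [vau_betaV_apply, ArithmeticFunction.one_apply_ne hn, zero_sub, abs_neg]
    refine (Finset.abs_sum_le_sum_abs _ _).trans ?_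
    refine (Finset.sum_le_sum fun d _ => vau_muV_abs_le V d).trans ?_
    simp

lemma vau_ne_zero {U V d : ℕ} (hd : d ≠ 0) {p : ℕ × ℕ}
    (hp : p ∈ d.divisorsAntidiagonal) (h : |LU U p.1| * |muV V p.2| ≠ 0) :
    p ∈ (Finset.Icc 1 U ×ˢ Finset.Icc 1 V).filter (fun p => p.1 * p.2 = d) := by
  have h1 : p.1 * p.2 = d := (Nat.mem_divisorsAntidiagonal.mp hp).1
  have ha : p.1 ≠ 0 := by rintro h0; rw [h0, zero_mul] at h1; exact hd h1.symm
  have hb : p.2 ≠ 0 := by rintro h0; rw [h0, mul_zero] at h1; exact hd h1.symm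
  have hU : p.1 ≤ U := by
    by_contra hc
    apply h
    rw [vau_LU_apply, if_neg hc]
    simp
  have hV : p.2 ≤ V := by
    by_contra hc
    apply h
    rw [vau_muV_apply, if_neg hc]
    simp
  rw [Finset.mem_filter, Finset.mem_product, Finset.mem_Icc, Finset.mem_Icc]
  exact ⟨⟨⟨Nat.one_le_iff_ne_zero.mpr ha, hU⟩, ⟨Nat.one_le_iff_ne_zero.mpr hb, hV⟩⟩, h1⟩

lemma vau_term (U V d : ℕ) (hd : d ≠ 0) : |(LU U * muV V) d| ≤
    ∑ p ∈ Finset.Icc 1 U ×ˢ Finset.Icc 1 V,
      if p.1 * p.2 = d then |LU U p.1| * |muV V p.2| else 0 := by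
  rw [ArithmeticFunction.mul_apply, ← Finset.sum_filter]
  refine (Finset.abs_sum_le_sum_abs _ _).trans ?_
  simp only [abs_mul]
  rw [← Finset.sum_filter_of_ne (s := d.divisorsAntidiagonal)
    (p := fun p => p ∈ (Finset.Icc 1 U ×ˢ Finset.Icc 1 V).filter (fun p => p.1 * p.2 = d))
    (fun p hp h => vau_ne_zero hd hp h)]
  refine Finset.sum_le_sum_of_subset_of_nonneg (fun p hp => (Finset.mem_filter.mp hp).2)
    fun p _ _ => by positivity

/-- Coefficients of the first type I sum. -/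
theorem LU_mul_muV_sum (U V : ℕ) (X : ℕ) :
    ∑ d ∈ Finset.Icc 1 X, |(LU U * muV V) d| ≤ U * V * Real.log (U + 1) := by
  have hl : 0 ≤ Real.log ((U : ℝ) + 1) :=
    Real.log_nonneg (by linarith [(Nat.cast_nonneg U : (0 : ℝ) ≤ U)])
  calc ∑ d ∈ Finset.Icc 1 X, |(LU U * muV V) d|
      ≤ ∑ d ∈ Finset.Icc 1 X, ∑ p ∈ Finset.Icc 1 U ×ˢ Finset.Icc 1 V,
          (if p.1 * p.2 = d then |LU U p.1| * |muV V p.2| else 0) := by
        refine Finset.sum_le_sum fun d hd => vau_term U V d ?_
        have := (Finset.mem_Icc.mp hd).1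
        omega
    _ = ∑ p ∈ Finset.Icc 1 U ×ˢ Finset.Icc 1 V, ∑ d ∈ Finset.Icc 1 X,
          (if p.1 * p.2 = d then |LU U p.1| * |muV V p.2| else 0) := Finset.sum_comm
    _ ≤ ∑ p ∈ Finset.Icc 1 U ×ˢ Finset.Icc 1 V, Real.log (U + 1) := by
        refine Finset.sum_le_sum fun p _ => ?_
        rw [Finset.sum_ite_eq]
        split_ifs
        · calc |LU U p.1| * |muV V p.2| ≤ Real.log (U + 1) * 1 := by
                refine mul_le_mul ?_ (vau_muV_abs_le V _) (abs_nonneg _) hl
                rw [abs_of_nonneg (vau_LU_nonneg U _)]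
                exact vau_LU_le U _
            _ = _ := mul_one _
        · exact hl
    _ = U * V * Real.log (U + 1) := by
        rw [Finset.sum_const, Finset.card_product, Nat.card_Icc, Nat.card_Icc, nsmul_eq_mul]
        push_cast [Nat.add_sub_cancel]
        ring

theorem LU_mul_muV_apply_of_gt {U V d : ℕ} (h : U * V < d) : (LU U * muV V) d = 0 := by
  have h1 := vau_term U V d (by omega)
  have h2 : ∑ p ∈ Finset.Icc 1 U ×ˢ Finset.Icc 1 V,
      (if p.1 * p.2 = d then |LU U p.1| * |muV V p.2| else 0) = 0 := by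
    refine Finset.sum_eq_zero fun p hp => ?_
    rw [Finset.mem_product, Finset.mem_Icc, Finset.mem_Icc] at hp
    rw [if_neg]
    intro h3
    have := Nat.mul_le_mul hp.1.2 hp.2.2
    omega
  rw [h2] at h1
  exact abs_eq_zero.mp (le_antisymm h1 (abs_nonneg _))

end Pool.Agent.Lib.BV
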