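import Pool.Agent.Lib.BV.LargeSieve
import Pool.Agent.Lib.BV.Kernel
import Pool.Agent.Lib.BV.TauSum
import Pool.Agent.Lib.BV.Vaughan

/-!
# Type II sums on average over primitive characters
-/

open Complex MeasureTheory

namespace Pool.Agent.Lib.BV

/-- the double sum over products, as a sum over a rectangle -/
lemma t2_rect (a b : ℕ → ℂ) (X : ℕ) (y : ℝ) (hy : 0 ≤ y) (hyX : ⌊y⌋₊ ≤ X) :
    ∑ n ∈ Finset.Icc 1 ⌊y⌋₊, (∑ p ∈ n.divisorsAntidiagonal, a p.1 * b p.2) * ((y - n : ℝ) : ℂ) =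
      ∑ m ∈ Finset.Icc 1 X, ∑ k ∈ Finset.Icc 1 X, a m * b k * ((max (y - m * k) 0 : ℝ) : ℂ) := by
  set Y := ⌊y⌋₊ with hY
  have hYle : (Y:ℝ) ≤ y := Nat.floor_le hy
  have hYlt : y < Y + 1 := Nat.lt_floor_add_one y
  rw [← Finset.sum_product' (f := fun m k => a m * b k * ((max (y - (m:ℝ) * k) 0 : ℝ) : ℂ))]
  have h1 : ∑ p ∈ Finset.Icc 1 X ×ˢ Finset.Icc 1 X,
      a p.1 * b p.2 * ((max (y - (p.1:ℝ) * p.2) 0 : ℝ) : ℂ)
      = ∑ p ∈ (Finset.Icc 1 X ×ˢ Finset.Icc 1 X).filter (fun p => p.1 * p.2 ≤ Y),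
        a p.1 * b p.2 * ((max (y - (p.1:ℝ) * p.2) 0 : ℝ) : ℂ) := by
    symm
    apply Finset.sum_subset (Finset.filter_subset _ _)
    intro p hp hp2
    rw [Finset.mem_filter] at hp2
    have h3 : Y < p.1 * p.2 := by
      by_contra hcon
      exact hp2 ⟨hp, not_lt.1 hcon⟩
    have h4 : (Y:ℝ) + 1 ≤ (p.1:ℝ) * p.2 := by exact_mod_cast h3
    rw [max_eq_right (by linarith)]
    simp
  rw [h1]
  simp_rw [Finset.sum_mul]
  rw [Finset.sum_sigma']
  refine Finset.sum_bij' (fun s _ => s.2) (fun p _ => ⟨p.1 * p.2, p⟩) ?_ ?_ ?_ ?_ ?_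
  · rintro ⟨n, p⟩ hp
    simp only [Finset.mem_sigma, Finset.mem_Icc, Nat.mem_divisorsAntidiagonal] at hp
    obtain ⟨⟨hn1, hn2⟩, hpn, hn0⟩ := hp
    have hp1 : p.1 ≠ 0 := by
      rintro h0; rw [h0, zero_mul] at hpn; exact hn0 hpn.symm
    have hp2 : p.2 ≠ 0 := by
      rintro h0; rw [h0, mul_zero] at hpn; exact hn0 hpn.symm
    have hle1 : p.1 ≤ p.1 * p.2 := Nat.le_mul_of_pos_right _ (Nat.pos_of_ne_zero hp2)
    have hle2 : p.2 ≤ p.1 * p.2 := Nat.le_mul_of_pos_left _ (Nat.pos_of_ne_zero hp1)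
    simp only [Finset.mem_filter, Finset.mem_product, Finset.mem_Icc]
    refine ⟨⟨⟨Nat.pos_of_ne_zero hp1, ?_⟩, ⟨Nat.pos_of_ne_zero hp2, ?_⟩⟩, ?_⟩ <;> omega
  · intro p hp
    simp only [Finset.mem_filter, Finset.mem_product, Finset.mem_Icc] at hp
    obtain ⟨⟨⟨h11, _⟩, ⟨h21, _⟩⟩, h3⟩ := hp
    have : 1 ≤ p.1 * p.2 := Nat.one_le_iff_ne_zero.2 (by positivity)
    simp only [Finset.mem_sigma, Finset.mem_Icc, Nat.mem_divisorsAntidiagonal]
    exact ⟨⟨this, h3⟩, trivial, by omega⟩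
  · rintro ⟨n, p⟩ hp
    simp only [Finset.mem_sigma, Finset.mem_Icc, Nat.mem_divisorsAntidiagonal] at hp
    obtain ⟨_, hpn, _⟩ := hp
    simp only
    subst hpn
    rfl
  · intro p _
    rfl
  · rintro ⟨n, p⟩ hp
    simp only [Finset.mem_sigma, Finset.mem_Icc, Nat.mem_divisorsAntidiagonal] at hp
    obtain ⟨⟨hn1, hn2⟩, hpn, hn0⟩ := hp
    simp only
    have hn : (n:ℝ) = (p.1:ℝ) * p.2 := by rw [← hpn]; push_cast; ring
    have hle : (n:ℝ) ≤ y := le_trans (by exact_mod_cast hn2) hYle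
    rw [← hn, max_eq_left (by linarith)]

/-- restriction to `m > U`, `k > V` -/
lemma t2_restrict (a b : ℕ → ℂ) (U V X : ℕ) (y : ℝ) (ha : ∀ m ≤ U, a m = 0)
    (hb : ∀ k ≤ V, b k = 0) :
    ∑ m ∈ Finset.Icc 1 X, ∑ k ∈ Finset.Icc 1 X, a m * b k * ((max (y - m * k) 0 : ℝ) : ℂ) =
      ∑ m ∈ Finset.Ioc U X, ∑ k ∈ Finset.Ioc V X, a m * b k * ((max (y - m * k) 0 : ℝ) : ℂ) := by
  have hsub : ∀ W, Finset.Ioc W X ⊆ Finset.Icc 1 X := by
    intro W m hm
    rw [Finset.mem_Ioc] at hm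
    rw [Finset.mem_Icc]
    omega
  rw [← Finset.sum_subset (hsub U)]
  · refine Finset.sum_congr rfl fun m _ => ?_
    rw [← Finset.sum_subset (hsub V)]
    intro k hk hk2
    rw [Finset.mem_Icc] at hk
    rw [Finset.mem_Ioc] at hk2
    rw [hb k (by omega)]
    simp
  · intro m hm hm2
    rw [Finset.mem_Icc] at hm
    rw [Finset.mem_Ioc] at hm2
    rw [ha m (by omega)]
    simp

/-- the twisted Dirichlet polynomial -/
noncomputable def t2A (f : ℕ → ℝ) (N0 X : ℕ) (q : ℕ) (χ : DirichletCharacter ℂ q) (t : ℝ) : ℂ :=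
  ∑ m ∈ Finset.Ioc N0 X, ((f m : ℝ) : ℂ) * χ (m : ZMod q) * (m:ℂ) ^ (-(1 + t * I))

lemma t2A_cont (f : ℕ → ℝ) (N0 X : ℕ) (q : ℕ) (χ : DirichletCharacter ℂ q) :
    Continuous (t2A f N0 X q χ) := by
  unfold t2A
  refine continuous_finsetSum _ fun m hm => ?_
  rw [Finset.mem_Ioc] at hm
  have hm0 : (m:ℂ) ≠ 0 := by
    have : m ≠ 0 := by omega
    exact_mod_cast this
  refine continuous_const.mul ?_
  have : (fun t : ℝ => (m:ℂ) ^ (-(1 + (t:ℂ) * I))) =
      fun t : ℝ => Complex.exp (Complex.log m * (-(1 + (t:ℂ) * I))) := by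
    funext t
    rw [Complex.cpow_def_of_ne_zero hm0]
  rw [this]
  fun_prop

lemma t2A_bound (f : ℕ → ℝ) (N0 X : ℕ) (q : ℕ) (χ : DirichletCharacter ℂ q) :
    ∃ K : ℝ, ∀ t, ‖t2A f N0 X q χ t‖ ≤ K := by
  refine ⟨∑ m ∈ Finset.Ioc N0 X, |f m|, fun t => ?_⟩
  unfold t2A
  refine (norm_sum_le _ _).trans (Finset.sum_le_sum fun m hm => ?_)
  rw [Finset.mem_Ioc] at hm
  have hm0 : 0 < (m:ℝ) := by
    have : 0 < m := by omega
    exact_mod_cast this
  have hm1 : (1:ℝ) ≤ m := by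
    have : 1 ≤ m := by omega
    exact_mod_cast this
  rw [norm_mul, norm_mul, Complex.norm_real, Real.norm_eq_abs]
  have h1 : ‖χ (m : ZMod q)‖ ≤ 1 := χ.norm_le_one _
  have h2 : ‖(m:ℂ) ^ (-(1 + (t:ℂ) * I))‖ ≤ 1 := by
    have e : ‖(m:ℂ) ^ (-(1 + (t:ℂ) * I))‖ = (m:ℝ) ^ (-(1 + (t:ℂ) * I)).re := by
      have := Complex.norm_cpow_eq_rpow_re_of_pos hm0 (-(1 + (t:ℂ) * I))
      simpa using this
    rw [e]
    apply Real.rpow_le_one_of_one_le_of_nonpos hm1
    simp
  calc |f m| * ‖χ (m : ZMod q)‖ * ‖(m:ℂ) ^ (-(1 + (t:ℂ) * I))‖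
      ≤ |f m| * 1 * 1 := by
        apply mul_le_mul _ h2 (norm_nonneg _) (by positivity)
        exact mul_le_mul_of_nonneg_left h1 (abs_nonneg _)
    _ = |f m| := by ring

/-- the large sieve for the twisted polynomials -/
lemma t2A_sieve (f : ℕ → ℝ) (g : ℕ → ℝ) (hfg : ∀ n, |f n| ≤ g n) (Q N0 X : ℕ)
    (hN : Q ^ 4 ≤ N0) (hX : 1 ≤ X) (t : ℝ) :
    primSum Q (fun q χ => ‖t2A f N0 X q χ t‖ ^ 2) ≤
      (Real.log X + 3) * ∑ n ∈ Finset.Icc 1 X, g n ^ 2 / n := by
  have h := large_sieve_weighted Q N0 X hN hX (fun n => ((f n : ℝ) : ℂ) * (n:ℂ) ^ (-(t * I)))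
  have e : (fun (q : ℕ) (χ : DirichletCharacter ℂ q) => ‖t2A f N0 X q χ t‖ ^ 2) =
      fun q χ => ‖∑ n ∈ Finset.Ioc N0 X, ((f n : ℝ) : ℂ) * (n:ℂ) ^ (-(t * I)) / (n:ℂ)
        * χ (n : ZMod q)‖ ^ 2 := by
    funext q χ
    congr 2
    unfold t2A
    refine Finset.sum_congr rfl fun n hn => ?_
    rw [Finset.mem_Ioc] at hn
    have hn0 : (n:ℂ) ≠ 0 := by
      have : n ≠ 0 := by omega
      exact_mod_cast this
    rw [show (-(1 + (t:ℂ) * I)) = (-(t * I)) - 1 by ring, Complex.cpow_sub _ _ hn0,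
      Complex.cpow_one]
    ring
  rw [e]
  refine h.trans ?_
  have hl : 0 ≤ Real.log X := Real.log_nonneg (by exact_mod_cast hX)
  apply mul_le_mul_of_nonneg_left _ (by linarith)
  calc _ ≤ ∑ n ∈ Finset.Ioc N0 X, g n ^ 2 / n := by
        refine Finset.sum_le_sum fun n hn => ?_
        rw [Finset.mem_Ioc] at hn
        have hn0 : 0 < (n:ℝ) := by
          have : 0 < n := by omega
          exact_mod_cast this
        apply div_le_div_of_nonneg_right _ hn0.le
        have e2 : ‖(n:ℂ) ^ (-((t:ℂ) * I))‖ = 1 := by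
          have := Complex.norm_cpow_eq_rpow_re_of_pos hn0 (-((t:ℂ) * I))
          simp at this
          simpa using this
        rw [norm_mul, e2, mul_one, Complex.norm_real, Real.norm_eq_abs]
        exact pow_le_pow_left₀ (abs_nonneg _) (hfg n) 2
    _ ≤ _ := by
        apply Finset.sum_le_sum_of_subset_of_nonneg
        · intro m hm
          rw [Finset.mem_Ioc] at hm
          rw [Finset.mem_Icc]
          omega
        · intro n _ _
          positivity

/-- the weight -/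
noncomputable def t2w (t : ℝ) : ℝ := ‖(1:ℂ) + t * I‖ * ‖(2:ℂ) + t * I‖

lemma t2w_pos (t : ℝ) : 0 < t2w t := by
  unfold t2w
  have h1 : (1:ℂ) + t * I ≠ 0 := by
    intro h
    have := congrArg Complex.re h
    simp at this
  have h2 : (2:ℂ) + t * I ≠ 0 := by
    intro h
    have := congrArg Complex.re h
    simp at this
  have := norm_pos_iff.2 h1
  have := norm_pos_iff.2 h2
  positivity

lemma t2_integrable (f g : ℕ → ℝ) (M N X : ℕ) (q : ℕ) (χ : DirichletCharacter ℂ q) :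
    Integrable (fun t : ℝ => ‖t2A f M X q χ t‖ * ‖t2A g N X q χ t‖ / t2w t) := by
  obtain ⟨K, hK⟩ := t2A_bound f M X q χ
  obtain ⟨L, hL⟩ := t2A_bound g N X q χ
  have h0 : Integrable (fun t : ℝ => 1 / t2w t) := kernel_integrable
  have h1 : Integrable (fun t : ℝ => (K * L) * (1 / t2w t)) := h0.const_mul _
  refine h1.mono ?_ ?_
  · have hc : Continuous (fun t : ℝ => ‖t2A f M X q χ t‖ * ‖t2A g N X q χ t‖) :=
      (t2A_cont f M X q χ).norm.mul (t2A_cont g N X q χ).norm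
    have := hc.aestronglyMeasurable.mul h0.aestronglyMeasurable
    refine this.congr ?_
    refine Filter.Eventually.of_forall fun t => ?_
    simp only [Pi.mul_apply]
    ring
  · refine Filter.Eventually.of_forall fun t => ?_
    have hw := t2w_pos t
    have hK0 : 0 ≤ K := (norm_nonneg _).trans (hK t)
    have hL0 : 0 ≤ L := (norm_nonneg _).trans (hL t)
    rw [Real.norm_of_nonneg (by positivity), Real.norm_of_nonneg (by positivity)]
    calc ‖t2A f M X q χ t‖ * ‖t2A g N X q χ t‖ / t2w t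
        ≤ K * L / t2w t := by
          apply div_le_div_of_nonneg_right _ hw.le
          exact mul_le_mul (hK t) (hL t) (norm_nonneg _) hK0
      _ = _ := by ring

/-- sum over characters and integral -/
lemma t2_swap (Q : ℕ) (F : (q : ℕ) → DirichletCharacter ℂ q → ℝ → ℝ)
    (hF : ∀ q χ, Integrable (F q χ)) :
    primSum Q (fun q χ => ∫ t, F q χ t) = ∫ t, primSum Q (fun q χ => F q χ t) := by
  unfold primSum
  rw [integral_finsetSum]
  · refine Finset.sum_congr rfl fun q _ => ?_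
    rw [integral_finsetSum]
    · refine Finset.sum_congr rfl fun χ _ => ?_
      split_ifs
      · rfl
      · simp
    · intro χ _
      split_ifs
      · exact hF _ _
      · exact integrable_zero _ _ _
  · intro q _
    apply integrable_finsetSum
    intro χ _
    split_ifs
    · exact hF _ _
    · exact integrable_zero _ _ _

lemma t2_primSum_integrable (Q : ℕ) (F : (q : ℕ) → DirichletCharacter ℂ q → ℝ → ℝ)
    (hF : ∀ q χ, Integrable (F q χ)) :
    Integrable (fun t => primSum Q (fun q χ => F q χ t)) := by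
  unfold primSum
  apply integrable_finsetSum
  intro q _
  apply integrable_finsetSum
  intro χ _
  split_ifs
  · exact hF _ _
  · exact integrable_zero _ _ _

lemma t2_primSum_mul (Q : ℕ) (c : ℝ) (F : (q : ℕ) → DirichletCharacter ℂ q → ℝ) :
    primSum Q (fun q χ => c * F q χ) = c * primSum Q F := by
  unfold primSum
  rw [Finset.mul_sum]
  refine Finset.sum_congr rfl fun q _ => ?_
  rw [Finset.mul_sum]
  refine Finset.sum_congr rfl fun χ _ => ?_
  split_ifs
  · rfl
  · simp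

theorem typeII : ∃ C : ℝ, 0 < C ∧ ∀ (Q U V : ℕ) (x : ℝ), 3 ≤ x → 1 ≤ V → Q ^ 4 ≤ U →
    Q ^ 4 ≤ V → ∃ G : (q : ℕ) → DirichletCharacter ℂ q → ℝ, (∀ q χ, 0 ≤ G q χ) ∧
      (∀ (q : ℕ) (χ : DirichletCharacter ℂ q) (y : ℝ), 1 ≤ y → y ≤ x →
        ‖RS (fun n => (((alphaU U * betaV V) n : ℝ) : ℂ) * χ (n : ZMod q)) y‖ ≤ G q χ) ∧
      primSum Q G ≤ C * x ^ 2 * (Real.log x) ^ 5 := by
  set I0 : ℝ := ∫ t : ℝ, 1 / t2w t with hI0
  have hI0n : 0 ≤ I0 := integral_nonneg fun t => by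
    have := t2w_pos t
    positivity
  refine ⟨64 * I0 + 1, by positivity, ?_⟩
  intro Q U V x hx hV hQU hQV
  set X : ℕ := ⌊x⌋₊ with hX
  have hx0 : 0 < x := by linarith
  have hX1 : 1 ≤ X := by
    rw [hX, Nat.one_le_floor_iff]
    linarith
  have hXx : (X:ℝ) ≤ x := Nat.floor_le hx0.le
  have hX0 : (0:ℝ) < X := by exact_mod_cast hX1
  let F : (q : ℕ) → DirichletCharacter ℂ q → ℝ → ℝ := fun q χ t =>
    ‖t2A (alphaU U) U X q χ t‖ * ‖t2A (betaV V) V X q χ t‖ / t2w t
  have hFint : ∀ q χ, Integrable (F q χ) := fun q χ => t2_integrable _ _ _ _ _ q χ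
  have hFn : ∀ q χ t, 0 ≤ F q χ t := by
    intro q χ t
    have := t2w_pos t
    simp only [F]
    positivity
  refine ⟨fun q χ => x^2 * ∫ t, F q χ t, ?_, ?_, ?_⟩
  · intro q χ
    have : 0 ≤ ∫ t, F q χ t := integral_nonneg (hFn q χ)
    positivity
  · intro q χ y hy1 hyx
    have hfl : ⌊y⌋₊ ≤ X := Nat.floor_le_floor hyx
    set a : ℕ → ℂ := fun m => ((alphaU U m : ℝ) : ℂ) * χ (m : ZMod q) with ha
    set b : ℕ → ℂ := fun m => ((betaV V m : ℝ) : ℂ) * χ (m : ZMod q) with hb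
    have e1 : RS (fun n => (((alphaU U * betaV V) n : ℝ) : ℂ) * χ (n : ZMod q)) y =
        ∑ n ∈ Finset.Icc 1 ⌊y⌋₊, (∑ p ∈ n.divisorsAntidiagonal, a p.1 * b p.2)
          * ((y - n : ℝ) : ℂ) := by
      unfold RS
      refine Finset.sum_congr rfl fun n _ => ?_
      congr 1
      show (((alphaU U * betaV V) n : ℝ) : ℂ) * χ (n : ZMod q) = _
      rw [ArithmeticFunction.mul_apply]
      push_cast
      rw [Finset.sum_mul]
      refine Finset.sum_congr rfl fun p hp => ?_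
      rw [Nat.mem_divisorsAntidiagonal] at hp
      simp only [ha, hb]
      rw [← hp.1]
      push_cast
      rw [map_mul]
      ring
    rw [e1, t2_rect a b X y (by linarith) hfl, t2_restrict a b U V X y
      (fun m hm => by simp only [ha]; rw [alphaU_apply_of_le hm]; simp)
      (fun m hm => by simp only [hb]; rw [betaV_apply_of_le hV hm]; simp)]
    refine (kernel_bound (Finset.Ioc U X) (Finset.Ioc V X)
      (fun m hm => by rw [Finset.mem_Ioc] at hm; omega)
      (fun m hm => by rw [Finset.mem_Ioc] at hm; omega) a b y (by linarith)).trans ?_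
    have e2 : (∫ t : ℝ, ‖∑ m ∈ Finset.Ioc U X, a m * (m:ℂ) ^ (-(1 + t * I))‖ *
        ‖∑ n ∈ Finset.Ioc V X, b n * (n:ℂ) ^ (-(1 + t * I))‖ /
          (‖(1:ℂ) + t * I‖ * ‖(2:ℂ) + t * I‖)) = ∫ t, F q χ t := rfl
    rw [e2]
    apply mul_le_mul_of_nonneg_right _ (integral_nonneg (hFn q χ))
    exact pow_le_pow_left₀ (by linarith) hyx 2
  · rw [t2_primSum_mul, t2_swap Q F hFint]
    have hlX : 0 ≤ Real.log X := Real.log_nonneg (by exact_mod_cast hX1)
    have hlx1 : 1 ≤ Real.log x := by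
      have h := Real.exp_one_lt_d9
      have h2 := Real.log_le_log (Real.exp_pos 1) (show Real.exp 1 ≤ x by linarith)
      rwa [Real.log_exp] at h2
    have hlXx : Real.log X ≤ Real.log x := Real.log_le_log hX0 hXx
    have key : ∀ t : ℝ, primSum Q (fun q χ => F q χ t) ≤ (64 * Real.log x ^ 5) * (1 / t2w t) := by
      intro t
      have hw := t2w_pos t
      have h1 : primSum Q (fun q χ => F q χ t) ≤ primSum Q (fun q χ => (1/(2 * t2w t)) *
          (‖t2A (alphaU U) U X q χ t‖^2 + ‖t2A (betaV V) V X q χ t‖^2)) := by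
        apply primSum_mono
        intro q χ
        simp only [F]
        rw [div_le_iff₀ hw]
        have e : 1 / (2 * t2w t) * (‖t2A (alphaU U) U X q χ t‖^2 + ‖t2A (betaV V) V X q χ t‖^2)
            * t2w t = (‖t2A (alphaU U) U X q χ t‖^2 + ‖t2A (betaV V) V X q χ t‖^2) / 2 := by
          field_simp
        rw [e]
        nlinarith [sq_nonneg (‖t2A (alphaU U) U X q χ t‖ - ‖t2A (betaV V) V X q χ t‖)]
      refine h1.trans ?_
      rw [t2_primSum_mul, primSum_add]
      have hA := t2A_sieve (alphaU U) (fun n => Real.log n) (alphaU_abs_le U) Q U X hQU hX1 t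
      have hB := t2A_sieve (betaV V) (fun n => (n.divisors.card : ℝ)) (betaV_abs_le hV) Q V X
        hQV hX1 t
      have hA2 := sum_log_sq_div X hX1
      have hB2 := sum_tau_sq_div X hX1
      have hA3 : primSum Q (fun q χ => ‖t2A (alphaU U) U X q χ t‖^2) ≤ 64 * Real.log x ^ 5 := by
        refine hA.trans ?_
        calc (Real.log X + 3) * ∑ n ∈ Finset.Icc 1 X, Real.log n ^ 2 / n
            ≤ (4 * Real.log x) * (2 * Real.log x) ^ 3 := by
              apply mul_le_mul (by linarith) (hA2.trans _) _ (by positivity)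
              · exact pow_le_pow_left₀ (by linarith) (by linarith) 3
              · exact Finset.sum_nonneg fun n _ => by positivity
          _ = 32 * Real.log x ^ 4 := by ring
          _ ≤ 64 * Real.log x ^ 5 := by
              have : Real.log x ^ 4 ≤ Real.log x ^ 5 := pow_le_pow_right₀ hlx1 (by norm_num)
              have h0 : 0 ≤ Real.log x ^ 4 := by positivity
              linarith
      have hB3 : primSum Q (fun q χ => ‖t2A (betaV V) V X q χ t‖^2) ≤ 64 * Real.log x ^ 5 := by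
        refine hB.trans ?_
        calc (Real.log X + 3) * ∑ n ∈ Finset.Icc 1 X, ((n.divisors.card : ℝ)) ^ 2 / n
            ≤ (4 * Real.log x) * (2 * Real.log x) ^ 4 := by
              apply mul_le_mul (by linarith) (hB2.trans _) _ (by positivity)
              · exact pow_le_pow_left₀ (by linarith) (by linarith) 4
              · exact Finset.sum_nonneg fun n _ => by positivity
          _ = 64 * Real.log x ^ 5 := by ring
      calc 1 / (2 * t2w t) * (primSum Q (fun q χ => ‖t2A (alphaU U) U X q χ t‖^2)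
            + primSum Q (fun q χ => ‖t2A (betaV V) V X q χ t‖^2))
          ≤ 1 / (2 * t2w t) * (64 * Real.log x ^ 5 + 64 * Real.log x ^ 5) := by
            apply mul_le_mul_of_nonneg_left (add_le_add hA3 hB3) (by positivity)
        _ = _ := by field_simp; ring
    have h0 : Integrable (fun t : ℝ => 1 / t2w t) := kernel_integrable
    have h2 : ∫ t, primSum Q (fun q χ => F q χ t) ≤ ∫ t, (64 * Real.log x ^ 5) * (1 / t2w t) :=
      integral_mono (t2_primSum_integrable Q F hFint) (h0.const_mul _) key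
    rw [integral_const_mul, ← hI0] at h2
    calc x^2 * ∫ t, primSum Q (fun q χ => F q χ t) ≤ x^2 * (64 * Real.log x ^ 5 * I0) :=
          mul_le_mul_of_nonneg_left h2 (by positivity)
      _ = (64 * I0) * x^2 * Real.log x ^ 5 := by ring
      _ ≤ (64 * I0 + 1) * x^2 * Real.log x ^ 5 := by
          apply mul_le_mul_of_nonneg_right _ (by positivity)
          apply mul_le_mul_of_nonneg_right _ (by positivity)
          linarith

end Pool.Agent.Lib.BV
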