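import Pool.Agent.Lib.BV.TypeI
import Pool.Agent.Lib.BV.TypeII

/-!
# Riesz means of χΛ on average over primitive characters

U = V = Q^4 in vaughan; RS is additive. For y <= x, χ <> 1 mod q <= Q:
|RS(LU χ)(y)| <= y U log U (trivial), |RS((LU*muV)*ζ χ)| <= q y U V log(U+1) (typeI_zeta,
LU_mul_muV_sum), |RS((muV*log)χ)| <= 2 q y log y V (typeI_log), the last term: typeII.
-/

open Complex

namespace Pool.Agent.Lib.BV

open Pool.Agent.Lib.SW

/-- The twist of a real arithmetic function by a character. -/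
noncomputable def tw {q : ℕ} (χ : DirichletCharacter ℂ q) (g : ArithmeticFunction ℝ) : ℕ → ℂ :=
  fun n => ((g n : ℝ) : ℂ) * χ (n : ZMod q)

lemma RS_tw_add {q : ℕ} (χ : DirichletCharacter ℂ q) (g h : ArithmeticFunction ℝ) (y : ℝ) :
    RS (tw χ (g + h)) y = RS (tw χ g) y + RS (tw χ h) y := by
  unfold RS tw
  rw [← Finset.sum_add_distrib]
  refine Finset.sum_congr rfl fun n _ => ?_
  rw [ArithmeticFunction.add_apply]
  push_cast
  ring

lemma RS_tw_sub {q : ℕ} (χ : DirichletCharacter ℂ q) (g h : ArithmeticFunction ℝ) (y : ℝ) :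
    RS (tw χ (g - h)) y = RS (tw χ g) y - RS (tw χ h) y := by
  rw [eq_sub_iff_add_eq, ← RS_tw_add, sub_add_cancel]

lemma RS_lam_eq {q : ℕ} (χ : DirichletCharacter ℂ q) (U V : ℕ) (y : ℝ) :
    RS (lam (chf χ)) y = RS (tw χ (LU U)) y
      - RS (tw χ ((LU U * muV V) * (ArithmeticFunction.zeta : ArithmeticFunction ℝ))) y
      + RS (tw χ (muV V * ArithmeticFunction.log)) y
      + RS (tw χ (alphaU U * betaV V)) y := by
  rw [← RS_tw_sub, ← RS_tw_add, ← RS_tw_add, ← vaughan U V]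
  unfold RS tw lam chf
  refine Finset.sum_congr rfl fun n _ => ?_
  ring

lemma RS_LU_le {q : ℕ} (χ : DirichletCharacter ℂ q) (U : ℕ) (y : ℝ) (hy : 1 ≤ y) :
    ‖RS (tw χ (LU U)) y‖ ≤ y * (U * Real.log (U + 1)) := by
  have hlogU : 0 ≤ Real.log (U + 1) := Real.log_nonneg (by
    have : (0:ℝ) ≤ U := Nat.cast_nonneg U
    linarith)
  have hterm : ∀ n ∈ Finset.Icc 1 ⌊y⌋₊, ‖tw χ (LU U) n * ((y - n : ℝ) : ℂ)‖ ≤
      if n ≤ U then y * Real.log (U + 1) else 0 := by
    intro n hn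
    rw [Finset.mem_Icc] at hn
    have hny : (n : ℝ) ≤ y := (Nat.le_floor_iff (by linarith)).1 hn.2
    have hn0 : (0:ℝ) ≤ n := Nat.cast_nonneg n
    have h1 : ‖((y - n : ℝ) : ℂ)‖ ≤ y := by
      rw [Complex.norm_real, Real.norm_eq_abs, abs_of_nonneg (by linarith)]
      linarith
    have h2 : ‖χ (n : ZMod q)‖ ≤ 1 := χ.norm_le_one _
    rw [norm_mul]
    unfold tw
    rw [norm_mul, Complex.norm_real, Real.norm_eq_abs]
    show |(if n ≤ U then ArithmeticFunction.vonMangoldt n else 0 : ℝ)| * _ * _ ≤ _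
    split_ifs with hnU
    · rw [abs_of_nonneg ArithmeticFunction.vonMangoldt_nonneg]
      have h3 : ArithmeticFunction.vonMangoldt n ≤ Real.log (U + 1) := by
        refine ArithmeticFunction.vonMangoldt_le_log.trans ?_
        apply Real.log_le_log (by exact_mod_cast hn.1)
        have : (n : ℝ) ≤ U := by exact_mod_cast hnU
        linarith
      calc ArithmeticFunction.vonMangoldt n * ‖χ (n : ZMod q)‖ * ‖((y - n : ℝ) : ℂ)‖
          ≤ Real.log (U + 1) * 1 * y := by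
            apply mul_le_mul _ h1 (norm_nonneg _) (by linarith)
            exact mul_le_mul h3 h2 (norm_nonneg _) hlogU
        _ = y * Real.log (U + 1) := by ring
    · simp
  refine (norm_sum_le _ _).trans ((Finset.sum_le_sum hterm).trans ?_)
  rw [← Finset.sum_filter, Finset.sum_const, nsmul_eq_mul]
  have hcard : ((Finset.Icc 1 ⌊y⌋₊).filter (fun n => n ≤ U)).card ≤ U := by
    calc ((Finset.Icc 1 ⌊y⌋₊).filter (fun n => n ≤ U)).card ≤ (Finset.Icc 1 U).card := by
          apply Finset.card_le_card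
          intro n hn
          simp only [Finset.mem_filter, Finset.mem_Icc] at hn ⊢
          exact ⟨hn.1.1, hn.2⟩
      _ = U := by simp
  have hcard' : (((Finset.Icc 1 ⌊y⌋₊).filter (fun n => n ≤ U)).card : ℝ) ≤ U := by
    exact_mod_cast hcard
  calc (((Finset.Icc 1 ⌊y⌋₊).filter (fun n => n ≤ U)).card : ℝ) * (y * Real.log (U + 1))
      ≤ U * (y * Real.log (U + 1)) :=
        mul_le_mul_of_nonneg_right hcard' (mul_nonneg (by linarith) hlogU)
    _ = y * (U * Real.log (U + 1)) := by ring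

lemma muV_sum_le (V X : ℕ) : ∑ d ∈ Finset.Icc 1 X, |muV V d| ≤ V := by
  have hterm : ∀ d ∈ Finset.Icc 1 X, |muV V d| ≤ if d ≤ V then 1 else 0 := by
    intro d _
    show |(if d ≤ V then (ArithmeticFunction.moebius d : ℝ) else 0 : ℝ)| ≤ _
    split_ifs
    · have := ArithmeticFunction.abs_moebius_le_one (n := d)
      exact_mod_cast this
    · simp
  refine (Finset.sum_le_sum hterm).trans ?_
  rw [← Finset.sum_filter, Finset.sum_const, nsmul_eq_mul, mul_one]
  have hcard : ((Finset.Icc 1 X).filter (fun n => n ≤ V)).card ≤ V := by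
    calc ((Finset.Icc 1 X).filter (fun n => n ≤ V)).card ≤ (Finset.Icc 1 V).card := by
          apply Finset.card_le_card
          intro n hn
          simp only [Finset.mem_filter, Finset.mem_Icc] at hn ⊢
          exact ⟨hn.1.1, hn.2⟩
      _ = V := by simp
  exact_mod_cast hcard

lemma primSum_const_le (Q : ℕ) {K : ℝ} (hK : 0 ≤ K) :
    primSum Q (fun _ _ => K) ≤ Q ^ 2 * K := by
  unfold primSum
  have h0 : (Q:ℝ) ^ 2 * K = ∑ _q ∈ Finset.range Q, (Q * K : ℝ) := by
    rw [Finset.sum_const, Finset.card_range, nsmul_eq_mul]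
    ring
  rw [h0]
  refine Finset.sum_le_sum fun q hq => ?_
  rw [Finset.mem_range] at hq
  refine (Finset.sum_le_sum (g := fun _ => K) fun χ _ => ?_).trans ?_
  · split_ifs
    · exact le_rfl
    · exact hK
  · rw [Finset.sum_const, nsmul_eq_mul, Finset.card_univ]
    apply mul_le_mul_of_nonneg_right _ hK
    have h2 : Fintype.card (DirichletCharacter ℂ (q+1)) = (q+1).totient := by
      rw [← Nat.card_eq_fintype_card]
      exact DirichletCharacter.card_eq_totient_of_hasEnoughRootsOfUnity ℂ (q+1)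
    rw [h2]
    have h3 := Nat.totient_le (q+1)
    exact_mod_cast h3.trans hq

theorem prim_bound : ∃ C : ℝ, 0 < C ∧ ∀ (Q : ℕ) (x : ℝ), 3 ≤ x → 1 ≤ Q → (Q:ℝ) ^ 20 ≤ x →
    ∃ G : (q : ℕ) → DirichletCharacter ℂ q → ℝ, (∀ q χ, 0 ≤ G q χ) ∧
      (∀ (q : ℕ) [NeZero q] (χ : DirichletCharacter ℂ q), q ≤ Q → χ ≠ 1 → ∀ y : ℝ, 1 ≤ y →
        y ≤ x → ‖RS (lam (chf χ)) y‖ ≤ G q χ) ∧
      primSum Q G ≤ C * x ^ 2 * (Real.log x) ^ 5 := by
  obtain ⟨C, hC, hII⟩ := typeII
  refine ⟨C + 8, by linarith, ?_⟩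
  intro Q x hx hQ hQx
  have hV1 : 1 ≤ Q ^ 4 := Nat.one_le_pow _ _ hQ
  obtain ⟨G2, hG2, hG2b, hG2s⟩ := hII Q (Q ^ 4) (Q ^ 4) x hx hV1 le_rfl le_rfl
  have hlog1 : 1 ≤ Real.log x := by
    have h1 : Real.exp 1 ≤ x := by
      have := Real.exp_one_lt_d9
      linarith
    have := Real.log_le_log (Real.exp_pos 1) h1
    rwa [Real.log_exp] at this
  have hQ1 : (1:ℝ) ≤ Q := by exact_mod_cast hQ
  have hQ4x : (Q:ℝ) ^ 4 ≤ x := (pow_le_pow_right₀ hQ1 (by norm_num)).trans hQx
  have hlogU : Real.log (((Q ^ 4 : ℕ) : ℝ) + 1) ≤ 2 * Real.log x := by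
    have h1 : ((Q ^ 4 : ℕ) : ℝ) + 1 ≤ x ^ 2 := by
      push_cast
      nlinarith
    have h2 := Real.log_le_log (by positivity) h1
    rwa [Real.log_pow] at h2
  have hlogU0 : 0 ≤ Real.log (((Q ^ 4 : ℕ) : ℝ) + 1) := Real.log_nonneg (by
    have : (0:ℝ) ≤ ((Q ^ 4 : ℕ) : ℝ) := Nat.cast_nonneg _
    linarith)
  have hx0 : 0 < x := by linarith
  set K : ℝ := 6 * (Q:ℝ) ^ 9 * x * Real.log x with hKdef
  have hK0 : 0 ≤ K := by positivity
  refine ⟨fun q χ => G2 q χ + K, fun q χ => add_nonneg (hG2 q χ) hK0, ?_, ?_⟩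
  · intro q _ χ hq hχ y hy hyx
    have hqQ : (q:ℝ) ≤ Q := by exact_mod_cast hq
    have hy0 : 0 ≤ y := by linarith
    have hlogy0 : 0 ≤ Real.log y := Real.log_nonneg hy
    have hlogyx : Real.log y ≤ Real.log x := Real.log_le_log (by linarith) hyx
    rw [RS_lam_eq χ (Q ^ 4) (Q ^ 4) y]
    have h1 := RS_LU_le χ (Q ^ 4) y hy
    have h2 := typeI_zeta χ hχ (LU (Q ^ 4) * muV (Q ^ 4)) y hy
    have h3 := typeI_log χ hχ (muV (Q ^ 4)) y hy
    have h4 := hG2b q χ y hy hyx
    have h5 := LU_mul_muV_sum (Q ^ 4) (Q ^ 4) ⌊y⌋₊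
    have h6 := muV_sum_le (Q ^ 4) ⌊y⌋₊
    have b1 : ‖RS (tw χ (LU (Q ^ 4))) y‖ ≤ 2 * (Q:ℝ) ^ 9 * x * Real.log x := by
      refine h1.trans ?_
      calc y * (((Q ^ 4 : ℕ) : ℝ) * Real.log (((Q ^ 4 : ℕ) : ℝ) + 1))
          ≤ x * ((Q:ℝ) ^ 9 * (2 * Real.log x)) := by
            apply mul_le_mul hyx _ (by positivity) hx0.le
            apply mul_le_mul _ hlogU hlogU0 (by positivity)
            push_cast
            exact pow_le_pow_right₀ hQ1 (by norm_num)
        _ = 2 * (Q:ℝ) ^ 9 * x * Real.log x := by ring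
    have b2 : ‖RS (tw χ ((LU (Q ^ 4) * muV (Q ^ 4)) *
        (ArithmeticFunction.zeta : ArithmeticFunction ℝ))) y‖ ≤
        2 * (Q:ℝ) ^ 9 * x * Real.log x := by
      refine h2.trans ?_
      calc (q:ℝ) * y * ∑ d ∈ Finset.Icc 1 ⌊y⌋₊, |(LU (Q ^ 4) * muV (Q ^ 4)) d|
          ≤ (Q * x) * ((Q:ℝ) ^ 8 * (2 * Real.log x)) := by
            apply mul_le_mul _ _ (Finset.sum_nonneg fun _ _ => abs_nonneg _) (by positivity)
            · exact mul_le_mul hqQ hyx hy0 (by positivity)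
            · refine h5.trans ?_
              have h7 : (((Q ^ 4 : ℕ) : ℝ) * ((Q ^ 4 : ℕ) : ℝ)) = (Q:ℝ) ^ 8 := by
                push_cast
                ring
              rw [h7]
              exact mul_le_mul_of_nonneg_left hlogU (by positivity)
        _ = 2 * (Q:ℝ) ^ 9 * x * Real.log x := by ring
    have b3 : ‖RS (tw χ (muV (Q ^ 4) * ArithmeticFunction.log)) y‖ ≤
        2 * (Q:ℝ) ^ 9 * x * Real.log x := by
      refine h3.trans ?_
      calc 2 * (q:ℝ) * y * Real.log y * ∑ d ∈ Finset.Icc 1 ⌊y⌋₊, |muV (Q ^ 4) d|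
          ≤ (2 * Q * x * Real.log x) * (Q:ℝ) ^ 4 := by
            apply mul_le_mul _ _ (Finset.sum_nonneg fun _ _ => abs_nonneg _) (by positivity)
            · apply mul_le_mul _ hlogyx hlogy0 (by positivity)
              apply mul_le_mul _ hyx hy0 (by positivity)
              linarith
            · refine h6.trans ?_
              push_cast
              exact le_rfl
        _ = 2 * (Q:ℝ) ^ 5 * x * Real.log x := by ring
        _ ≤ 2 * (Q:ℝ) ^ 9 * x * Real.log x := by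
            have h8 : (Q:ℝ) ^ 5 ≤ (Q:ℝ) ^ 9 := pow_le_pow_right₀ hQ1 (by norm_num)
            have h9 : 0 ≤ x * Real.log x := by positivity
            nlinarith
    have b4 : ‖RS (tw χ (alphaU (Q ^ 4) * betaV (Q ^ 4))) y‖ ≤ G2 q χ := h4
    calc _ ≤ ‖RS (tw χ (LU (Q ^ 4))) y‖ + ‖RS (tw χ ((LU (Q ^ 4) * muV (Q ^ 4)) *
            (ArithmeticFunction.zeta : ArithmeticFunction ℝ))) y‖ +
            ‖RS (tw χ (muV (Q ^ 4) * ArithmeticFunction.log)) y‖ +
            ‖RS (tw χ (alphaU (Q ^ 4) * betaV (Q ^ 4))) y‖ := by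
          refine (norm_add_le _ _).trans (add_le_add_left ?_ _)
          refine (norm_add_le _ _).trans (add_le_add_left ?_ _)
          exact norm_sub_le _ _
      _ ≤ G2 q χ + K := by
          rw [hKdef]
          linarith
  · rw [primSum_add]
    have h1 := primSum_const_le Q hK0
    have h2 : (Q:ℝ) ^ 2 * K ≤ 8 * x ^ 2 * Real.log x ^ 5 := by
      have h3 : (Q:ℝ) ^ 11 ≤ x := (pow_le_pow_right₀ hQ1 (by norm_num)).trans hQx
      have h4 : Real.log x ≤ Real.log x ^ 5 := by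
        calc Real.log x = Real.log x ^ 1 := (pow_one _).symm
          _ ≤ Real.log x ^ 5 := pow_le_pow_right₀ hlog1 (by norm_num)
      calc (Q:ℝ) ^ 2 * K = 6 * ((Q:ℝ) ^ 11 * (x * Real.log x)) := by
            rw [hKdef]
            ring
        _ ≤ 6 * (x * (x * Real.log x)) := by
            apply mul_le_mul_of_nonneg_left _ (by norm_num)
            exact mul_le_mul_of_nonneg_right h3 (by positivity)
        _ ≤ 8 * (x * (x * Real.log x ^ 5)) := by
            apply mul_le_mul (by norm_num) _ (by positivity) (by norm_num)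
            apply mul_le_mul_of_nonneg_left _ hx0.le
            exact mul_le_mul_of_nonneg_left h4 hx0.le
        _ = 8 * x ^ 2 * Real.log x ^ 5 := by ring
    calc primSum Q G2 + primSum Q (fun _ _ => K)
        ≤ C * x ^ 2 * Real.log x ^ 5 + 8 * x ^ 2 * Real.log x ^ 5 :=
          add_le_add hG2s (h1.trans h2)
      _ = (C + 8) * x ^ 2 * Real.log x ^ 5 := by ring

end Pool.Agent.Lib.BV
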