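import Pool.Agent.Lib.BV.Defs
import Pool.Agent.Lib.SW.CharUpper

/-!
# Type I sums

PROOF SKETCH. With g = c * ζ: sum_{n<=y} g(n)χ(n)(y-n) = sum_{d<=y} c(d)χ(d) sum_{m<=y/d} χ(m)(y-dm)
= sum_d c(d) χ(d) d RS(χ)(y/d), and |RS(χ)(z)| = |int_0^z S(u) du| <= q z for z >= 0, where
|S(u)| = |sum_{m<=u} χ(m)| <= q (norm_sum_chf_le). Hence <= sum |c(d)| d q y/d = q y sum |c(d)|.
With c * log: |sum_{m<=u} χ(m) log m| <= 2 q log u (summation by parts), so the inner sum is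
<= 2 q z log z for z >= 1, total <= 2 q y log y sum |c(d)|.
(Instead of the integral: summation by parts, sum_{m<=z} a_m (z-m) = sum over k of A(k) times the
length of [k,k+1] intersected with [0,z].)
-/

open Complex

namespace Pool.Agent.Lib.BV

open Pool.Agent.Lib.SW

private lemma ti_abel (a : ℕ → ℂ) (z : ℝ) (M : ℕ) :
    ∑ m ∈ Finset.Icc 1 M, a m * ((z - m : ℝ) : ℂ) =
      ∑ k ∈ Finset.range M, (∑ m ∈ Finset.Icc 1 k, a m) +
        (∑ m ∈ Finset.Icc 1 M, a m) * ((z - M : ℝ) : ℂ) := by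
  induction M with
  | zero => simp
  | succ M ih =>
    rw [Finset.sum_Icc_succ_top (by omega), ih, Finset.sum_range_succ,
      Finset.sum_Icc_succ_top (by omega)]
    push_cast
    ring

private lemma ti_bound (a : ℕ → ℂ) (z B : ℝ) (M : ℕ) (hM : (M:ℝ) ≤ z)
    (hB : ∀ k ≤ M, ‖∑ m ∈ Finset.Icc 1 k, a m‖ ≤ B) :
    ‖∑ m ∈ Finset.Icc 1 M, a m * ((z - m : ℝ) : ℂ)‖ ≤ B * z := by
  rw [ti_abel]
  refine (norm_add_le _ _).trans ?_
  have h1 : ‖∑ k ∈ Finset.range M, (∑ m ∈ Finset.Icc 1 k, a m)‖ ≤ M * B := by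
    refine (norm_sum_le _ _).trans ?_
    refine (Finset.sum_le_sum fun k hk => hB k (by
      rw [Finset.mem_range] at hk; omega)).trans ?_
    simp
  have h2 : ‖(∑ m ∈ Finset.Icc 1 M, a m) * ((z - M : ℝ) : ℂ)‖ ≤ B * (z - M) := by
    rw [norm_mul, Complex.norm_real, Real.norm_of_nonneg (by linarith)]
    exact mul_le_mul_of_nonneg_right (hB M le_rfl) (by linarith)
  calc _ ≤ M * B + B * (z - M) := add_le_add h1 h2
    _ = B * z := by ring

private lemma ti_hyp (g : ℕ → ℕ → ℂ) (N : ℕ) :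
    ∑ n ∈ Finset.Icc 1 N, ∑ x ∈ n.divisorsAntidiagonal, g x.1 x.2 =
      ∑ d ∈ Finset.Icc 1 N, ∑ m ∈ Finset.Icc 1 (N / d), g d m := by
  rw [Finset.sum_sigma', Finset.sum_sigma']
  refine Finset.sum_bij' (fun x _ => ⟨x.2.1, x.2.2⟩) (fun x _ => ⟨x.1 * x.2, (x.1, x.2)⟩)
    ?_ ?_ ?_ ?_ ?_
  · rintro ⟨n, a, b⟩ h
    simp only [Finset.mem_sigma, Finset.mem_Icc, Nat.mem_divisorsAntidiagonal] at h ⊢
    obtain ⟨⟨h1, h2⟩, h3, h4⟩ := h
    have ha : 1 ≤ a := by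
      rcases Nat.eq_zero_or_pos a with h | h
      · rw [h, zero_mul] at h3; omega
      · exact h
    have hb : 1 ≤ b := by
      rcases Nat.eq_zero_or_pos b with h | h
      · rw [h, mul_zero] at h3; omega
      · exact h
    refine ⟨⟨ha, ?_⟩, hb, ?_⟩
    · calc a = a * 1 := (mul_one a).symm
        _ ≤ a * b := Nat.mul_le_mul_left _ hb
        _ ≤ N := by omega
    · rw [Nat.le_div_iff_mul_le (by omega)]
      rw [mul_comm]; omega
  · rintro ⟨a, b⟩ h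
    simp only [Finset.mem_sigma, Finset.mem_Icc, Nat.mem_divisorsAntidiagonal] at h ⊢
    obtain ⟨⟨h1, h2⟩, h3, h4⟩ := h
    rw [Nat.le_div_iff_mul_le (by omega)] at h4
    have h5 : 0 < a * b := Nat.mul_pos (by omega) (by omega)
    refine ⟨⟨h5, ?_⟩, trivial, by omega⟩
    rw [mul_comm]; exact h4
  · rintro ⟨n, a, b⟩ h
    simp only [Finset.mem_sigma, Finset.mem_Icc, Nat.mem_divisorsAntidiagonal] at h ⊢
    obtain ⟨⟨h1, h2⟩, h3, h4⟩ := h
    subst h3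
    rfl
  · rintro ⟨a, b⟩ h
    rfl
  · rintro ⟨n, a, b⟩ h
    rfl

private lemma ti_main {q : ℕ} (χ : DirichletCharacter ℂ q) (c h : ArithmeticFunction ℝ)
    (y : ℝ) (hy : 1 ≤ y) (B : ℝ) (hB : 0 ≤ B)
    (hh : ∀ k ≤ ⌊y⌋₊, ‖∑ m ∈ Finset.Icc 1 k, ((h m : ℝ) : ℂ) * χ (m : ZMod q)‖ ≤ B) :
    ‖RS (fun n => (((c * h) n : ℝ) : ℂ) * χ (n : ZMod q)) y‖ ≤
      B * y * ∑ d ∈ Finset.Icc 1 ⌊y⌋₊, |c d| := by
  let g : ℕ → ℕ → ℂ := fun d m => ((c d : ℝ) : ℂ) * χ (d : ZMod q) *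
          ((((h m : ℝ) : ℂ) * χ (m : ZMod q)) * ((y - (d:ℝ) * m : ℝ) : ℂ))
  have h1 : RS (fun n => (((c * h) n : ℝ) : ℂ) * χ (n : ZMod q)) y =
      ∑ n ∈ Finset.Icc 1 ⌊y⌋₊, ∑ x ∈ n.divisorsAntidiagonal, g x.1 x.2 := by
    unfold RS
    refine Finset.sum_congr rfl fun n _ => ?_
    show (((c * h) n : ℝ) : ℂ) * χ (n : ZMod q) * ((y - n : ℝ) : ℂ) = _
    rw [ArithmeticFunction.mul_apply]
    push_cast
    rw [Finset.sum_mul, Finset.sum_mul]
    refine Finset.sum_congr rfl fun x hx => ?_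
    rw [Nat.mem_divisorsAntidiagonal] at hx
    show _ = ((c x.1 : ℝ) : ℂ) * χ (x.1 : ZMod q) *
          ((((h x.2 : ℝ) : ℂ) * χ (x.2 : ZMod q)) * ((y - (x.1:ℝ) * x.2 : ℝ) : ℂ))
    rw [← hx.1]
    push_cast
    rw [map_mul]
    ring
  rw [h1, ti_hyp g]
  refine (norm_sum_le _ _).trans ?_
  rw [Finset.mul_sum]
  refine Finset.sum_le_sum fun d hd => ?_
  rw [Finset.mem_Icc] at hd
  have hd0 : (0:ℝ) < d := by exact_mod_cast (by omega : 0 < d)
  have h2 : ∑ m ∈ Finset.Icc 1 (⌊y⌋₊ / d), g d m =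
      ((c d : ℝ) : ℂ) * χ (d : ZMod q) * (d:ℂ) * ∑ m ∈ Finset.Icc 1 (⌊y⌋₊ / d),
        (((h m : ℝ) : ℂ) * χ (m : ZMod q)) * ((y / d - m : ℝ) : ℂ) := by
    rw [Finset.mul_sum]
    refine Finset.sum_congr rfl fun m _ => ?_
    have : ((y - (d:ℝ) * m : ℝ) : ℂ) = (d:ℂ) * ((y / d - m : ℝ) : ℂ) := by
      rw [← Complex.ofReal_natCast, ← Complex.ofReal_mul]
      congr 1
      field_simp
    show ((c d : ℝ) : ℂ) * χ (d : ZMod q) *
          ((((h m : ℝ) : ℂ) * χ (m : ZMod q)) * ((y - (d:ℝ) * m : ℝ) : ℂ)) = _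
    rw [this]
    ring
  rw [h2, norm_mul, norm_mul, norm_mul]
  have h3 : ‖∑ m ∈ Finset.Icc 1 (⌊y⌋₊ / d),
        (((h m : ℝ) : ℂ) * χ (m : ZMod q)) * ((y / d - m : ℝ) : ℂ)‖ ≤ B * (y / d) := by
    refine ti_bound _ _ _ _ ?_ fun k hk => hh k (hk.trans (Nat.div_le_self _ _))
    rw [le_div_iff₀ hd0]
    have h4 : ⌊y⌋₊ / d * d ≤ ⌊y⌋₊ := Nat.div_mul_le_self _ _
    have h5 : ((⌊y⌋₊ / d * d : ℕ) : ℝ) ≤ (⌊y⌋₊ : ℝ) := by exact_mod_cast h4
    have h6 : (⌊y⌋₊ : ℝ) ≤ y := Nat.floor_le (by linarith)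
    push_cast at h5
    linarith
  have h4 : ‖χ (d : ZMod q)‖ ≤ 1 := χ.norm_le_one _
  have h5 : ‖((c d : ℝ) : ℂ)‖ = |c d| := by rw [Complex.norm_real, Real.norm_eq_abs]
  have h6 : ‖(d:ℂ)‖ = d := Complex.norm_natCast d
  rw [h5, h6]
  calc |c d| * ‖χ (d : ZMod q)‖ * d * _ ≤ |c d| * 1 * d * (B * (y / d)) := by
        apply mul_le_mul _ h3 (norm_nonneg _) (by positivity)
        apply mul_le_mul_of_nonneg_right _ hd0.le
        exact mul_le_mul_of_nonneg_left h4 (abs_nonneg _)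
    _ = B * y * |c d| := by field_simp

theorem typeI_zeta {q : ℕ} [NeZero q] (χ : DirichletCharacter ℂ q) (hχ : χ ≠ 1)
    (c : ArithmeticFunction ℝ) (y : ℝ) (hy : 1 ≤ y) :
    ‖RS (fun n => (((c * (ArithmeticFunction.zeta : ArithmeticFunction ℝ)) n : ℝ) : ℂ) *
      χ (n : ZMod q)) y‖ ≤ q * y * ∑ d ∈ Finset.Icc 1 ⌊y⌋₊, |c d| := by
  refine ti_main χ c _ y hy q (Nat.cast_nonneg _) fun k _ => ?_
  refine le_trans (le_of_eq ?_) (norm_sum_chf_le χ hχ k)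
  congr 1
  refine Finset.sum_congr rfl fun m hm => ?_
  rw [Finset.mem_Icc] at hm
  have : m ≠ 0 := by omega
  simp [chf, ArithmeticFunction.natCoe_apply, ArithmeticFunction.zeta_apply, this]

private lemma ti_log_abel (a : ℕ → ℂ) (M : ℕ) :
    ∑ m ∈ Finset.Icc 1 M, ((Real.log m : ℝ) : ℂ) * a m =
      (∑ m ∈ Finset.Icc 1 M, a m) * ((Real.log M : ℝ) : ℂ) -
      ∑ k ∈ Finset.Ico 1 M, (∑ m ∈ Finset.Icc 1 k, a m) *
        ((Real.log (k + 1) - Real.log k : ℝ) : ℂ) := by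
  induction M with
  | zero => simp
  | succ M ih =>
    rcases Nat.eq_zero_or_pos M with h0 | h0
    · subst h0; simp
    · rw [Finset.sum_Icc_succ_top (by omega), ih, Finset.sum_Ico_succ_top (by omega),
        Finset.sum_Icc_succ_top (by omega)]
      push_cast
      ring

theorem typeI_log {q : ℕ} [NeZero q] (χ : DirichletCharacter ℂ q) (hχ : χ ≠ 1)
    (c : ArithmeticFunction ℝ) (y : ℝ) (hy : 1 ≤ y) :
    ‖RS (fun n => (((c * ArithmeticFunction.log) n : ℝ) : ℂ) * χ (n : ZMod q)) y‖ ≤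
      2 * q * y * Real.log y * ∑ d ∈ Finset.Icc 1 ⌊y⌋₊, |c d| := by
  have hlog : 0 ≤ Real.log y := Real.log_nonneg hy
  have hq : (0:ℝ) ≤ q := Nat.cast_nonneg _
  have key : ∀ k ≤ ⌊y⌋₊, ‖∑ m ∈ Finset.Icc 1 k,
      ((ArithmeticFunction.log m : ℝ) : ℂ) * χ (m : ZMod q)‖ ≤ 2 * q * Real.log y := by
    intro k hk
    rcases Nat.eq_zero_or_pos k with h0 | h0
    · subst h0
      simp only [Finset.Icc_eq_empty_of_lt (show (0:ℕ) < 1 by norm_num), Finset.sum_empty,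
        norm_zero]
      positivity
    have e : ∑ m ∈ Finset.Icc 1 k, ((ArithmeticFunction.log m : ℝ) : ℂ) * χ (m : ZMod q) =
        ∑ m ∈ Finset.Icc 1 k, ((Real.log m : ℝ) : ℂ) * chf χ m := by
      refine Finset.sum_congr rfl fun m _ => ?_
      rw [ArithmeticFunction.log_apply]
      rfl
    rw [e, ti_log_abel]
    refine (norm_sub_le _ _).trans ?_
    have hk1 : (1:ℝ) ≤ k := by exact_mod_cast h0
    have hky : Real.log k ≤ Real.log y := by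
      apply Real.log_le_log (by linarith)
      exact (Nat.le_floor_iff (by linarith)).1 hk
    have hk0 : 0 ≤ Real.log k := Real.log_nonneg hk1
    have h1 : ‖(∑ m ∈ Finset.Icc 1 k, chf χ m) * ((Real.log k : ℝ) : ℂ)‖ ≤ q * Real.log k := by
      rw [norm_mul, Complex.norm_real, Real.norm_of_nonneg hk0]
      exact mul_le_mul_of_nonneg_right (norm_sum_chf_le χ hχ k) hk0
    have h2 : ‖∑ j ∈ Finset.Ico 1 k, (∑ m ∈ Finset.Icc 1 j, chf χ m) *
        ((Real.log (j + 1) - Real.log j : ℝ) : ℂ)‖ ≤ q * Real.log k := by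
      refine (norm_sum_le _ _).trans ?_
      have h3 : ∀ j ∈ Finset.Ico 1 k, ‖(∑ m ∈ Finset.Icc 1 j, chf χ m) *
          ((Real.log (j + 1) - Real.log j : ℝ) : ℂ)‖ ≤
          q * (Real.log ((j + 1 : ℕ) : ℝ) - Real.log j) := by
        intro j hj
        rw [Finset.mem_Ico] at hj
        have hj1 : (0:ℝ) < j := by exact_mod_cast (by omega : 0 < j)
        have h4 : 0 ≤ Real.log (j + 1) - Real.log j := by
          have := Real.log_le_log hj1 (by linarith : (j:ℝ) ≤ j + 1)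
          linarith
        rw [norm_mul, Complex.norm_real, Real.norm_of_nonneg h4]
        push_cast
        exact mul_le_mul_of_nonneg_right (norm_sum_chf_le χ hχ j) h4
      refine (Finset.sum_le_sum h3).trans (le_of_eq ?_)
      rw [← Finset.mul_sum, Finset.sum_Ico_sub (fun j : ℕ => Real.log (j:ℝ)) (by omega)]
      simp
    calc _ ≤ q * Real.log k + q * Real.log k := add_le_add h1 h2
      _ ≤ 2 * q * Real.log y := by nlinarith
  have := ti_main χ c ArithmeticFunction.log y hy (2 * q * Real.log y) (by positivity) key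
  calc _ ≤ 2 * q * Real.log y * y * ∑ d ∈ Finset.Icc 1 ⌊y⌋₊, |c d| := this
    _ = _ := by ring

end Pool.Agent.Lib.BV
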